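import Pool.Agent.EG14.Rel
import Pool.Agent.PB3.Stab

set_option linter.all false

/-!
# Flat punctures (EVERY GENUS): pure group theory over the structure `PSys`, and the bounds
-/

namespace Pool.Agent.EG14

open scoped commutatorElement

variable {g n : ℕ} {G : Type*} [Group G] {e : ℕ → ℕ → G}

/-- The group of the pushes of the puncture `S` along words in the letters before `S`. -/
def Lf (e : ℕ → ℕ → G) (S : ℕ) : Subgroup G := Subgroup.closure {x | ∃ b < S, x = e S b}

/-- The group of all pushes of the puncture `S`. -/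
def Nf (g n : ℕ) (e : ℕ → ℕ → G) (S : ℕ) : Subgroup G :=
  Subgroup.closure ({x | ∃ b < S, x = e S b} ∪ {x | ∃ L, S < L ∧ L < 2 * g + n ∧ x = e L S})

/-- `S` is flat: the left pushes commute with the right pushes. -/
def Flat (g n : ℕ) (e : ℕ → ℕ → G) (S : ℕ) : Prop :=
  ∀ b L, b < S → S < L → L < 2 * g + n → Commute (e S b) (e L S)

/-- The right pushes commute with each other. -/
def RC (g n : ℕ) (e : ℕ → ℕ → G) (S : ℕ) : Prop :=
  ∀ L M, S < L → L < 2 * g + n → S < M → M < 2 * g + n → Commute (e L S) (e M S)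

/-- The left pushes form a group of class two. -/
def C2 (e : ℕ → ℕ → G) (S : ℕ) : Prop := ∀ p ∈ ⁅Lf e S, Lf e S⁆, ∀ q ∈ Lf e S, Commute p q

-- MODULE BA1
/-- PROOF. own: with a = e S b, A = e L S, β = e L b: a A a⁻¹ = A⁻¹β⁻¹AβA, and a A a⁻¹ = A by Flat, so β⁻¹ A β = A. -/
theorem flat0 (h : PSys g n e) {S L b : ℕ} (hS : 2 * g ≤ S) (hF : Flat g n e S) (hb : b < S)
    (hL : S < L) (hL' : L < 2 * g + n) : Commute (e L S) (e L b) := by
  have h1 := h.own S L b hS hL hL' hb
  have h2 : Commute (e S b) (e L S) := hF b L hb hL hL'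
  have h3 : e S b * e L S * (e S b)⁻¹ = e L S := by rw [h2.eq, mul_inv_cancel_right]
  rw [h3] at h1
  have h4 : (e L S)⁻¹ * (e L b)⁻¹ * e L S * e L b = 1 := by
    apply mul_right_cancel (b := e L S)
    rw [one_mul]
    exact h1.symm
  show e L S * e L b = e L b * e L S
  calc e L S * e L b = e L b * e L S * ((e L S)⁻¹ * (e L b)⁻¹ * e L S * e L b) := by group
    _ = _ := by rw [h4, mul_one]
-- END BA1

-- MODULE BA2
private theorem BA2_grp {k a A : G} (h3 : k * a * k⁻¹ = A⁻¹ * a * A)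
    (h4 : k * A * k⁻¹ = A⁻¹ * a⁻¹ * A * a * A) : A * a * A⁻¹ = a⁻¹ * (k⁻¹ * a * k) * a := by
  have g3 : a = (k⁻¹ * A * k)⁻¹ * (k⁻¹ * a * k) * (k⁻¹ * A * k) := by
    calc a = k⁻¹ * (k * a * k⁻¹) * k := by group
      _ = _ := by
        rw [h3]
        group
  have g4 : A = (k⁻¹ * A * k)⁻¹ * (k⁻¹ * a * k)⁻¹ * (k⁻¹ * A * k) * (k⁻¹ * a * k) * (k⁻¹ * A * k) := by
    calc A = k⁻¹ * (k * A * k⁻¹) * k := by group
      _ = _ := by
        rw [h4]
        group
  generalize hA' : k⁻¹ * A * k = A' at g3 g4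
  generalize ha' : k⁻¹ * a * k = a' at g3 g4 ⊢
  have g5 : a' = A' * a * A'⁻¹ := by
    calc a' = A' * (A'⁻¹ * a' * A') * A'⁻¹ := by group
      _ = _ := by rw [← g3]
  have g6 : A = a⁻¹ * A' * a := by
    calc A = A'⁻¹ * a'⁻¹ * A' * a' * A' := g4
      _ = _ := by
        rw [g5]
        group
  have g7 : A' = a * A * a⁻¹ := by
    calc A' = a * (a⁻¹ * A' * a) * a⁻¹ := by group
      _ = _ := by rw [← g6]
  rw [g5, g7]
  group

/-- The left pushes of all later punctures commute with the right pushes of S. PROOF. Cases. M = L: BA1 (symm). M < L: left with punctures (M, L), b := S, c := b (b < S, 2g ≤ S): Commute (e M S) (e L b). M > L: let a = e M S, β = e M b, k = e L S, A = e M L. (1) Commute a β (BA1 for (S, M)). (2) Commute k β: left for (L, M), b := S, c := b.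
(3) k a k⁻¹ = A⁻¹aA: same for (L, M), b := S. (4) k A k⁻¹ = A⁻¹a⁻¹AaA: own for (L, M), b := S. From (3), (4), with x' = k⁻¹xk: a = A'⁻¹a'A', A = A'⁻¹a'⁻¹A'a'A' = a⁻¹ A' a, so A' = a A a⁻¹, a' = A' a A'⁻¹ = a A a A⁻¹ a⁻¹, so A a A⁻¹ = a⁻¹ (k⁻¹ a k) a commutes with β by (1), (2).
(5) right for (L, M), b := b, c := S (b < S < L, 2g ≤ S): e L b * a * (e L b)⁻¹ = (A⁻¹β⁻¹Aβ) a (A⁻¹β⁻¹Aβ)⁻¹ = A⁻¹β⁻¹ (A a A⁻¹) β A (by (1)) = A⁻¹ (A a A⁻¹) A = a. -/
theorem flat1 (h : PSys g n e) {S L M b : ℕ} (hS : 2 * g ≤ S) (hF : Flat g n e S) (hb : b < S)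
    (hL : S < L) (hL' : L < 2 * g + n) (hM : S < M) (hM' : M < 2 * g + n) :
    Commute (e L b) (e M S) := by
  rcases lt_trichotomy M L with hML | hML | hML
  · exact (h.left M L S b (by omega) hML hL' hM hb (Or.inl hS)).symm
  · subst hML
    exact (flat0 h hS hF hb hL hL').symm
  · have c1 : Commute (e M S) (e M b) := flat0 h hS hF hb hM hM'
    have c2 : Commute (e L S) (e M b) := h.left L M S b (by omega) hML hM' hL hb (Or.inl hS)
    have c3 := h.same L M S (by omega) hML hM' hL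
    have c4 := h.own L M S (by omega) hML hM' hL
    have c6 := BA2_grp c3 c4
    have c5 := h.right L M b S (by omega) hML hM' hb hL (Or.inl hS)
    have c7 : Commute (e M L * e M S * (e M L)⁻¹) (e M b) := by
      rw [c6]
      exact (c1.inv_left.mul_left ((c2.inv_left.mul_left c1).mul_left c2)).mul_left c1
    have c8 : e L b * e M S * (e L b)⁻¹ = e M S := by
      rw [c5]
      calc (e M L)⁻¹ * (e M b)⁻¹ * e M L * e M b * e M S *
            ((e M L)⁻¹ * (e M b)⁻¹ * e M L * e M b)⁻¹ =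
          (e M L)⁻¹ * (e M b)⁻¹ * e M L * (e M b * e M S) * (e M b)⁻¹ * (e M L)⁻¹ * e M b * e M L := by
            group
        _ = (e M L)⁻¹ * (e M b)⁻¹ * ((e M L * e M S * (e M L)⁻¹) * e M b) * e M L := by
            rw [← c1.eq]
            group
        _ = e M S := by
            rw [c7.eq]
            group
    show e L b * e M S = e M S * e L b
    exact mul_inv_eq_iff_eq_mul.1 c8
-- END BA2

-- MODULE BA3
/-- PROOF. A = e L S commutes with all e L c', c' < S (BA1). Cases: c < b not in the same handle (b ≥ 2g or c/2 ≠ b/2): left, k = 0. c = b: same: A⁻¹ β A = β, k = 0. b < c not in the same handle: right, the conjugator A⁻¹β⁻¹Aβ = 1, k = 0. Same handle, b < 2g: b = 2i, c = 2i+1: xy: A⁻¹γβ⁻¹A⁻¹βA = γ A⁻¹, k = -1. b = 2i+1, c = 2i: yx: k = 1. -/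
theorem flat2 (h : PSys g n e) {S L b c : ℕ} (hS : 2 * g ≤ S) (hF : Flat g n e S) (hb : b < S)
    (hc : c < S) (hL : S < L) (hL' : L < 2 * g + n) :
    ∃ k : ℤ, e S b * e L c * (e S b)⁻¹ = e L c * e L S ^ k := by
  have hcm : ∀ b', b' < S → Commute (e L S) (e L b') := fun b' hb' => flat0 h hS hF hb' hL hL'
  rcases lt_trichotomy c b with hcb | hcb | hcb
  · by_cases hh : 2 * g ≤ b ∨ c / 2 ≠ b / 2
    · refine ⟨0, ?_⟩
      have h1 := h.left S L b c hS hL hL' hb hcb hh
      rw [zpow_zero, mul_one, h1.eq, mul_inv_cancel_right]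
    · push Not at hh
      have hb2 : b = 2 * (b / 2) + 1 := by omega
      have hc2 : c = 2 * (b / 2) := by omega
      have h1 := h.yx S L (b / 2) hS hL hL' (by omega)
      rw [← hb2, ← hc2] at h1
      exact ⟨1, by rw [zpow_one]; exact h1⟩
  · subst hcb
    refine ⟨0, ?_⟩
    rw [zpow_zero, mul_one, h.same S L c hS hL hL' hb, mul_assoc, ← (hcm c hc).eq, inv_mul_cancel_left]
  · by_cases hh : 2 * g ≤ c ∨ c / 2 ≠ b / 2
    · refine ⟨0, ?_⟩
      have h1 := h.right S L b c hS hL hL' hcb hc hh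
      have h2 : (e L S)⁻¹ * (e L b)⁻¹ * e L S * e L b = 1 := by
        have h3 := (hcm b hb).eq
        calc (e L S)⁻¹ * (e L b)⁻¹ * e L S * e L b = (e L S)⁻¹ * (e L b)⁻¹ * (e L S * e L b) := by group
          _ = 1 := by
            rw [h3]
            group
      rw [h1, h2, one_mul, inv_one, zpow_zero]
    · push Not at hh
      have hb2 : b = 2 * (b / 2) := by omega
      have hc2 : c = 2 * (b / 2) + 1 := by omega
      have h1 := h.xy S L (b / 2) hS hL hL' (by omega)
      rw [← hc2, ← hb2] at h1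
      refine ⟨-1, ?_⟩
      rw [zpow_neg_one, h1]
      have h3 := (hcm b hb).eq
      have h4 := (hcm c hc).inv_left.eq
      calc (e L S)⁻¹ * e L c * (e L b)⁻¹ * (e L S)⁻¹ * e L b * e L S =
          ((e L S)⁻¹ * e L c) * (e L b)⁻¹ * (e L S)⁻¹ * (e L b * e L S) := by group
        _ = _ := by
          rw [← h3, h4]
          group
-- END BA3

-- MODULE BA4
private theorem BA4_cm {z w x y : G} (hzx : Commute z x) (hzy : Commute z y) (hwx : Commute w x)
    (hwy : Commute w y) (hzw : Commute z w) : ⁅z * x, w * y⁆ = ⁅x, y⁆ := by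
  have h1 : Commute z (x * y * x⁻¹ * y⁻¹) :=
    ((hzx.mul_right hzy).mul_right hzx.inv_right).mul_right hzy.inv_right
  have h2 : Commute w (x * y * x⁻¹ * y⁻¹) :=
    ((hwx.mul_right hwy).mul_right hwx.inv_right).mul_right hwy.inv_right
  rw [commutatorElement_def, commutatorElement_def]
  calc z * x * (w * y) * (z * x)⁻¹ * (w * y)⁻¹ = z * (x * w) * y * x⁻¹ * (z⁻¹ * y⁻¹) * w⁻¹ := by group
    _ = z * (w * x) * y * x⁻¹ * (y⁻¹ * z⁻¹) * w⁻¹ := by
      rw [← hwx.eq, hzy.inv_left.inv_right.eq]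
    _ = z * (w * (x * y * x⁻¹ * y⁻¹)) * z⁻¹ * w⁻¹ := by group
    _ = (z * (x * y * x⁻¹ * y⁻¹)) * w * z⁻¹ * w⁻¹ := by
      rw [h2.eq]
      group
    _ = (x * y * x⁻¹ * y⁻¹) * (z * w) * z⁻¹ * w⁻¹ := by
      rw [h1.eq]
      group
    _ = _ := by
      rw [hzw.eq]
      group

/-- PROOF. closure_induction on x ∈ Lf e S, with Commute x (e L S) (Flat) in the induction hypothesis: products: k adds, inverse: -k. (x y) t (x y)⁻¹ = x (t A^l) x⁻¹ = t A^k A^l.) The last part: commutators have k = 0: closure_induction for ⁅Lf, Lf⁆ = closure of commutators (Subgroup.commutator_def, commutator_le):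
⁅x,y⁆ t ⁅x,y⁆⁻¹ = t A^(k + l - k - l). Alternatively the set of x ∈ Lf with the exponent k is a homomorphism. A may have finite order: do it by direct computation: x t = t A^k x, etc. -/
theorem flat3 (h : PSys g n e) {S L c : ℕ} (hS : 2 * g ≤ S) (hF : Flat g n e S)
    (hc : c < S) (hL : S < L) (hL' : L < 2 * g + n) :
    (∀ x ∈ Lf e S, Commute x (e L S) ∧ ∃ k : ℤ, x * e L c * x⁻¹ = e L c * e L S ^ k) ∧
    ∀ p ∈ ⁅Lf e S, Lf e S⁆, Commute p (e L c) := by
  have hcm : Commute (e L S) (e L c) := flat0 h hS hF hc hL hL'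
  have key : ∀ x ∈ Lf e S, Commute x (e L S) ∧ ∃ k : ℤ, x * e L c * x⁻¹ = e L c * e L S ^ k := by
    intro x hx
    unfold Lf at hx
    induction hx using Subgroup.closure_induction with
    | mem x hx =>
      obtain ⟨b, hb, rfl⟩ := hx
      exact ⟨hF b L hb hL hL', flat2 h hS hF hb hc hL hL'⟩
    | one => exact ⟨Commute.one_left _, 0, by rw [one_mul, inv_one, zpow_zero]⟩
    | mul x y _ _ hx hy =>
      obtain ⟨hx1, k, hx2⟩ := hx
      obtain ⟨hy1, l, hy2⟩ := hy
      refine ⟨hx1.mul_left hy1, k + l, ?_⟩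
      have h5 : x * e L S ^ l = e L S ^ l * x := (hx1.zpow_right l).eq
      calc x * y * e L c * (x * y)⁻¹ = x * (y * e L c * y⁻¹) * x⁻¹ := by group
        _ = x * e L c * (e L S ^ l) * x⁻¹ := by
          rw [hy2]
          simp only [mul_assoc]
        _ = (x * e L c * x⁻¹) * (x * e L S ^ l) * x⁻¹ := by group
        _ = (e L c * e L S ^ k) * (e L S ^ l * x) * x⁻¹ := by rw [hx2, h5]
        _ = e L c * (e L S ^ k * e L S ^ l) := by group
        _ = _ := by rw [← zpow_add]
    | inv x _ hx =>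
      obtain ⟨hx1, k, hx2⟩ := hx
      refine ⟨hx1.inv_left, -k, ?_⟩
      have h5 : x * e L S ^ (-k) = e L S ^ (-k) * x := (hx1.zpow_right (-k)).eq
      have h6 : e L c = x⁻¹ * (e L c * e L S ^ k) * x := by
        rw [← hx2]
        group
      calc x⁻¹ * e L c * x⁻¹⁻¹ = x⁻¹ * (e L c * e L S ^ k) * (e L S ^ (-k) * x) := by group
        _ = x⁻¹ * (e L c * e L S ^ k) * x * e L S ^ (-k) := by
          rw [← h5]
          group
        _ = _ := by rw [← h6]
  refine ⟨key, ?_⟩
  intro p hp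
  have hle : ⁅Lf e S, Lf e S⁆ ≤ Subgroup.centralizer {e L c} := by
    rw [Subgroup.commutator_le]
    intro x hx y hy
    obtain ⟨hx1, k, hx2⟩ := key x hx
    obtain ⟨hy1, l, hy2⟩ := key y hy
    rw [Subgroup.mem_centralizer_iff]
    rintro _ rfl
    have hcx : ∀ {x : G} {k : ℤ}, x * e L c * x⁻¹ = e L c * e L S ^ k →
        (e L c)⁻¹ * x * e L c = e L S ^ k * x := by
      intro x k hx
      have h7 : x * e L c = e L c * e L S ^ k * x := mul_inv_eq_iff_eq_mul.1 hx
      rw [mul_assoc, h7]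
      group
    have h8 : (e L c)⁻¹ * ⁅x, y⁆ * e L c = ⁅x, y⁆ := by
      calc (e L c)⁻¹ * ⁅x, y⁆ * e L c =
          ⁅(e L c)⁻¹ * x * e L c, (e L c)⁻¹ * y * e L c⁆ := by
            simp only [commutatorElement_def]
            group
        _ = ⁅e L S ^ k * x, e L S ^ l * y⁆ := by rw [hcx hx2, hcx hy2]
        _ = _ := BA4_cm (hx1.symm.zpow_left k) (hy1.symm.zpow_left k) (hx1.symm.zpow_left l)
          (hy1.symm.zpow_left l) ((Commute.refl (e L S)).zpow_zpow k l)
    calc e L c * ⁅x, y⁆ = e L c * ((e L c)⁻¹ * ⁅x, y⁆ * e L c) := by rw [h8]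
      _ = _ := by group
  have h9 := Subgroup.mem_centralizer_iff.1 (hle hp) (e L c) rfl
  exact h9.symm
-- END BA4

-- MODULE BA5
private theorem BA5_com {S : ℕ} {y : G} (hy : ∀ b < S, Commute (e S b) y) :
    ∀ x ∈ Lf e S, Commute x y := by
  intro x hx
  unfold Lf at hx
  induction hx using Subgroup.closure_induction with
  | mem x hx =>
    obtain ⟨b, hb, rfl⟩ := hx
    exact hy b hb
  | one => exact Commute.one_left _
  | mul x y _ _ hx hy => exact hx.mul_left hy
  | inv x _ hx => exact hx.inv_left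

private theorem BA5_le {S : ℕ} : ⁅Lf e S, Lf e S⁆ ≤ Lf e S := by
  rw [Subgroup.commutator_le]
  intro x hx y hy
  rw [commutatorElement_def]
  exact mul_mem (mul_mem (mul_mem hx hy) (inv_mem hx)) (inv_mem hy)

/-- PROOF. closure_induction on q ∈ Lf e L: generators e L c, c < L: c < S: BA4. c = S: Commute x (e L S) for x ∈ Lf e S (BA4; for p ∈ ⁅Lf, Lf⁆ ≤ Lf, Subgroup.commutator_le_right needs normality; use Subgroup.commutator_le / closure). c > S: far: e L c commutes with all generators e S b of Lf e S. -/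
theorem flat4 (h : PSys g n e) {S L : ℕ} (hS : 2 * g ≤ S) (hF : Flat g n e S)
    (hL : S < L) (hL' : L < 2 * g + n) :
    ∀ p ∈ ⁅Lf e S, Lf e S⁆, ∀ q ∈ Lf e L, Commute p q := by
  intro p hp q hq
  have hpL : p ∈ Lf e S := BA5_le hp
  unfold Lf at hq
  induction hq using Subgroup.closure_induction with
  | mem q hq =>
    obtain ⟨c, hc, rfl⟩ := hq
    rcases lt_trichotomy c S with h1 | h1 | h1
    · exact (flat3 h hS hF h1 hL hL').2 p hp
    · subst h1
      exact BA5_com (fun b hb => hF b L hb hL hL') p hpL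
    · exact BA5_com (fun b hb => h.far S L b c hS hL hL' hb h1 hc) p hpL
  | one => exact Commute.one_right _
  | mul x y _ _ hx hy => exact hx.mul_right hy
  | inv x _ hx => exact hx.inv_right
-- END BA5

-- MODULE BA6
/-- If the right pushes of S commute then they commute with the pushes between later punctures. PROOF. S < K < L. M < K: far for (M, L), b := S, c := K: Commute (e M S) (e L K). (For all M < K.) M = K and M = L together: let k = e K S, a = e L S, A = e L K; same for (K, L), b := S: k a k⁻¹ = A⁻¹aA and k a k⁻¹ = a (RC), so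
A and a commute (M = L). own for (K, L), b := S: k A k⁻¹ = A⁻¹a⁻¹AaA = A (M = K). K < M < L: right for (M, L), b := S, c := K (2g ≤ K): e M S * e L K * (e M S)⁻¹ = q * e L K * q⁻¹, q = A'⁻¹a⁻¹A'a with A' = e L M, a = e L S which commute (the case M = L with K := M), q = 1.
M > L: left for (L, M), b := K, c := S (S < K, 2g ≤ K): Commute (e L K) (e M S). -/
theorem rc1 (h : PSys g n e) {S K L M : ℕ} (hS : 2 * g ≤ S) (hR : RC g n e S) (hK : S < K)
    (hL : K < L) (hL' : L < 2 * g + n) (hM : S < M) (hM' : M < 2 * g + n) :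
    Commute (e L K) (e M S) := by
  have hlast : ∀ K' L', S < K' → K' < L' → L' < 2 * g + n →
      Commute (e L' K') (e L' S) ∧ Commute (e K' S) (e L' K') := by
    intro K' L' h1 h2 h3
    have c1 := h.same K' L' S (by omega) h2 h3 h1
    have c2 : Commute (e K' S) (e L' S) := hR K' L' h1 (by omega) (by omega) h3
    have c3 : e K' S * e L' S * (e K' S)⁻¹ = e L' S := by rw [c2.eq, mul_inv_cancel_right]
    rw [c3] at c1
    have c4 : Commute (e L' K') (e L' S) := by
      show e L' K' * e L' S = e L' S * e L' K'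
      calc e L' K' * e L' S = e L' K' * ((e L' K')⁻¹ * e L' S * e L' K') := by rw [← c1]
        _ = _ := by group
    refine ⟨c4, ?_⟩
    have c5 := h.own K' L' S (by omega) h2 h3 h1
    have c6 : (e L' K')⁻¹ * (e L' S)⁻¹ * e L' K' * e L' S * e L' K' = e L' K' := by
      calc (e L' K')⁻¹ * (e L' S)⁻¹ * e L' K' * e L' S * e L' K' =
          (e L' K')⁻¹ * (e L' S)⁻¹ * (e L' K' * e L' S) * e L' K' := by group
        _ = _ := by
          rw [c4.eq]
          group
    rw [c6] at c5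
    exact mul_inv_eq_iff_eq_mul.1 c5
  rcases lt_trichotomy M K with h1 | h1 | h1
  · exact (h.far M L S K (by omega) (by omega) hL' hM h1 hL).symm
  · subst h1
    exact (hlast M L hK hL hL').2.symm
  · rcases lt_trichotomy M L with h2 | h2 | h2
    · have c1 := h.right M L S K (by omega) h2 hL' hK h1 (Or.inl (by omega))
      have c2 := (hlast M L hM h2 hL').1
      have c3 : (e L M)⁻¹ * (e L S)⁻¹ * e L M * e L S = 1 := by
        calc (e L M)⁻¹ * (e L S)⁻¹ * e L M * e L S = (e L M)⁻¹ * (e L S)⁻¹ * (e L M * e L S) := by group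
          _ = 1 := by
            rw [c2.eq]
            group
      rw [c3, one_mul, inv_one, mul_one] at c1
      exact (show Commute (e M S) (e L K) from mul_inv_eq_iff_eq_mul.1 c1).symm
    · subst h2
      exact (hlast K M hK hL hL').1
    · exact h.left L M K S (by omega) h2 hM' hL hK (Or.inl (by omega))
-- END BA6

-- MODULE BA7
/-- The group of the right pushes. -/
private def BA7_R (g n : ℕ) (e : ℕ → ℕ → G) (S : ℕ) : Subgroup G :=
  Subgroup.closure {x | ∃ L, S < L ∧ L < 2 * g + n ∧ x = e L S}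

private theorem BA7_lr {S : ℕ} (hF : Flat g n e S) :
    ∀ l ∈ Lf e S, ∀ r ∈ BA7_R g n e S, Commute l r := by
  intro l hl r hr
  unfold BA7_R at hr
  induction hr using Subgroup.closure_induction with
  | mem x hx =>
    obtain ⟨L, h1, h2, rfl⟩ := hx
    exact BA5_com (fun b hb => hF b L hb h1 h2) l hl
  | one => exact Commute.one_right _
  | mul x y _ _ hx hy => exact hx.mul_right hy
  | inv x _ hx => exact hx.inv_right

private theorem BA7_rr {S : ℕ} (hR : RC g n e S) :
    ∀ l ∈ BA7_R g n e S, ∀ r ∈ BA7_R g n e S, Commute l r := by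
  intro l hl r hr
  unfold BA7_R at hl hr
  induction hr using Subgroup.closure_induction with
  | mem x hx =>
    obtain ⟨L, h1, h2, rfl⟩ := hx
    induction hl using Subgroup.closure_induction with
    | mem y hy =>
      obtain ⟨M, h3, h4, rfl⟩ := hy
      exact hR M L h3 h4 h1 h2
    | one => exact Commute.one_left _
    | mul x y _ _ hx hy => exact hx.mul_left hy
    | inv x _ hx => exact hx.inv_left
  | one => exact Commute.one_right _
  | mul x y _ _ hx hy => exact hx.mul_right hy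
  | inv x _ hx => exact hx.inv_right

/-- CLASS TWO. PROOF. Let R = closure {e L S | L > S}. By Flat every element of Lf commutes with every element of R, R is commutative (RC). Nf = closure (gens of Lf ∪ gens of R), every element of Nf is a product l r, l ∈ Lf, r ∈ R (Subgroup.sup with commuting subgroups: closure_induction for the statement ∃ l ∈ Lf, ∃ r ∈ R, x = l r, or Subgroup.closure_union, mem_sup for
commuting ...). ⁅l r, l' r'⁆ = ⁅l, l'⁆, which commutes with Lf (C2) and with R. -/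
theorem class2 {S : ℕ} (hF : Flat g n e S) (hR : RC g n e S) (hC : C2 e S) :
    ∀ x ∈ Nf g n e S, ∀ y ∈ Nf g n e S, ∀ w ∈ Nf g n e S, Commute ⁅x, y⁆ w := by
  have hdec : ∀ x ∈ Nf g n e S, ∃ l ∈ Lf e S, ∃ r ∈ BA7_R g n e S, x = l * r := by
    intro x hx
    unfold Nf at hx
    induction hx using Subgroup.closure_induction with
    | mem x hx =>
      rcases hx with ⟨b, hb, rfl⟩ | ⟨L, h1, h2, rfl⟩
      · exact ⟨e S b, Subgroup.subset_closure ⟨b, hb, rfl⟩, 1, one_mem _, (mul_one _).symm⟩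
      · exact ⟨1, one_mem _, e L S, Subgroup.subset_closure ⟨L, h1, h2, rfl⟩, (one_mul _).symm⟩
    | one => exact ⟨1, one_mem _, 1, one_mem _, (mul_one _).symm⟩
    | mul x y _ _ hx hy =>
      obtain ⟨l, hl, r, hr, rfl⟩ := hx
      obtain ⟨l', hl', r', hr', rfl⟩ := hy
      refine ⟨l * l', mul_mem hl hl', r * r', mul_mem hr hr', ?_⟩
      have h1 := (BA7_lr hF l' hl' r hr).eq
      calc l * r * (l' * r') = l * (r * l') * r' := by group
        _ = _ := by
          rw [← h1]
          group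
    | inv x _ hx =>
      obtain ⟨l, hl, r, hr, rfl⟩ := hx
      refine ⟨l⁻¹, inv_mem hl, r⁻¹, inv_mem hr, ?_⟩
      rw [(BA7_lr hF l hl r hr).eq, mul_inv_rev]
  intro x hx y hy w hw
  obtain ⟨l, hl, r, hr, rfl⟩ := hdec x hx
  obtain ⟨l', hl', r', hr', rfl⟩ := hdec y hy
  obtain ⟨l'', hl'', r'', hr'', rfl⟩ := hdec w hw
  have h1 : ⁅l * r, l' * r'⁆ = ⁅l, l'⁆ := by
    rw [(BA7_lr hF l hl r hr).eq, (BA7_lr hF l' hl' r' hr').eq]
    exact BA4_cm (BA7_lr hF l hl r hr).symm (BA7_lr hF l' hl' r hr).symm (BA7_lr hF l hl r' hr').symm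
      (BA7_lr hF l' hl' r' hr').symm (BA7_rr hR r hr r' hr')
  rw [h1]
  have h2 : ⁅l, l'⁆ ∈ ⁅Lf e S, Lf e S⁆ := Subgroup.commutator_mem_commutator hl hl'
  exact (hC _ h2 _ hl'').mul_right (BA7_lr hF _ (BA5_le h2) _ hr'')
-- END BA7

-- MODULE BA8
private theorem BA8_ind {S : ℕ} (t : G)
    (hgen : ∀ x, (∃ b < S, x = e S b) ∨ (∃ M, S < M ∧ M < 2 * g + n ∧ x = e M S) →
      t * x * t⁻¹ ∈ Nf g n e S ∧ t⁻¹ * x * t ∈ Nf g n e S) :
    ∀ x ∈ Nf g n e S, t * x * t⁻¹ ∈ Nf g n e S ∧ t⁻¹ * x * t ∈ Nf g n e S := by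
  intro x hx
  unfold Nf at hx
  induction hx using Subgroup.closure_induction with
  | mem x hx => exact hgen x hx
  | one =>
    refine ⟨?_, ?_⟩
    · rw [mul_one, mul_inv_cancel]
      exact one_mem _
    · rw [mul_one, inv_mul_cancel]
      exact one_mem _
  | mul x y _ _ hx hy =>
    refine ⟨?_, ?_⟩
    · have h1 : t * (x * y) * t⁻¹ = (t * x * t⁻¹) * (t * y * t⁻¹) := by group
      rw [h1]
      exact mul_mem hx.1 hy.1
    · have h1 : t⁻¹ * (x * y) * t = (t⁻¹ * x * t) * (t⁻¹ * y * t) := by group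
      rw [h1]
      exact mul_mem hx.2 hy.2
  | inv x _ hx =>
    refine ⟨?_, ?_⟩
    · have h1 : t * x⁻¹ * t⁻¹ = (t * x * t⁻¹)⁻¹ := by group
      rw [h1]
      exact inv_mem hx.1
    · have h1 : t⁻¹ * x⁻¹ * t = (t⁻¹ * x * t)⁻¹ := by group
      rw [h1]
      exact inv_mem hx.2

/-- NORMALITY. PROOF. closure_induction on x ∈ Nf (conjugation is a homomorphism). For the generators: t = e L c. (I) L < S: e S b: h.nrm for (L, S) : both conjugates are in the closure of {e S c' | c' < S} ≤ Nf. e M S (M > S): far for (L, M), b := c, c := S: commute. (II) L = S: t ∈ Nf. (III) L > S, c < S: e S b: by BA3 e S b * t * (e S b)⁻¹ = t A^k,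
A = e L S, commuting with t (BA1) and with e S b (Flat): t * e S b * t⁻¹ = A^(-k) * e S b, t⁻¹ * e S b * t = A^k * e S b, in Nf. e M S: commutes with t (BA2). (IV) L > S, c = S: t is in Nf. (V) L > S, c > S: e S b commutes with t (far), e M S commutes with t (BA6 with K := c). -/
theorem nf_normal (h : PSys g n e) {S L c : ℕ} (hS : 2 * g ≤ S) (hS' : S < 2 * g + n)
    (hF : Flat g n e S) (hR : RC g n e S) (hL : 2 * g ≤ L) (hL' : L < 2 * g + n) (hc : c < L) :
    ∀ x ∈ Nf g n e S, e L c * x * (e L c)⁻¹ ∈ Nf g n e S ∧ (e L c)⁻¹ * x * e L c ∈ Nf g n e S := by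
  have hcomm : ∀ x ∈ Nf g n e S, Commute (e L c) x →
      e L c * x * (e L c)⁻¹ ∈ Nf g n e S ∧ (e L c)⁻¹ * x * e L c ∈ Nf g n e S := by
    intro x hx hcx
    refine ⟨?_, ?_⟩
    · rw [hcx.eq, mul_inv_cancel_right]
      exact hx
    · rw [mul_assoc, ← hcx.eq, inv_mul_cancel_left]
      exact hx
  have hin : e L c ∈ Nf g n e S → ∀ x ∈ Nf g n e S,
      e L c * x * (e L c)⁻¹ ∈ Nf g n e S ∧ (e L c)⁻¹ * x * e L c ∈ Nf g n e S := by
    intro ht x hx
    exact ⟨mul_mem (mul_mem ht hx) (inv_mem ht), mul_mem (mul_mem (inv_mem ht) hx) ht⟩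
  have hlf : ∀ b, b < S → e S b ∈ Nf g n e S := fun b hb =>
    Subgroup.subset_closure (Or.inl ⟨b, hb, rfl⟩)
  have hrf : ∀ M, S < M → M < 2 * g + n → e M S ∈ Nf g n e S := fun M h1 h2 =>
    Subgroup.subset_closure (Or.inr ⟨M, h1, h2, rfl⟩)
  have hLN : Subgroup.closure {x | ∃ c' < S, x = e S c'} ≤ Nf g n e S := by
    rw [Subgroup.closure_le]
    rintro x ⟨b, hb, rfl⟩
    exact hlf b hb
  have hgen : ∀ x, (∃ b < S, x = e S b) ∨ (∃ M, S < M ∧ M < 2 * g + n ∧ x = e M S) →
      e L c * x * (e L c)⁻¹ ∈ Nf g n e S ∧ (e L c)⁻¹ * x * e L c ∈ Nf g n e S := by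
    intro x hx
    rcases lt_trichotomy L S with h1 | h1 | h1
    · rcases hx with ⟨b, hb, rfl⟩ | ⟨M, hM, hM', rfl⟩
      · obtain ⟨h2, h3⟩ := h.nrm L S c b hL h1 hS' hc hb
        exact ⟨hLN h2, hLN h3⟩
      · exact hcomm _ (hrf M hM hM') (h.far L M c S hL (by omega) hM' hc h1 hM)
    · subst h1
      refine hin (hlf c hc) x ?_
      rcases hx with ⟨b, hb, rfl⟩ | ⟨M, hM, hM', rfl⟩
      · exact hlf b hb
      · exact hrf M hM hM'
    · rcases lt_trichotomy c S with h2 | h2 | h2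
      · rcases hx with ⟨b, hb, rfl⟩ | ⟨M, hM, hM', rfl⟩
        · obtain ⟨k, hk⟩ := flat2 h hS hF hb h2 h1 hL'
          have hAt : Commute (e L S) (e L c) := flat0 h hS hF h2 h1 hL'
          have hAs : Commute (e S b) (e L S) := hF b L hb h1 hL'
          have h3 : e S b * e L c = e L c * e L S ^ k * e S b := mul_inv_eq_iff_eq_mul.1 hk
          have h4 : (e L c)⁻¹ * e S b * e L c = e L S ^ k * e S b := by
            rw [mul_assoc, h3]
            group
          have h5 : e L c * e S b * (e L c)⁻¹ = e L S ^ (-k) * e S b := by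
            have h6 : e S b = e L S ^ k * (e L c * e S b * (e L c)⁻¹) := by
              calc e S b = e L c * ((e L c)⁻¹ * e S b * e L c) * (e L c)⁻¹ := by group
                _ = (e L c * e L S ^ k) * e S b * (e L c)⁻¹ := by
                  rw [h4]
                  group
                _ = (e L S ^ k * e L c) * e S b * (e L c)⁻¹ := by rw [(hAt.zpow_left k).eq]
                _ = _ := by group
            calc e L c * e S b * (e L c)⁻¹ = e L S ^ (-k) * (e L S ^ k * (e L c * e S b * (e L c)⁻¹)) := by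
                  group
              _ = _ := by rw [← h6]
          rw [h4, h5]
          exact ⟨mul_mem (Subgroup.zpow_mem _ (hrf L h1 hL') _) (hlf b hb),
            mul_mem (Subgroup.zpow_mem _ (hrf L h1 hL') _) (hlf b hb)⟩
        · exact hcomm _ (hrf M hM hM') (flat1 h hS hF h2 h1 hL' hM hM')
      · subst h2
        refine hin (hrf L h1 hL') x ?_
        rcases hx with ⟨b, hb, rfl⟩ | ⟨M, hM, hM', rfl⟩
        · exact hlf b hb
        · exact hrf M hM hM'
      · rcases hx with ⟨b, hb, rfl⟩ | ⟨M, hM, hM', rfl⟩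
        · exact hcomm _ (hlf b hb) (h.far S L b c hS h1 hL' hb h2 hc).symm
        · exact hcomm _ (hrf M hM hM') (rc1 h hS hR h2 hc hL' hM hM')
  exact BA8_ind (e L c) hgen
-- END BA8

-- MODULE BA9
/-- PROOF. closure_induction; generators e S b: TSys.nrm and Lf ≤ Nf; e L S: commutes with t (TSys.com). -/
theorem nf_normal_t {t : G} (h : TSys g n e t) {S : ℕ} (hS : 2 * g ≤ S) (hS' : S < 2 * g + n) :
    ∀ x ∈ Nf g n e S, t * x * t⁻¹ ∈ Nf g n e S ∧ t⁻¹ * x * t ∈ Nf g n e S := by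
  refine BA8_ind t ?_
  have hLN : Subgroup.closure {x | ∃ c' < S, x = e S c'} ≤ Nf g n e S := by
    rw [Subgroup.closure_le]
    rintro x ⟨b, hb, rfl⟩
    exact Subgroup.subset_closure (Or.inl ⟨b, hb, rfl⟩)
  rintro x (⟨b, hb, rfl⟩ | ⟨M, hM, hM', rfl⟩)
  · obtain ⟨h1, h2⟩ := h.nrm S b hS hS' hb
    exact ⟨hLN h1, hLN h2⟩
  · have h1 := h.com S M hS hM hM'
    have h2 : e M S ∈ Nf g n e S := Subgroup.subset_closure (Or.inr ⟨M, hM, hM', rfl⟩)
    refine ⟨?_, ?_⟩
    · rw [h1.eq, mul_inv_cancel_right]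
      exact h2
    · rw [mul_assoc, ← h1.eq, inv_mul_cancel_left]
      exact h2
-- END BA9

section bounds

open Module Pool.Agent.PB3

variable {V : Type*} [AddCommGroup V] [Module ℂ V] [FiniteDimensional ℂ V] [Nontrivial V]

-- MODULE BB1
/-- PROOF. chain_equiv (PB3.Stab) with ι = T (elements of a finite set of natural numbers, linearly ordered), x S = τ (e S b_S), y S = τ (e L_S S) for a pair b_S, L_S with ¬ Commute (choose; τ injective: Commute (τ x) (τ y) → Commute x y). For S' < S: far for (S', L_S), b := b_(S'), c := S: Commute (e S' b) (e L_S S). -/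
theorem card_flat (h : PSys g n e) (τ : G →* (V ≃ₗ[ℂ] V)) (hτ : Function.Injective τ)
    (T : Finset ℕ) (hT : ∀ S ∈ T, 2 * g ≤ S ∧ S < 2 * g + n ∧ ¬ Flat g n e S) :
    T.card + 2 ≤ 2 * finrank ℂ V := by
  classical
  have hch : ∀ S : T, ∃ b L, b < S.1 ∧ S.1 < L ∧ L < 2 * g + n ∧ ¬ Commute (e S.1 b) (e L S.1) := by
    intro S
    have h1 := (hT S.1 S.2).2.2
    unfold Flat at h1
    push Not at h1
    obtain ⟨b, L, h2, h3, h4, h5⟩ := h1
    exact ⟨b, L, h2, h3, h4, h5⟩
  choose b L hb hL hL' hc using hch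
  have hinj : ∀ {x y : G}, ¬ Commute x y → ¬ Commute (τ x) (τ y) := by
    intro x y hxy hcon
    apply hxy
    apply hτ
    rw [map_mul, map_mul]
    exact hcon.eq
  have := chain_equiv (ι := T) (fun S => τ (e S.1 (b S))) (fun S => τ (e (L S) S.1))
    (fun S => hinj (hc S)) (by
      intro S' S hlt
      have hlt' : S'.1 < S.1 := hlt
      exact (h.far S'.1 (L S) (b S') S.1 (hT S'.1 S'.2).1 (hlt'.trans (hL S)) (hL' S) (hb S') hlt'
        (hL S)).map τ)
  rwa [Fintype.card_coe] at this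
-- END BB1

-- MODULE BB2
/-- PROOF. commuting_bound (PB3.Stab) with ι = T, x S = τ (e L_S S), y S = τ (e M_S S), not commuting. For S' ≠ S in T, any L' > S', M > S: Commute (e L' S') (e M S): say S' < S (else symmetric): L' < S: far for (L', M), b := S', c := S. L' = S: Flat S with b := S', L := M. L' > S: BA2 for S with b := S', L := L', M. -/
theorem card_rc (h : PSys g n e) (τ : G →* (V ≃ₗ[ℂ] V)) (hτ : Function.Injective τ)
    (T : Finset ℕ) (hT : ∀ S ∈ T, 2 * g ≤ S ∧ S < 2 * g + n ∧ Flat g n e S ∧ ¬ RC g n e S) :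
    T.card + 1 ≤ finrank ℂ V := by
  classical
  have hch : ∀ S : T, ∃ L M, S.1 < L ∧ L < 2 * g + n ∧ S.1 < M ∧ M < 2 * g + n ∧
      ¬ Commute (e L S.1) (e M S.1) := by
    intro S
    have h1 := (hT S.1 S.2).2.2.2
    unfold RC at h1
    push Not at h1
    exact h1
  choose L M hL hL' hM hM' hc using hch
  have hinj : ∀ {x y : G}, ¬ Commute x y → ¬ Commute (τ x) (τ y) := by
    intro x y hxy hcon
    apply hxy
    apply hτ
    rw [map_mul, map_mul]
    exact hcon.eq
  have key : ∀ S' S : T, S'.1 < S.1 → ∀ L' M', S'.1 < L' → L' < 2 * g + n → S.1 < M' →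
      M' < 2 * g + n → Commute (e L' S'.1) (e M' S.1) := by
    intro S' S hlt L' M' h1 h2 h3 h4
    obtain ⟨s1, s2, s3, s4⟩ := hT S.1 S.2
    obtain ⟨t1, t2, t3, t4⟩ := hT S'.1 S'.2
    rcases lt_trichotomy L' S.1 with h5 | h5 | h5
    · exact h.far L' M' S'.1 S.1 (by omega) (by omega) h4 h1 h5 h3
    · rw [h5]
      exact s3 S'.1 M' hlt h3 h4
    · exact flat1 h s1 s3 hlt h5 h2 h3 h4
  have key2 : ∀ S' S : T, S' ≠ S → ∀ L' M', S'.1 < L' → L' < 2 * g + n → S.1 < M' →
      M' < 2 * g + n → Commute (τ (e L' S'.1)) (τ (e M' S.1)) := by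
    intro S' S hne L' M' h1 h2 h3 h4
    rcases lt_or_gt_of_ne (fun h' => hne (Subtype.ext h') : S'.1 ≠ S.1) with h5 | h5
    · exact (key S' S h5 L' M' h1 h2 h3 h4).map τ
    · exact ((key S S' h5 M' L' h3 h4 h1 h2).map τ).symm
  have := commuting_bound (ι := T) (fun S => τ (e (L S) S.1)) (fun S => τ (e (M S) S.1))
    (fun S => hinj (hc S))
    (fun S' S hne => key2 S' S hne _ _ (hL S') (hL' S') (hL S) (hL' S))
    (fun S' S hne => key2 S' S hne _ _ (hL S') (hL' S') (hM S) (hM' S))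
  rwa [Fintype.card_coe] at this
-- END BB2

-- MODULE BB3
/-- PROOF. chain_equiv with x S = τ p_S, y S = τ q_S, p_S ∈ ⁅Lf e S, Lf e S⁆, q_S ∈ Lf e S not commuting. For S' < S: Commute p_(S') q_S by BA5 (L := S). -/
theorem card_c2 (h : PSys g n e) (τ : G →* (V ≃ₗ[ℂ] V)) (hτ : Function.Injective τ)
    (T : Finset ℕ) (hT : ∀ S ∈ T, 2 * g ≤ S ∧ S < 2 * g + n ∧ Flat g n e S ∧ ¬ C2 e S) :
    T.card + 2 ≤ 2 * finrank ℂ V := by
  classical
  have hch : ∀ S : T, ∃ p q, p ∈ ⁅Lf e S.1, Lf e S.1⁆ ∧ q ∈ Lf e S.1 ∧ ¬ Commute p q := by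
    intro S
    have h1 := (hT S.1 S.2).2.2.2
    unfold C2 at h1
    push Not at h1
    obtain ⟨p, hp, q, hq, hc⟩ := h1
    exact ⟨p, q, hp, hq, hc⟩
  choose p q hp hq hc using hch
  have hinj : ∀ {x y : G}, ¬ Commute x y → ¬ Commute (τ x) (τ y) := by
    intro x y hxy hcon
    apply hxy
    apply hτ
    rw [map_mul, map_mul]
    exact hcon.eq
  have := chain_equiv (ι := T) (fun S => τ (p S)) (fun S => τ (q S))
    (fun S => hinj (hc S)) (by
      intro S' S hlt
      have hlt' : S'.1 < S.1 := hlt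
      obtain ⟨t1, t2, t3, t4⟩ := hT S'.1 S'.2
      exact (flat4 h t1 t3 hlt' (hT S.1 S.2).2.1 (p S') (hp S') (q S) (hq S)).map τ)
  rwa [Fintype.card_coe] at this
-- END BB3

-- MODULE BB4
/-- THE BOUND. PROOF. Let T (over ℕ, Finset.filter of Finset.range (2g+n)) be the punctures which are not flat, or flat and not RC, or flat and not C2: card ≤ (2r-2) + (r-1) + (2r-2) = 5(r-1); take the preimage in Fin n under s ↦ 2g + s (injective: Finset.card_le_card_of_injOn). -/
theorem card_bad (h : PSys g n e) (τ : G →* (V ≃ₗ[ℂ] V)) (hτ : Function.Injective τ) :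
    ∃ T : Finset (Fin n), T.card ≤ 5 * (finrank ℂ V - 1) ∧ ∀ s : Fin n, s ∉ T →
      Flat g n e (2 * g + s) ∧ RC g n e (2 * g + s) ∧ C2 e (2 * g + s) := by
  classical
  set B : Finset ℕ := (Finset.range (2 * g + n)).filter (fun S => 2 * g ≤ S) with hB
  have hBm : ∀ S, S ∈ B ↔ 2 * g ≤ S ∧ S < 2 * g + n := by
    intro S
    rw [hB, Finset.mem_filter, Finset.mem_range]
    tauto
  set T1 := B.filter (fun S => ¬ Flat g n e S) with hT1
  set T2 := B.filter (fun S => Flat g n e S ∧ ¬ RC g n e S) with hT2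
  set T3 := B.filter (fun S => Flat g n e S ∧ ¬ C2 e S) with hT3
  have h1 := card_flat h τ hτ T1 (by
    intro S hS
    rw [hT1, Finset.mem_filter, hBm] at hS
    exact ⟨hS.1.1, hS.1.2, hS.2⟩)
  have h2 := card_rc h τ hτ T2 (by
    intro S hS
    rw [hT2, Finset.mem_filter, hBm] at hS
    exact ⟨hS.1.1, hS.1.2, hS.2⟩)
  have h3 := card_c2 h τ hτ T3 (by
    intro S hS
    rw [hT3, Finset.mem_filter, hBm] at hS
    exact ⟨hS.1.1, hS.1.2, hS.2⟩)
  refine ⟨Finset.univ.filter (fun s : Fin n => 2 * g + (s : ℕ) ∈ T1 ∪ T2 ∪ T3), ?_, ?_⟩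
  · have h4 : (Finset.univ.filter (fun s : Fin n => 2 * g + (s : ℕ) ∈ T1 ∪ T2 ∪ T3)).card ≤
        (T1 ∪ T2 ∪ T3).card := by
      refine Finset.card_le_card_of_injOn (fun s : Fin n => 2 * g + (s : ℕ)) ?_ ?_
      · intro s hs
        exact (Finset.mem_filter.1 hs).2
      · intro s _ s' _ hss
        apply Fin.ext
        have h5 : 2 * g + (s : ℕ) = 2 * g + (s' : ℕ) := hss
        omega
    have h5 := Finset.card_union_le (T1 ∪ T2) T3
    have h6 := Finset.card_union_le T1 T2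
    omega
  · intro s hs
    have hs1 : 2 * g + (s : ℕ) ∉ T1 ∪ T2 ∪ T3 := fun h' =>
      hs (Finset.mem_filter.2 ⟨Finset.mem_univ _, h'⟩)
    have hsB : 2 * g + (s : ℕ) ∈ B := (hBm _).2 ⟨by omega, by have := s.2; omega⟩
    have hF : Flat g n e (2 * g + s) := by
      by_contra hcon
      exact hs1 (Finset.mem_union_left _ (Finset.mem_union_left _ (Finset.mem_filter.2 ⟨hsB, hcon⟩)))
    refine ⟨hF, ?_, ?_⟩
    · by_contra hcon
      exact hs1 (Finset.mem_union_left _ (Finset.mem_union_right _ (Finset.mem_filter.2 ⟨hsB, hF, hcon⟩)))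
    · by_contra hcon
      exact hs1 (Finset.mem_union_right _ (Finset.mem_filter.2 ⟨hsB, hF, hcon⟩))
-- END BB4

end bounds

end Pool.Agent.EG14
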