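import Pool.Agent.HG13.Defs

set_option linter.all false

/-!
# Mapping class groups of every genus and forgetful homomorphisms: the definitions
-/

namespace Pool.Agent.EG14

open Pool.Agent.HG13

variable {g m n : ℕ}

/-- The pure mapping class group of the surface of genus `g` with `n` punctures and one boundary
component, as a group of automorphisms of the fundamental group: it is generated by Dehn twists. -/
abbrev MCG (g n : ℕ) : Subgroup (MulAut (Fr g n)) := Subgroup.closure (twists g n)

open Classical in
/-- The map which fills in the punctures outside of the image of `e`: `x_i ↦ x_i`, `y_i ↦ y_i`,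
`z_(e j) ↦ z_j`, the other `z_k ↦ 1`. -/
noncomputable def fgt (g : ℕ) (e : Fin m ↪o Fin n) : Fr g n →* Fr g m :=
  FreeGroup.lift fun c : Fin (2 * g + n) =>
    if (c : ℕ) < 2 * g then gen (c : ℕ)
    else if h : ∃ j : Fin m, 2 * g + (e j : ℕ) = c then gen (2 * g + (h.choose : ℕ)) else 1

/-- `F` forgets the punctures outside of the image of `e`. -/
def IsForgetful (e : Fin m ↪o Fin n) (F : MCG g n →* MCG g m) : Prop :=
  ∀ (γ : MCG g n) (w : Fr g n),
    (F γ : MulAut (Fr g m)) (fgt g e w) = fgt g e ((γ : MulAut (Fr g n)) w)

end Pool.Agent.EG14
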