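import Mathlib

set_option linter.all false

/-!
# Normal subgroups of class two of an irreducible linear group (EVERY GENUS)
-/

namespace Pool.Agent.EG14

open scoped commutatorElement

open Module

-- MODULE CA1
/-- A finitely generated group of class two, generated by elements of finite order, is finite. PROOF. N = closure S. Let C = ⁅N, N⁆ (commutator subgroup of N as a group, i.e. work in the type ↥(closure S) : Group, generated by a finite set of torsion elements). N/C (Abelianization) is a finitely generated commutative torsion group (closure of the images: a product of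
torsion elements in a commutative group is torsion; CommGroup.finite_of_fg_torsion), so finite; hence C has finite index, N is f.g., so C is f.g. (Schreier: Subgroup.fg_of_index_ne_zero). C is central (hc), and torsion: in class two, [x,y]^m = [x^m,y], so commutators of generators.. more simply: for fixed y the map x ↦ ⁅x,y⁆ is a homomorphism N → C (class two), so ⁅x,y⁆ has finite
order when x is a torsion generator, and then for all x in the closure (C commutative), C is generated by commutators: torsion. So C is finite (CommGroup.finite_of_fg_torsion), and N is finite (finite kernel and finite quotient). -/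
theorem finite_closure {G : Type*} [Group G] (S : Set G) (hS : S.Finite)
    (ht : ∀ x ∈ S, IsOfFinOrder x)
    (hc : ∀ x ∈ Subgroup.closure S, ∀ y ∈ Subgroup.closure S, ∀ w ∈ Subgroup.closure S,
      Commute ⁅x, y⁆ w) : (Subgroup.closure S : Set G).Finite := by
  classical
  set N := Subgroup.closure S with hN
  -- generators in N
  let T : Set N := {x | (x : G) ∈ S}
  have hT : Subgroup.closure T = ⊤ := by
    have := Subgroup.closure_closure_coe_preimage (k := S)
    exact this
  have hTf : T.Finite := hS.preimage (Subtype.val_injective.injOn)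
  have hTt : ∀ x ∈ T, IsOfFinOrder x := by
    intro x hx
    exact Submonoid.isOfFinOrder_coe.1 (ht x hx)
  have hfg : Group.FG N := ⟨⟨hTf.toFinset, by simpa using hT⟩⟩
  have hc' : ∀ x y w : N, Commute ⁅x, y⁆ w := by
    intro x y w
    have := hc x x.2 y y.2 w w.2
    exact Subtype.ext this.eq
  -- abelianization is finite
  have hsurj : Function.Surjective (Abelianization.of (G := N)) := QuotientGroup.mk_surjective
  have hab : Finite (Abelianization N) := by
    have h1 : Group.FG (Abelianization N) := 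
      Group.fg_of_surjective (f := Abelianization.of) hsurj
    apply CommGroup.finite_of_fg_torsion
    intro a
    obtain ⟨x, rfl⟩ := hsurj a
    have hx : x ∈ Subgroup.closure T := by rw [hT]; trivial
    induction hx using Subgroup.closure_induction with
    | mem x hx => exact MonoidHom.isOfFinOrder _ (hTt x hx)
    | one => simp
    | mul x y _ _ h1 h2 => rw [map_mul]; exact h1.mul h2
    | inv x _ h => rw [map_inv]; exact h.inv
  have hq : Finite (N ⧸ commutator N) := hab
  have hfi : (commutator N).FiniteIndex := Subgroup.finiteIndex_of_finite_quotient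
  have hCfg : Group.FG (commutator N) := Subgroup.fg_of_index_ne_zero (commutator N)
  -- commutator N is central
  have hcen : commutator N ≤ Subgroup.center N := by
    rw [commutator_def, Subgroup.commutator_le]
    intro x _ y _
    rw [Subgroup.mem_center_iff]
    intro w
    exact (hc' x y w).eq.symm
  -- commutators have finite order
  have hcom : ∀ x y : N, IsOfFinOrder ⁅x, y⁆ := by
    intro x y
    have hx : x ∈ Subgroup.closure T := by rw [hT]; trivial
    have hmul : ∀ a b : N, ⁅a * b, y⁆ = ⁅a, y⁆ * ⁅b, y⁆ := by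
      intro a b
      have h := (hc' b y a).eq
      have h2 := (hc' b y (y * a⁻¹ * y⁻¹)).eq
      rw [commutatorElement_def] at h ⊢
      calc a * b * y * (a * b)⁻¹ * y⁻¹ = a * (b * y * b⁻¹ * y⁻¹) * (y * a⁻¹ * y⁻¹) := by group
        _ = (b * y * b⁻¹ * y⁻¹) * a * (y * a⁻¹ * y⁻¹) := by rw [h]
        _ = ⁅b, y⁆ * ⁅a, y⁆ := by simp only [commutatorElement_def]; group
        _ = ⁅a, y⁆ * ⁅b, y⁆ := (hc' b y _).eq
    let F : N →* N := MonoidHom.mk' (fun a => ⁅a, y⁆) hmul
    have hF : ∀ a, F a = ⁅a, y⁆ := fun a => rfl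
    rw [← hF]
    induction hx using Subgroup.closure_induction with
    | mem x hx => exact MonoidHom.isOfFinOrder _ (hTt x hx)
    | one => simp
    | mul a b _ _ h1 h2 => 
      rw [map_mul]
      exact Commute.isOfFinOrder_mul (hc' a y _) h1 h2
    | inv x _ h => rw [map_inv]; exact h.inv
  have hctor : ∀ z ∈ commutator N, IsOfFinOrder z := by
    intro z hz
    rw [commutator_eq_closure] at hz
    have : z ∈ Subgroup.center N ∧ IsOfFinOrder z := by
      induction hz using Subgroup.closure_induction with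
      | mem z hz => 
        refine ⟨hcen ?_, ?_⟩
        · rw [commutator_eq_closure]; exact Subgroup.subset_closure hz
        · obtain ⟨a, b, rfl⟩ := hz; exact hcom a b
      | one => exact ⟨Subgroup.one_mem _, by simp⟩
      | mul a b _ _ h1 h2 => 
        refine ⟨Subgroup.mul_mem _ h1.1 h2.1, ?_⟩
        refine Commute.isOfFinOrder_mul ?_ h1.2 h2.2
        exact (Subgroup.mem_center_iff.1 h2.1 a)
      | inv x _ h => exact ⟨Subgroup.inv_mem _ h.1, h.2.inv⟩
    exact this.2
  have hCfin : Finite (commutator N) := by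
    letI : CommGroup (commutator N) := 
      { (inferInstance : Group (commutator N)) with
        mul_comm := fun a b => Subtype.ext (Subgroup.mem_center_iff.1 (hcen b.2) a) }
    apply CommGroup.finite_of_fg_torsion
    intro z
    exact Submonoid.isOfFinOrder_coe.1 (hctor z z.2)
  have hNfin : Finite N := by
    exact Finite.of_subgroup_quotient (commutator N)
  exact Set.toFinite _
-- END CA1

-- MODULE CA2
/-- The supremum of finitely many finite normal subgroups is finite. PROOF. Induction on the finite index type / Finset.sup: for two: A ⊔ B = A * B as sets (Subgroup.mul_normal), finite (Set.Finite.mul); A ⊔ B is normal. -/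
theorem finite_iSup {G : Type*} [Group G] {ι : Type*} [Finite ι] (N : ι → Subgroup G)
    (hN : ∀ i, (N i).Normal) (hf : ∀ i, (N i : Set G).Finite) :
    ((⨆ i, N i : Subgroup G) : Set G).Finite := by
  classical
  cases nonempty_fintype ι
  have key : ∀ s : Finset ι, (s.sup N).Normal ∧ ((s.sup N : Subgroup G) : Set G).Finite := by
    intro s
    induction s using Finset.induction_on with
    | empty => 
      simp only [Finset.sup_empty]
      exact ⟨inferInstance, by simp⟩
    | insert a s ha ih =>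
      rw [Finset.sup_insert]
      obtain ⟨h1, h2⟩ := ih
      have := hN a
      refine ⟨Subgroup.sup_normal _ _, ?_⟩
      rw [Subgroup.mul_normal]
      exact (hf a).mul h2
  have h := (key Finset.univ).2
  rwa [Finset.sup_univ_eq_iSup] at h
-- END CA2

variable {V : Type*} [AddCommGroup V] [Module ℂ V] [FiniteDimensional ℂ V]

variable {G : Type*} [Group G]

-- MODULE CB1
/-- The joint eigenvectors of the centre of N span V. PROOF. Z = {z ∈ N | z commutes with N}. W = the span. W is G-stable: if v is a joint eigenvector then so is τ g v: z (g v) = g (g⁻¹ z g) v and g⁻¹ z g ∈ Z (N is normal; for x ∈ N: g x g⁻¹ ∈ N commutes with z). So W = ⊥ or ⊤. If V is trivial (subsingleton): ⊥ = ⊤. Otherwise W ≠ ⊥: there is a joint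
eigenvector: let U ≠ ⊥ be a submodule stable under all τ z, z ∈ Z, of minimal dimension (exists: ⊤; well founded / Nat.find); for z ∈ Z the restriction of τ z to U has an eigenvalue c (Module.End.exists_eigenvalue), U ⊓ ker (τ z - c) is stable under Z (Z is commutative) and ≠ ⊥, so it is U: τ z = c on U. Take v ∈ U, v ≠ 0. -/
theorem joint_span (τ : G →* (V ≃ₗ[ℂ] V))
    (hirr : ∀ W : Submodule ℂ V, (∀ x, ∀ w ∈ W, τ x w ∈ W) → W = ⊥ ∨ W = ⊤)
    (N : Subgroup G) (hN : N.Normal) :
    Submodule.span ℂ {v : V | ∀ z ∈ N, (∀ x ∈ N, Commute z x) → ∃ c : ℂ, τ z v = c • v} = ⊤ := by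
  classical
  set E : Set V := {v : V | ∀ z ∈ N, (∀ x ∈ N, Commute z x) → ∃ c : ℂ, τ z v = c • v} with hE
  have hstab : ∀ g : G, ∀ v ∈ E, τ g v ∈ E := by
    intro g v hv z hz hzc
    have h1 : g⁻¹ * z * g ∈ N := by
      have := hN.conj_mem z hz g⁻¹
      simpa using this
    have h2 : ∀ x ∈ N, Commute (g⁻¹ * z * g) x := by
      intro x hx
      have h3 := hzc (g * x * g⁻¹) (hN.conj_mem x hx g)
      have h4 : z * (g * x * g⁻¹) = (g * x * g⁻¹) * z := h3.eq
      show g⁻¹ * z * g * x = x * (g⁻¹ * z * g)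
      calc g⁻¹ * z * g * x = g⁻¹ * (z * (g * x * g⁻¹)) * g := by group
        _ = g⁻¹ * ((g * x * g⁻¹) * z) * g := by rw [h4]
        _ = x * (g⁻¹ * z * g) := by group
    obtain ⟨c, hc⟩ := hv _ h1 h2
    refine ⟨c, ?_⟩
    have h5 : τ z (τ g v) = τ g (τ (g⁻¹ * z * g) v) := by
      rw [← LinearEquiv.mul_apply, ← LinearEquiv.mul_apply, ← map_mul, ← map_mul]
      congr 2
      group
    rw [h5, hc, map_smul]
  have hW : ∀ x, ∀ w ∈ Submodule.span ℂ E, τ x w ∈ Submodule.span ℂ E := by
    intro x w hw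
    have : Submodule.span ℂ E ≤ (Submodule.span ℂ E).comap (τ x).toLinearMap := by
      rw [Submodule.span_le]
      intro v hv
      exact Submodule.subset_span (hstab x v hv)
    exact this hw
  rcases hirr _ hW with h | h
  · -- V must be trivial
    by_contra hne
    have hVn : Nontrivial V := by
      by_contra hn
      rw [not_nontrivial_iff_subsingleton] at hn
      exact hne (Subsingleton.elim _ _)
    -- minimal dimension
    have hex : ∃ d : ℕ, ∃ U : Submodule ℂ V, U ≠ ⊥ ∧ 
        (∀ z ∈ N, (∀ x ∈ N, Commute z x) → ∀ u ∈ U, τ z u ∈ U) ∧ finrank ℂ U = d :=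
      ⟨_, ⊤, by simp, by intros; trivial, rfl⟩
    obtain ⟨U, hU1, hU2, hU3⟩ := Nat.find_spec hex
    have hmin : ∀ U' : Submodule ℂ V, U' ≠ ⊥ → 
        (∀ z ∈ N, (∀ x ∈ N, Commute z x) → ∀ u ∈ U', τ z u ∈ U') → finrank ℂ U ≤ finrank ℂ U' := by
      intro U' h1 h2
      rw [hU3]
      exact Nat.find_min' hex ⟨U', h1, h2, rfl⟩
    obtain ⟨v, hvU, hv0⟩ := Submodule.exists_mem_ne_zero_of_ne_bot hU1
    have hvE : v ∈ E := by
      intro z hz hzc
      let f : V →ₗ[ℂ] V := (τ z).toLinearMap
      have hfU : ∀ u ∈ U, f u ∈ U := hU2 z hz hzc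
      let fU : Module.End ℂ U := f.restrict hfU
      have : Nontrivial U := by
        rw [Submodule.nontrivial_iff_ne_bot]; exact hU1
      obtain ⟨c, hc⟩ := Module.End.exists_eigenvalue fU
      obtain ⟨u, hu⟩ := hc.exists_hasEigenvector
      have hu1 : f (u : V) = c • (u : V) := by
        have := hu.apply_eq_smul
        have := congrArg Subtype.val this
        simpa [fU] using this
      have hu0 : (u : V) ≠ 0 := by
        intro h0
        exact hu.2 (Subtype.ext h0)
      let U' : Submodule ℂ V := U ⊓ LinearMap.ker (f - c • LinearMap.id)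
      have hU'mem : ∀ w, w ∈ U' ↔ w ∈ U ∧ f w = c • w := by
        intro w
        simp [U', sub_eq_zero]
      have hU'1 : U' ≠ ⊥ := by
        intro h0
        have : (u : V) ∈ U' := (hU'mem _).2 ⟨u.2, hu1⟩
        rw [h0] at this
        exact hu0 (by simpa using this)
      have hU'2 : ∀ z ∈ N, (∀ x ∈ N, Commute z x) → ∀ u ∈ U', τ z u ∈ U' := by
        intro z' hz' hz'c w hw
        rw [hU'mem] at hw ⊢
        refine ⟨hU2 z' hz' hz'c w hw.1, ?_⟩
        have h6 : f (τ z' w) = τ z' (f w) := by
          show τ z (τ z' w) = τ z' (τ z w)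
          rw [← LinearEquiv.mul_apply, ← LinearEquiv.mul_apply, ← map_mul, ← map_mul,
            (hzc z' hz').eq]
        rw [h6, hw.2, map_smul]
      have hle := hmin U' hU'1 hU'2
      have hUU : U' = U := Submodule.eq_of_le_of_finrank_le inf_le_left hle
      have : v ∈ U' := by rw [hUU]; exact hvU
      exact ⟨c, ((hU'mem v).1 this).2⟩
    have : v ∈ Submodule.span ℂ E := Submodule.subset_span hvE
    rw [h] at this
    exact hv0 (by simpa using this)
  · exact h
-- END CB1

-- MODULE CB2
private theorem CB2_ext (τ : G →* (V ≃ₗ[ℂ] V)) (hτ : Function.Injective τ)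
    (hirr : ∀ W : Submodule ℂ V, (∀ x, ∀ w ∈ W, τ x w ∈ W) → W = ⊥ ∨ W = ⊤)
    (N : Subgroup G) (hN : N.Normal) (p : G)
    (hp : ∀ v : V, v ≠ 0 → (∀ z ∈ N, (∀ x ∈ N, Commute z x) → ∃ c : ℂ, τ z v = c • v) → τ p v = v) :
    p = 1 := by
  apply hτ
  rw [map_one]
  apply LinearEquiv.toLinearMap_injective
  apply LinearMap.ext_on (joint_span τ hirr N hN)
  intro v hv
  by_cases h0 : v = 0
  · subst h0; simp
  · exact hp v h0 hv

/-- COMMUTATORS HAVE FINITE ORDER. PROOF. c = ⁅x,y⁆ ∈ N commutes with N (hc). It is enough (τ injective, CB1: a linear map which is 1 on a spanning set is 1) to show τ c ^ r! v = v for a joint eigenvector v ≠ 0. Let λ z be its eigenvalue for z ∈ Z (central elements), U = {u | ∀ z ∈ N central, τ z u = λ z u} (v ∈ U): U is stable under N (N commutes with z),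
d = finrank U, 1 ≤ d ≤ r. τ c restricted to U is the scalar λ c, and it is the commutator of the restrictions of τ x, τ y to U (linear automorphisms), so det = 1: (λ c)^d = 1, so (λ c)^(r!) = 1 (d ∣ r!, Nat.dvd_factorial). -/
theorem comm_pow (τ : G →* (V ≃ₗ[ℂ] V)) (hτ : Function.Injective τ)
    (hirr : ∀ W : Submodule ℂ V, (∀ x, ∀ w ∈ W, τ x w ∈ W) → W = ⊥ ∨ W = ⊤)
    (N : Subgroup G) (hN : N.Normal)
    (hc : ∀ x ∈ N, ∀ y ∈ N, ∀ w ∈ N, Commute ⁅x, y⁆ w) (x y : G) (hx : x ∈ N) (hy : y ∈ N) :
    ⁅x, y⁆ ^ (finrank ℂ V).factorial = 1 := by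
  classical
  have hcN : ⁅x, y⁆ ∈ N := by
    rw [commutatorElement_def]
    exact N.mul_mem (N.mul_mem (N.mul_mem hx hy) (N.inv_mem hx)) (N.inv_mem hy)
  apply CB2_ext τ hτ hirr N hN
  intro v hv0 hv
  choose! lam hlam using hv
  -- U
  let U : Submodule ℂ V := 
    { carrier := {u | ∀ z ∈ N, (∀ x ∈ N, Commute z x) → τ z u = lam z • u}
      add_mem' := by
        intro a b ha hb z hz hzc
        rw [map_add, ha z hz hzc, hb z hz hzc, smul_add]
      zero_mem' := by intro z hz hzc; simp
      smul_mem' := by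
        intro c a ha z hz hzc
        rw [map_smul, ha z hz hzc, smul_comm] }
  have hUmem : ∀ u, u ∈ U ↔ ∀ z ∈ N, (∀ x ∈ N, Commute z x) → τ z u = lam z • u := fun u => Iff.rfl
  have hvU : v ∈ U := fun z hz hzc => hlam z hz hzc
  have hst : ∀ n ∈ N, ∀ u ∈ U, τ n u ∈ U := by
    intro n hn u hu z hz hzc
    have : τ z (τ n u) = τ n (τ z u) := by
      rw [← LinearEquiv.mul_apply, ← LinearEquiv.mul_apply, ← map_mul, ← map_mul, (hzc n hn).eq]
    rw [this, hu z hz hzc, map_smul]
  let R : N →* Module.End ℂ U := 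
    { toFun := fun n => (τ (n : G)).toLinearMap.restrict (hst n n.2)
      map_one' := by
        ext u; simp
      map_mul' := by
        intro a b
        ext u
        simp }
  let X : N := ⟨x, hx⟩
  let Y : N := ⟨y, hy⟩
  have hdet : LinearMap.det (R ⁅X, Y⁆) = 1 := by
    have h1 : LinearMap.det (R ⁅X, Y⁆) = (LinearMap.det.comp R) ⁅X, Y⁆ := rfl
    rw [h1]
    have h2 : (LinearMap.det.comp R) ⁅X, Y⁆ * (LinearMap.det.comp R) (Y * X) = (LinearMap.det.comp R) (Y * X) := by
      rw [← map_mul]
      have : ⁅X, Y⁆ * (Y * X) = X * Y := by rw [commutatorElement_def]; group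
      rw [this, map_mul, map_mul, mul_comm]
    have h3 : IsUnit ((LinearMap.det.comp R) (Y * X)) := by
      have : IsUnit (Y * X) := Group.isUnit _
      exact this.map _
    exact h3.mul_right_cancel (h2.trans (one_mul _).symm)
  have hsc : R ⁅X, Y⁆ = lam ⁅x, y⁆ • LinearMap.id := by
    ext u
    have := u.2 ⁅x, y⁆ hcN (fun w hw => hc x hx y hy w hw)
    exact this
  rw [hsc, LinearMap.det_smul, LinearMap.det_id, mul_one] at hdet
  have hd : finrank ℂ U ∣ (finrank ℂ V).factorial := by
    apply Nat.dvd_factorial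
    · have : Nontrivial U := by
        rw [Submodule.nontrivial_iff_ne_bot]
        intro h0
        rw [h0] at hvU
        exact hv0 (by simpa using hvU)
      exact finrank_pos
    · exact Submodule.finrank_le U
  have hlast : lam ⁅x, y⁆ ^ (finrank ℂ V).factorial = 1 := by
    obtain ⟨k, hk⟩ := hd
    rw [hk, pow_mul, hdet, one_pow]
  have hpow : ∀ k : ℕ, τ (⁅x, y⁆ ^ k) v = lam ⁅x, y⁆ ^ k • v := by
    intro k
    induction k with
    | zero => simp
    | succ k ih => 
      rw [pow_succ, map_mul, LinearEquiv.mul_apply, 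
        hlam ⁅x, y⁆ hcN (fun w hw => hc x hx y hy w hw), map_smul, ih, smul_smul, pow_succ, mul_comm]
  rw [hpow, hlast, one_smul]
-- END CB2

-- MODULE CB3
private theorem CB3_pow (x y : G) (h : Commute ⁅x, y⁆ x) (m : ℕ) :
    ⁅x ^ m, y⁆ = ⁅x, y⁆ ^ m := by
  induction m with
  | zero => simp
  | succ m ih =>
    have h1 : ⁅x ^ (m + 1), y⁆ = x * ⁅x ^ m, y⁆ * x⁻¹ * ⁅x, y⁆ := by
      simp only [commutatorElement_def, pow_succ' x m]
      group
    rw [h1, ih, ← (h.pow_left m).eq, mul_assoc (⁅x, y⁆ ^ m), mul_inv_cancel, mul_one, pow_succ]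

/-- PROOF. In class two ⁅x^m, y⁆ = ⁅x,y⁆^m (induction on m: x^(m+1) y x^-(m+1) = x (c^m y) x⁻¹ = c^m c y, c = ⁅x,y⁆ commutes with N), so ⁅x^(r!), y⁆ = 1 by CB2. -/
theorem pow_comm (τ : G →* (V ≃ₗ[ℂ] V)) (hτ : Function.Injective τ)
    (hirr : ∀ W : Submodule ℂ V, (∀ x, ∀ w ∈ W, τ x w ∈ W) → W = ⊥ ∨ W = ⊤)
    (N : Subgroup G) (hN : N.Normal)
    (hc : ∀ x ∈ N, ∀ y ∈ N, ∀ w ∈ N, Commute ⁅x, y⁆ w) (x y : G) (hx : x ∈ N) (hy : y ∈ N) :
    Commute (x ^ (finrank ℂ V).factorial) y := by
  rw [← commutatorElement_eq_one_iff_commute, CB3_pow x y (hc x hx y hy x hx),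
    comm_pow τ hτ hirr N hN hc x y hx hy]
-- END CB3

-- MODULE CB4
/-- (x y)^(2M) = x^(2M) y^(2M) if x, y generate a class two group and ⁅y,x⁆^M = 1. PROOF. Collecting: (x y)^k = x^k y^k ⁅y,x⁆^(k(k-1)/2) for c = ⁅y,x⁆ (y x = c x y) central with respect to x, y (induction on k); k = 2M: k(k-1)/2 = M(2M-1). -/
theorem mul_pow_class2 (x y : G) (h1 : Commute ⁅y, x⁆ x) (h2 : Commute ⁅y, x⁆ y) (M : ℕ)
    (h3 : ⁅y, x⁆ ^ M = 1) : (x * y) ^ (2 * M) = x ^ (2 * M) * y ^ (2 * M) := by
  set c := ⁅y, x⁆ with hc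
  have hyx : y * x = c * x * y := by rw [hc, commutatorElement_def]; group
  have hyk : ∀ k : ℕ, y ^ k * x = c ^ k * x * y ^ k := by
    intro k
    induction k with
    | zero => simp
    | succ k ih =>
      calc y ^ (k + 1) * x = y * (y ^ k * x) := by rw [pow_succ', mul_assoc]
        _ = y * (c ^ k * x * y ^ k) := by rw [ih]
        _ = (y * c ^ k) * x * y ^ k := by group
        _ = (c ^ k * y) * x * y ^ k := by rw [(h2.pow_left k).eq]
        _ = c ^ k * (y * x) * y ^ k := by group
        _ = c ^ k * (c * x * y) * y ^ k := by rw [hyx]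
        _ = c ^ (k + 1) * x * y ^ (k + 1) := by rw [pow_succ c, pow_succ' y]; group
  have key : ∀ k : ℕ, (x * y) ^ (k + 1) = x ^ (k + 1) * y ^ (k + 1) * c ^ (k * (k + 1) / 2) := by
    intro k
    induction k with
    | zero => simp
    | succ k ih =>
      have e1 : (k + 1) * (k + 1 + 1) / 2 = k * (k + 1) / 2 + (k + 1) := by
        have : (k + 1) * (k + 1 + 1) = k * (k + 1) + 2 * (k + 1) := by ring
        rw [this]; omega
      have hcx : Commute (c ^ (k * (k + 1) / 2)) (x * y) := 
        (h1.pow_left _).mul_right (h2.pow_left _)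
      have hcy : Commute (c ^ (k + 1)) (y ^ (k + 1)) := (h2.pow_left _).pow_right _
      have hcx' : Commute (c ^ (k + 1)) x := h1.pow_left _
      rw [e1]
      calc (x * y) ^ (k + 1 + 1) = x ^ (k + 1) * y ^ (k + 1) * (c ^ (k * (k + 1) / 2) * (x * y)) := by
            rw [pow_succ (x * y), ih, mul_assoc]
        _ = x ^ (k + 1) * y ^ (k + 1) * (x * y * c ^ (k * (k + 1) / 2)) := by rw [hcx.eq]
        _ 
          = x ^ (k + 1) * (y ^ (k + 1) * x) * y * c ^ (k * (k + 1) / 2) := by group
        _ = x ^ (k + 1) * (c ^ (k + 1) * x * y ^ (k + 1)) * y * c ^ (k * (k + 1) / 2) := by 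
            rw [hyk (k + 1)]
        _ = x ^ (k + 1) * (x * (c ^ (k + 1) * y ^ (k + 1))) * y * c ^ (k * (k + 1) / 2) := by 
            rw [hcx'.eq, mul_assoc x]
        _ = x ^ (k + 1) * (x * (c ^ (k + 1) * (y ^ (k + 1) * y))) * c ^ (k * (k + 1) / 2) := by 
            group
        _ = x ^ (k + 1) * (x * (c ^ (k + 1) * y ^ (k + 1 + 1))) * c ^ (k * (k + 1) / 2) := by 
            rw [← pow_succ]
        _ = x ^ (k + 1) * (x * (y ^ (k + 1 + 1) * c ^ (k + 1))) * c ^ (k * (k + 1) / 2) := by 
            rw [((h2.pow_left (k + 1)).pow_right (k + 1 + 1)).eq]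
        _ = x ^ (k + 1 + 1) * y ^ (k + 1 + 1) * c ^ (k * (k + 1) / 2 + (k + 1)) := by 
            rw [pow_succ x (k + 1), add_comm (k * (k + 1) / 2), pow_add c]; group
  rcases Nat.eq_zero_or_pos M with hM | hM
  · subst hM; simp
  · have h4 := key (2 * M - 1)
    have h5 : 2 * M - 1 + 1 = 2 * M := by omega
    rw [h5] at h4
    have h6 : (2 * M - 1) * (2 * M) / 2 = M * (2 * M - 1) := by
      rw [show (2 * M - 1) * (2 * M) = 2 * (M * (2 * M - 1)) by ring]
      exact Nat.mul_div_cancel_left _ (by norm_num)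
    rw [h4, h6, pow_mul c, h3, one_pow, mul_one]
-- END CB4

-- MODULE CB5
/-- TRANSVECTIONS GIVE FINITE ORDER. PROOF. M = r!, P = y^(2M), Q = x^(2M), both in N and commuting with N (CB3; P = (y^M)^2). t Q t⁻¹ = Q, t P t⁻¹ = (x y)^(2M) = Q P (CB4, CB2), so t^k P t^(-k) = Q^k P for all k : ℕ (Q commutes with t). Let v ≠ 0 be a joint eigenvector (CB1): τ P v = p v, τ Q v = q v, p, q ≠ 0. Then
τ (Q^k P) v = q^k p v, and Q^k P = t^k P t^(-k): so τ P has the eigenvector τ (t^(-k)) v for the eigenvalue q^k p. τ P has at most r eigenvalues (finitely many: Module.End.finite_hasEigenvalue or the roots of the minimal polynomial / charpoly of degree r), so two of the numbers q^0 p, ..., q^r p are equal: q^j = 1 with 1 ≤ j ≤ r,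
so q^(r!) = 1. So τ (Q^(r!)) v = v for all joint eigenvectors, τ (Q^(r!)) = 1 (CB1), Q^(r!) = 1: x^(2M r!) = 1. (V = 0: τ injective gives G trivial.) -/
theorem fin_order (τ : G →* (V ≃ₗ[ℂ] V)) (hτ : Function.Injective τ)
    (hirr : ∀ W : Submodule ℂ V, (∀ x, ∀ w ∈ W, τ x w ∈ W) → W = ⊥ ∨ W = ⊤)
    (N : Subgroup G) (hN : N.Normal)
    (hc : ∀ x ∈ N, ∀ y ∈ N, ∀ w ∈ N, Commute ⁅x, y⁆ w) (t x y : G) (hx : x ∈ N) (hy : y ∈ N)
    (h1 : Commute t x) (h2 : t * y * t⁻¹ = x * y) : IsOfFinOrder x := by
  classical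
  set r := finrank ℂ V with hr
  set M := r.factorial with hM
  have hMpos : 0 < M := Nat.factorial_pos r
  set Q := x ^ (2 * M) with hQ
  set P := y ^ (2 * M) with hP
  have hQN : Q ∈ N := N.pow_mem hx _
  have hPN : P ∈ N := N.pow_mem hy _
  have hQc : ∀ w ∈ N, Commute Q w := by
    intro w hw
    have h := pow_comm τ hτ hirr N hN hc x w hx hw
    rw [hQ, mul_comm 2 M, pow_mul]
    exact h.pow_left 2
  have hPc : ∀ w ∈ N, Commute P w := by
    intro w hw
    have h := pow_comm τ hτ hirr N hN hc y w hy hw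
    rw [hP, mul_comm 2 M, pow_mul]
    exact h.pow_left 2
  have hxy : (x * y) ^ (2 * M) = Q * P := 
    mul_pow_class2 x y (hc y hy x hx x hx) (hc y hy x hx y hy) M 
      (comm_pow τ hτ hirr N hN hc y x hy hx)
  have hconj : t * P * t⁻¹ = Q * P := by
    rw [hP, ← hxy, ← h2, conj_pow]
  have htQ : Commute t Q := h1.pow_right _
  have hk : ∀ k : ℕ, t ^ k * P * (t ^ k)⁻¹ = Q ^ k * P := by
    intro k
    induction k with
    | zero => simp
    | succ k ih =>
      calc t ^ (k + 1) * P * (t ^ (k + 1))⁻¹ = t * (t ^ k * P * (t ^ k)⁻¹) * t⁻¹ := by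
            rw [pow_succ' t k]; group
        _ = t * (Q ^ k * P) * t⁻¹ := by rw [ih]
        _ = (t * Q ^ k) * P * t⁻¹ := by group
        _ = (Q ^ k * t) * P * t⁻¹ := by rw [(htQ.pow_right k).eq]
        _ = Q ^ k * (t * P * t⁻¹) := by group
        _ = Q ^ (k + 1) * P := by rw [hconj, pow_succ]; group
  have hfin : Q ^ M = 1 := by
    apply CB2_ext τ hτ hirr N hN
    intro v hv0 hv
    obtain ⟨p, hp⟩ := hv P hPN hPc
    obtain ⟨q, hq⟩ := hv Q hQN hQc
    have hp0 : p ≠ 0 := by
      rintro rfl
      rw [zero_smul] at hp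
      exact hv0 ((τ P).map_eq_zero_iff.1 hp)
    have hq0 : q ≠ 0 := by
      rintro rfl
      rw [zero_smul] at hq
      exact hv0 ((τ Q).map_eq_zero_iff.1 hq)
    have hqk : ∀ k : ℕ, τ (Q ^ k) v = q ^ k • v := by
      intro k
      induction k with
      | zero => simp
      | succ k ih => 
        rw [pow_succ, map_mul, LinearEquiv.mul_apply, hq, map_smul, ih, smul_smul, pow_succ, mul_comm]
    -- eigenvalues of P
    have heig : ∀ k : ℕ, Module.End.HasEigenvalue (τ P).toLinearMap (q ^ k * p) := by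
      intro k
      apply Module.End.hasEigenvalue_of_hasEigenvector (x := τ (t ^ k)⁻¹ v)
      refine ⟨?_, ?_⟩
      · rw [Module.End.mem_eigenspace_iff]
        show τ P (τ (t ^ k)⁻¹ v) = _
        have h3 : τ P (τ (t ^ k)⁻¹ v) = τ (t ^ k)⁻¹ (τ (Q ^ k * P) v) := by
          rw [← LinearEquiv.mul_apply, ← LinearEquiv.mul_apply, ← map_mul, ← map_mul, ← hk k]
          congr 2
          group
        rw [h3, map_mul, LinearEquiv.mul_apply, hp, map_smul, hqk, smul_smul, map_smul, mul_comm]
      · intro h0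
        exact hv0 ((τ (t ^ k)⁻¹).map_eq_zero_iff.1 h0)
    -- pigeonhole
    have hcard : ∃ j : ℕ, 1 ≤ j ∧ j ≤ r ∧ q ^ j = 1 := by
      have hpoly := (LinearMap.charpoly_monic (τ P).toLinearMap).ne_zero
      set S := (LinearMap.charpoly (τ P).toLinearMap).roots.toFinset with hS
      have hSc : S.card ≤ r := by
        calc S.card ≤ Multiset.card (LinearMap.charpoly (τ P).toLinearMap).roots := 
              Multiset.toFinset_card_le _
          _ ≤ (LinearMap.charpoly (τ P).toLinearMap).natDegree := Polynomial.card_roots' _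
          _ = r := LinearMap.charpoly_natDegree _
      have hmaps : ∀ k ∈ Finset.range (r + 1), q ^ k * p ∈ S := by
        intro k _
        rw [hS, Multiset.mem_toFinset, Polynomial.mem_roots hpoly]
        exact (Module.End.hasEigenvalue_iff_isRoot_charpoly _ _).1 (heig k)
      obtain ⟨a, ha, b, hb, hab, heq⟩ := Finset.exists_ne_map_eq_of_card_lt_of_maps_to 
        (by rw [Finset.card_range]; omega) hmaps
      rw [Finset.mem_range] at ha hb
      have heq' := mul_right_cancel₀ hp0 heq
      rcases lt_or_gt_of_ne hab with h | h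
      · refine ⟨b - a, by omega, by omega, ?_⟩
        have : q ^ a * q ^ (b - a) = q ^ a * 1 := by
          rw [← pow_add, mul_one, heq']; congr 1; omega
        exact mul_left_cancel₀ (pow_ne_zero _ hq0) this
      · refine ⟨a - b, by omega, by omega, ?_⟩
        have : q ^ b * q ^ (a - b) = q ^ b * 1 := by
          rw [← pow_add, mul_one, ← heq']; congr 1; omega
        exact mul_left_cancel₀ (pow_ne_zero _ hq0) this
    obtain ⟨j, hj1, hj2, hj3⟩ := hcard
    obtain ⟨k, hk'⟩ := Nat.dvd_factorial (by omega : 0 < j) hj2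
    rw [hqk, hM, hk', pow_mul, hj3, one_pow, one_smul]
  rw [isOfFinOrder_iff_pow_eq_one]
  refine ⟨2 * M * M, by positivity, ?_⟩
  rw [pow_mul]
  exact hfin
-- END CB5

end Pool.Agent.EG14
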