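import Pool.Agent.EG14.Bd
import Pool.Agent.EG14.Lin

set_option linter.all false

/-!
# Finite image of the pushes (EVERY GENUS)
-/

namespace Pool.Agent.EG14

open scoped commutatorElement

open Pool.Agent.HG13 Module

universe u

variable {g n : ℕ}

-- MODULE DA1
private theorem DA1_cl {G H : Type*} [Group G] [Group H] {e : ℕ → ℕ → G} (φ : G →* H) (L : ℕ)
    {x : G} (hx : x ∈ Subgroup.closure {x | ∃ c' < L, x = e L c'}) :
    φ x ∈ Subgroup.closure {x | ∃ c' < L, x = φ (e L c')} := by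
  have : Subgroup.closure {x | ∃ c' < L, x = e L c'} ≤
      (Subgroup.closure {x | ∃ c' < L, x = φ (e L c')}).comap φ := by
    rw [Subgroup.closure_le]
    rintro _ ⟨c, hc, rfl⟩
    exact Subgroup.subset_closure ⟨c, hc, rfl⟩
  exact this hx

/-- NORMAL SUBGROUP. PROOF. φ surjective, e L c = φ (ell g n L c) is a PSys (ell_psys, PSys.map), for γ ∈ Tw0: TSys for e and φ γ (map of ell_tsys: as PSys.map). Every element of G is φ γ, γ ∈ closure of Tw0-elements and pushes (MCG_top): closure_induction on γ for the statement ∀ x ∈ Nf, φ γ * x * (φ γ)⁻¹ ∈ Nf ∧ (φ γ)⁻¹ * x * φ γ ∈ Nf, with BA8 (nf_normal), BA9 (nf_normal_t). -/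
theorem nf_norm {G : Type*} [Group G] (φ : MCG g n →* G) (hφ : Function.Surjective φ) (S : ℕ)
    (hS : 2 * g ≤ S) (hS' : S < 2 * g + n)
    (hF : Flat g n (fun L c => φ (ell g n L c)) S) (hR : RC g n (fun L c => φ (ell g n L c)) S) :
    (Nf g n (fun L c => φ (ell g n L c)) S).Normal := by
  set e : ℕ → ℕ → G := fun L c => φ (ell g n L c) with he
  have hP : PSys g n e := (ell_psys).map φ
  have key : ∀ γ : MCG g n, ∀ x ∈ Nf g n e S, φ γ * x * (φ γ)⁻¹ ∈ Nf g n e S ∧
      (φ γ)⁻¹ * x * φ γ ∈ Nf g n e S := by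
    intro γ
    have hγ : γ ∈ (⊤ : Subgroup (MCG g n)) := trivial
    rw [MCG_top] at hγ
    induction hγ using Subgroup.closure_induction with
    | mem γ hγ =>
      rcases hγ with hγ | ⟨L, c, hL, hL', hc, rfl⟩
      · have ht := ell_tsys γ hγ
        have hT : TSys g n e (φ γ) := by
          refine ⟨fun L c h1 h2 h3 => ⟨?_, ?_⟩, fun S L h1 h2 h3 => (ht.com S L h1 h2 h3).map φ⟩
          · have := DA1_cl φ L (ht.nrm L c h1 h2 h3).1
            rwa [map_mul, map_mul, map_inv] at this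
          · have := DA1_cl φ L (ht.nrm L c h1 h2 h3).2
            rwa [map_mul, map_mul, map_inv] at this
        exact nf_normal_t hT hS hS'
      · exact nf_normal hP hS hS' hF hR hL hL' hc
    | one => intro x hx; simpa using hx
    | mul a b _ _ h1 h2 =>
      intro x hx
      rw [map_mul]
      constructor
      · have h3 : φ a * φ b * x * (φ a * φ b)⁻¹ = φ a * (φ b * x * (φ b)⁻¹) * (φ a)⁻¹ := by group
        rw [h3]; exact (h1 _ (h2 x hx).1).1
      · have h3 : (φ a * φ b)⁻¹ * x * (φ a * φ b) = (φ b)⁻¹ * ((φ a)⁻¹ * x * φ a) * φ b := by group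
        rw [h3]; exact (h2 _ (h1 x hx).2).2
    | inv a _ h =>
      intro x hx
      rw [map_inv, inv_inv]
      exact ⟨(h x hx).2, (h x hx).1⟩
  refine ⟨fun x hx y => ?_⟩
  obtain ⟨γ, rfl⟩ := hφ y
  exact (key γ x hx).1
-- END DA1

-- MODULE DA2
private theorem DA2_two {G : Type*} [Group G] (N : Subgroup G)
    (hc : ∀ x ∈ N, ∀ y ∈ N, ∀ w ∈ N, Commute ⁅x, y⁆ w) (a b : G) (ha : a ∈ N) (hb : b ∈ N)
    (ha' : IsOfFinOrder a) (hb' : IsOfFinOrder b) : IsOfFinOrder (a⁻¹ * b) := by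
  have hle : Subgroup.closure ({a, b} : Set G) ≤ N := by
    rw [Subgroup.closure_le]
    rintro x (rfl | rfl)
    · exact ha
    · exact hb
  have hf : (Subgroup.closure ({a, b} : Set G) : Set G).Finite := by
    apply finite_closure _ (by simp)
    · rintro x (rfl | rfl)
      · exact ha'
      · exact hb'
    · intro x hx y hy w hw
      exact hc x (hle hx) y (hle hy) w (hle hw)
  have : Finite (Subgroup.closure ({a, b} : Set G)) := hf
  have hm : a⁻¹ * b ∈ Subgroup.closure ({a, b} : Set G) :=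
    Subgroup.mul_mem _ (Subgroup.inv_mem _ (Subgroup.subset_closure (by simp)))
      (Subgroup.subset_closure (by simp))
  exact Submonoid.isOfFinOrder_coe.2
    (isOfFinOrder_of_finite (⟨_, hm⟩ : Subgroup.closure ({a, b} : Set G)))

/-- LEFT PUSHES HAVE FINITE ORDER. PROOF. N = Nf, normal (DA1), class two (class2). For c < S apply fin_order: c = 2i (i < g): transv (1), t = φ t', x = e S (2i), y = e S (2i+1). c = 2i+1: transv (2): t y t⁻¹ = y x⁻¹ with y = e S (2i), x = e S (2i+1); then t y⁻¹ t⁻¹ = x y⁻¹: fin_order for (x, y⁻¹). c = 2g + j < S: by transv (3) for k ≤ S - 2g: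
dk k has finite order (t y t⁻¹ = y (dk)⁻¹ with y = e S (2g-1): t y⁻¹ t⁻¹ = dk y⁻¹; dk ∈ N, because its factors are; φ (dk g (ell g n) S k) = dk g e S k by map_mul, map_list_prod), and e S (2g+j) = (dk j)⁻¹ dk (j+1); a product of two elements of finite order in a class two group has finite order (finite_closure for {a, b}: the
closure is a finite set, so every element has finite order: isOfFinOrder_of_finite for the subgroup type or Set.Finite of powers). -/
theorem left_fin {G : Type*} [Group G] (hg : 1 ≤ g) (φ : MCG g n →* G)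
    (hφ : Function.Surjective φ) {V : Type*} [AddCommGroup V] [Module ℂ V]
    [FiniteDimensional ℂ V] (τ : G →* (V ≃ₗ[ℂ] V)) (hτ : Function.Injective τ)
    (hirr : ∀ W : Submodule ℂ V, (∀ x, ∀ w ∈ W, τ x w ∈ W) → W = ⊥ ∨ W = ⊤) (S : ℕ)
    (hS : 2 * g ≤ S) (hS' : S < 2 * g + n)
    (hF : Flat g n (fun L c => φ (ell g n L c)) S) (hR : RC g n (fun L c => φ (ell g n L c)) S)
    (hC : C2 (fun L c => φ (ell g n L c)) S) (c : ℕ) (hc : c < S) :
    IsOfFinOrder (φ (ell g n S c)) := by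
  have hN := nf_norm φ hφ S hS hS' hF hR
  have hcl := class2 hF hR hC
  have hmem : ∀ c < S, φ (ell g n S c) ∈ Nf g n (fun L c => φ (ell g n L c)) S :=
    fun c hc => Subgroup.subset_closure (Or.inl ⟨c, hc, rfl⟩)
  set e : ℕ → ℕ → G := fun L c => φ (ell g n L c) with he
  obtain ⟨T1, T2, T3⟩ := transv hg S hS hS'
  by_cases hc2 : c < 2 * g
  · rcases Nat.even_or_odd' c with ⟨i, hi | hi⟩
    · obtain ⟨t, h1, h2⟩ := T1 i (by omega)
      subst hi
      refine fin_order τ hτ hirr _ hN hcl (φ t) _ (φ (ell g n S (2 * i + 1)))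
        (hmem _ hc) (hmem _ (by omega)) (h1.map φ) ?_
      have := congrArg φ h2
      rwa [map_mul, map_mul, map_mul, map_inv] at this
    · obtain ⟨t, h1, h2⟩ := T2 i (by omega)
      subst hi
      refine fin_order τ hτ hirr _ hN hcl (φ t) _ (φ (ell g n S (2 * i)))⁻¹
        (hmem _ hc) (Subgroup.inv_mem _ (hmem _ (by omega))) (h1.map φ) ?_
      have h3 := congrArg φ h2
      rw [map_mul, map_mul, map_mul, map_inv, map_inv] at h3
      have h4 := congrArg (fun z => z⁻¹) h3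
      simp only [mul_inv_rev, inv_inv] at h4
      rw [← h4]; group
  · obtain ⟨j, rfl⟩ : ∃ j, c = 2 * g + j := ⟨c - 2 * g, by omega⟩
    have hdk : ∀ k, φ (dk g (ell g n) S k) = dk g e S k := by
      intro k
      simp only [dk, map_mul, map_inv, map_list_prod, List.map_map]
      rfl
    have hdm : ∀ k, 2 * g + k ≤ S → dk g e S k ∈ Nf g n e S := by
      intro k hk
      unfold dk
      refine Subgroup.mul_mem _ (Subgroup.mul_mem _ (Subgroup.mul_mem _ 
        (Subgroup.inv_mem _ (hmem _ (by omega))) (Subgroup.inv_mem _ (hmem _ (by omega)))) 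
        (hmem _ (by omega))) ?_
      apply Subgroup.list_prod_mem
      intro x hx
      rw [List.mem_map] at hx
      obtain ⟨j, hj, rfl⟩ := hx
      rw [List.mem_range] at hj
      exact hmem _ (by omega)
    have hdf : ∀ k, 2 * g + k ≤ S → IsOfFinOrder (dk g e S k) := by
      intro k hk
      obtain ⟨t, h1, h2⟩ := T3 k hk
      have h1' := h1.map φ
      rw [hdk] at h1'
      refine fin_order τ hτ hirr _ hN hcl (φ t) _ (φ (ell g n S (2 * g - 1)))⁻¹
        (hdm k hk) (Subgroup.inv_mem _ (hmem _ (by omega))) h1' ?_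
      have h3 := congrArg φ h2
      rw [map_mul, map_mul, map_mul, map_inv, map_inv, hdk] at h3
      have h4 := congrArg (fun z => z⁻¹) h3
      simp only [mul_inv_rev, inv_inv] at h4
      rw [← h4]; group
    have h5 : φ (ell g n S (2 * g + j)) = (dk g e S j)⁻¹ * dk g e S (j + 1) := by
      unfold dk
      rw [List.range_succ, List.map_append, List.prod_append]
      simp only [List.map_cons, List.map_nil, List.prod_cons, List.prod_nil, mul_one]
      show e S (2 * g + j) = _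
      group
    rw [h5]
    exact DA2_two _ hcl _ _ (hdm _ (by omega)) (hdm _ (by omega)) (hdf _ (by omega)) 
      (hdf _ (by omega))
-- END DA2

-- MODULE DA3
/-- PROOF. xy for (S, L), i = 0 < g, with x = e S 0, γ = e L 1, β = e L 0, A = e L S, where A commutes with β, γ (flat0): x γ x⁻¹ = A⁻¹γβ⁻¹A⁻¹βA = γ A⁻¹, and x commutes with A (Flat, 0 < S), so x^m γ x^(-m) = γ A^(-m); with x^m = 1, m > 0: A^m = 1. -/
theorem right_fin {G : Type*} [Group G] {e : ℕ → ℕ → G} (h : PSys g n e) (hg : 1 ≤ g) (S L : ℕ)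
    (hS : 2 * g ≤ S) (hL : S < L) (hL' : L < 2 * g + n) (hF : Flat g n e S)
    (hx : IsOfFinOrder (e S 0)) : IsOfFinOrder (e L S) := by
  have h1 := h.xy S L 0 hS hL hL' (by omega)
  rw [Nat.mul_zero, Nat.zero_add] at h1
  have c0 : Commute (e L S) (e L 0) := flat0 h hS hF (by omega) hL hL'
  have c1 : Commute (e L S) (e L 1) := flat0 h hS hF (by omega) hL hL'
  have cx : Commute (e S 0) (e L S) := hF 0 L (by omega) hL hL'
  set A := e L S with hA
  set x := e S 0 with hx'
  set γ := e L 1 with hγ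
  set β := e L 0 with hβ
  have h2 : x * γ * x⁻¹ = γ * A⁻¹ := by
    rw [h1]
    have e1 : A⁻¹ * γ = γ * A⁻¹ := (c1.inv_left).eq
    have e2 : A⁻¹ * β = β * A⁻¹ := (c0.inv_left).eq
    calc A⁻¹ * γ * β⁻¹ * A⁻¹ * β * A = (A⁻¹ * γ) * β⁻¹ * (A⁻¹ * β) * A := by group
      _ = (γ * A⁻¹) * β⁻¹ * (β * A⁻¹) * A := by rw [e1, e2]
      _ = γ * A⁻¹ := by group
  have h3 : ∀ m : ℕ, x ^ m * γ * (x ^ m)⁻¹ = γ * (A ^ m)⁻¹ := by
    intro m
    induction m with
    | zero => simp
    | succ m ih =>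
      have e3 : x * (A ^ m)⁻¹ = (A ^ m)⁻¹ * x := ((cx.pow_right m).inv_right).eq
      calc x ^ (m + 1) * γ * (x ^ (m + 1))⁻¹ = x * (x ^ m * γ * (x ^ m)⁻¹) * x⁻¹ := by
            rw [pow_succ' x m]; group
        _ = x * (γ * (A ^ m)⁻¹) * x⁻¹ := by rw [ih]
        _ = (x * γ * x⁻¹) * (x * (A ^ m)⁻¹) * x⁻¹ := by group
        _ = (γ * A⁻¹) * ((A ^ m)⁻¹ * x) * x⁻¹ := by rw [h2, e3]
        _ = γ * (A ^ (m + 1))⁻¹ := by rw [pow_succ A m]; group
  obtain ⟨m, hm, hm1⟩ := isOfFinOrder_iff_pow_eq_one.1 hx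
  rw [isOfFinOrder_iff_pow_eq_one]
  refine ⟨m, hm, ?_⟩
  have h4 := h3 m
  rw [hm1, one_mul, inv_one, mul_one] at h4
  have h5 : (A ^ m)⁻¹ = 1 := by
    have := h4.symm
    rwa [mul_eq_left] at this
  exact inv_eq_one.1 h5
-- END DA3

-- MODULE DA4
/-- FINITE IMAGE. PROOF. Nf is the closure of a finite set (b < S; L < 2g+n) of elements of finite order (DA2, DA3) and of class two (class2): finite_closure. -/
theorem nf_finite {G : Type*} [Group G] (hg : 1 ≤ g) (φ : MCG g n →* G)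
    (hφ : Function.Surjective φ) {V : Type*} [AddCommGroup V] [Module ℂ V]
    [FiniteDimensional ℂ V] (τ : G →* (V ≃ₗ[ℂ] V)) (hτ : Function.Injective τ)
    (hirr : ∀ W : Submodule ℂ V, (∀ x, ∀ w ∈ W, τ x w ∈ W) → W = ⊥ ∨ W = ⊤) (S : ℕ)
    (hS : 2 * g ≤ S) (hS' : S < 2 * g + n)
    (hF : Flat g n (fun L c => φ (ell g n L c)) S) (hR : RC g n (fun L c => φ (ell g n L c)) S)
    (hC : C2 (fun L c => φ (ell g n L c)) S) :
    (Nf g n (fun L c => φ (ell g n L c)) S : Set G).Finite := by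
  have hcl := class2 hF hR hC
  have hlf := left_fin hg φ hφ τ hτ hirr S hS hS' hF hR hC
  apply finite_closure
  · apply Set.Finite.union
    · refine ((Set.finite_Iio S).image (fun b => φ (ell g n S b))).subset ?_
      rintro x ⟨b, hb, rfl⟩
      exact ⟨b, hb, rfl⟩
    · refine ((Set.finite_Iio (2 * g + n)).image (fun L => φ (ell g n L S))).subset ?_
      rintro x ⟨L, _, hL, rfl⟩
      exact ⟨L, hL, rfl⟩
  · rintro x (⟨b, hb, rfl⟩ | ⟨L, hL, hL', rfl⟩)
    · exact hlf b hb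
    · exact right_fin ((ell_psys).map φ) hg S L hS hL hL' hF (hlf 0 (by omega))
  · exact hcl
-- END DA4

/-- The normal subgroup generated by the pushes of the punctures outside of `T`: all pushes of the
puncture `s`, and the pushes of other punctures around `s`, `s ∉ T`. -/
def KT (g n : ℕ) (T : Finset (Fin n)) : Subgroup (MCG g n) :=
  Subgroup.normalClosure {γ | ∃ s : Fin n, s ∉ T ∧ ((∃ c < 2 * g + (s : ℕ),
    γ = ell g n (2 * g + s) c) ∨ ∃ L, 2 * g + (s : ℕ) < L ∧ L < 2 * g + n ∧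
      γ = ell g n L (2 * g + s))}

theorem KT_anti {T T' : Finset (Fin n)} (h : T ⊆ T') : KT g n T' ≤ KT g n T := by
  apply Subgroup.normalClosure_mono
  rintro γ ⟨s, hs, h1⟩
  exact ⟨s, fun h2 => hs (h h2), h1⟩

-- MODULE DB1
/-- IRREDUCIBLE REPRESENTATIONS. PROOF. V trivial (subsingleton): T = ∅, the image is one element. Otherwise: let ρ' : MCG g n →* (V ≃ₗ[ℂ] V) be ρ (every ρ γ is invertible with inverse ρ γ⁻¹: MonoidHom.toHomUnits and LinearMap.GeneralLinearGroup.generalLinearEquiv), G = ρ'.range, φ = ρ'.rangeRestrict (surjective), τ = ρ'.range.subtype (injective).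
T from card_bad for e = φ ∘ ell (PSys.map of ell_psys). For s ∉ T: N_s = Nf .. (2g+s) is normal (nf_norm) and finite (nf_finite). N = ⨆ over {s // s ∉ T} is finite (finite_iSup) and normal; N.comap φ is normal and contains the generators of KT, so φ (KT) ⊆ N, and ρ '' KT is the image of a subset of N. -/
theorem core_irr (hg : 1 ≤ g) {V : Type u} [AddCommGroup V] [Module ℂ V]
    [FiniteDimensional ℂ V] (ρ : Representation ℂ (MCG g n) V)
    (hirr : ∀ W : Submodule ℂ V, (∀ γ, ∀ w ∈ W, ρ γ w ∈ W) → W = ⊥ ∨ W = ⊤) :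
    ∃ T : Finset (Fin n), T.card ≤ 5 * (finrank ℂ V - 1) ∧
      (ρ '' (KT g n T : Set (MCG g n))).Finite := by
  classical
  rcases subsingleton_or_nontrivial V with hV | hV
  · refine ⟨∅, by simp, Set.Subsingleton.finite ?_⟩
    rintro a _ b _
    exact Subsingleton.elim a b
  let ρ' : MCG g n →* (V ≃ₗ[ℂ] V) :=
    (LinearMap.GeneralLinearGroup.generalLinearEquiv ℂ V).toMonoidHom.comp (MonoidHom.toHomUnits ρ)
  have hρ' : ∀ γ v, ρ' γ v = ρ γ v := fun γ v => rfl
  let φ := ρ'.rangeRestrict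
  let τ := ρ'.range.subtype
  have hφ : Function.Surjective φ := MonoidHom.rangeRestrict_surjective ρ'
  have hτ : Function.Injective τ := Subgroup.subtype_injective _
  have hτφ : ∀ γ, τ (φ γ) = ρ' γ := fun γ => rfl
  have hirr' : ∀ W : Submodule ℂ V, (∀ x, ∀ w ∈ W, τ x w ∈ W) → W = ⊥ ∨ W = ⊤ := by
    intro W hW
    apply hirr W
    intro γ w hw
    have := hW (φ γ) w hw
    rwa [hτφ, hρ'] at this
  have hps : PSys g n (fun L c => φ (ell g n L c)) := ell_psys.map φ
  obtain ⟨T, hT, hgood⟩ := card_bad hps τ hτ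
  refine ⟨T, hT, ?_⟩
  let N : {s : Fin n // s ∉ T} → Subgroup ρ'.range :=
    fun s => Nf g n (fun L c => φ (ell g n L c)) (2 * g + (s : Fin n))
  have hNn : ∀ s, (N s).Normal := fun s =>
    nf_norm φ hφ _ (by omega) (by have := (s : Fin n).2; omega) (hgood s.1 s.2).1 (hgood s.1 s.2).2.1
  have hNf : ∀ s, (N s : Set ρ'.range).Finite := fun s =>
    nf_finite hg φ hφ τ hτ hirr' _ (by omega) (by have := (s : Fin n).2; omega)
      (hgood s.1 s.2).1 (hgood s.1 s.2).2.1 (hgood s.1 s.2).2.2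
  have hfin := finite_iSup N hNn hNf
  have hnorm : (⨆ s, N s : Subgroup ρ'.range).Normal := Subgroup.iSup_normal N
  have hle : KT g n T ≤ (⨆ s, N s : Subgroup ρ'.range).comap φ := by
    have : ((⨆ s, N s : Subgroup ρ'.range).comap φ).Normal := hnorm.comap φ
    apply Subgroup.normalClosure_le_normal
    rintro γ ⟨s, hs, h1⟩
    show φ γ ∈ (⨆ s, N s : Subgroup ρ'.range)
    have h2 : φ γ ∈ N ⟨s, hs⟩ := by
      rcases h1 with ⟨c, hc, rfl⟩ | ⟨L, hL, hL', rfl⟩
      · exact Subgroup.subset_closure (Or.inl ⟨c, hc, rfl⟩)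
      · exact Subgroup.subset_closure (Or.inr ⟨L, hL, hL', rfl⟩)
    exact (le_iSup N ⟨s, hs⟩) h2
  have h1 := hfin.image (fun x => ((τ x : V ≃ₗ[ℂ] V) : V →ₗ[ℂ] V))
  apply h1.subset
  rintro _ ⟨γ, hγ, rfl⟩
  exact ⟨φ γ, hle hγ, rfl⟩
-- END DB1

-- MODULE DB2
private noncomputable def DB2_res {V : Type u} [AddCommGroup V] [Module ℂ V]
    (ρ : Representation ℂ (MCG g n) V) (W : Submodule ℂ V) (hW : ∀ γ, ∀ w ∈ W, ρ γ w ∈ W) :
    Representation ℂ (MCG g n) W where
  toFun γ := (ρ γ).restrict (hW γ)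
  map_one' := by ext w; simp
  map_mul' a b := by ext w; simp

private theorem DB2_val {V : Type u} [AddCommGroup V] [Module ℂ V]
    (ρ : Representation ℂ (MCG g n) V) (W : Submodule ℂ V) (hW : ∀ γ, ∀ w ∈ W, ρ γ w ∈ W)
    (γ : MCG g n) (w : W) : ((DB2_res ρ W hW γ w : W) : V) = ρ γ w := rfl

private theorem DB2_ss {V : Type u} [AddCommGroup V] [Module ℂ V]
    (ρ : Representation ℂ (MCG g n) V)
    (hss : ∀ W : Submodule ℂ V, (∀ γ, ∀ w ∈ W, ρ γ w ∈ W) → ∃ W' : Submodule ℂ V,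
      (∀ γ, ∀ w ∈ W', ρ γ w ∈ W') ∧ IsCompl W W') (W : Submodule ℂ V)
    (hW : ∀ γ, ∀ w ∈ W, ρ γ w ∈ W) :
    ∀ U : Submodule ℂ W, (∀ γ, ∀ w ∈ U, DB2_res ρ W hW γ w ∈ U) → ∃ U' : Submodule ℂ W,
      (∀ γ, ∀ w ∈ U', DB2_res ρ W hW γ w ∈ U') ∧ IsCompl U U' := by
  intro U hU
  obtain ⟨Z, hZ1, hZ2⟩ := hss (U.map W.subtype) (by
    rintro γ _ ⟨w, hw, rfl⟩
    exact ⟨_, hU γ w hw, rfl⟩)
  refine ⟨Z.comap W.subtype, fun γ w hw => hZ1 γ _ hw, ?_⟩
  constructor
  · rw [Submodule.disjoint_def]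
    intro x hx hx'
    have := (Submodule.disjoint_def.1 hZ2.disjoint) (x : V) ⟨x, hx, rfl⟩ hx'
    exact Subtype.ext this
  · rw [codisjoint_iff, eq_top_iff]
    intro w _
    have hw : (w : V) ∈ U.map W.subtype ⊔ Z := by
      rw [codisjoint_iff.1 hZ2.codisjoint]; trivial
    obtain ⟨a, ⟨a', ha', rfl⟩, b, hb, hab⟩ := Submodule.mem_sup.1 hw
    have hb' : b = ((w - a' : W) : V) := by
      rw [Submodule.coe_sub, ← hab]; simp
    have hwa : w = a' + (w - a') := by abel
    rw [hwa]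
    refine Submodule.add_mem_sup ha' ?_
    show ((w - a' : W) : V) ∈ Z
    rw [← hb']; exact hb

/-- SEMISIMPLE REPRESENTATIONS. PROOF. Strong induction on finrank V (for all V in Type u). If V is irreducible: DB1. Otherwise there is an invariant W ≠ ⊥, ⊤ with an invariant complement W'. The restrictions ρ_W, ρ_W' (as representations on the subtypes: MonoidHom with (ρ γ).restrict) are semisimple: for U ≤ W invariant, U has an invariant
complement U' in V, and W ⊓ U' is a complement of U in W (modular law). Both have smaller dimension ≥ 1, finrank V = finrank W + finrank W'. T = T_W ∪ T_W': card ≤ 5 (w - 1) + 5 (w' - 1) ≤ 5 (v - 1). ρ '' KT T: an element ρ γ is determined by the pair (ρ_W γ, ρ_W' γ), which is in a finite set since KT T ≤ KT T_W, KT T_W' (KT_anti). -/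
theorem core_semis (hg : 1 ≤ g) {V : Type u} [AddCommGroup V] [Module ℂ V]
    [FiniteDimensional ℂ V] (ρ : Representation ℂ (MCG g n) V)
    (hss : ∀ W : Submodule ℂ V, (∀ γ, ∀ w ∈ W, ρ γ w ∈ W) → ∃ W' : Submodule ℂ V,
      (∀ γ, ∀ w ∈ W', ρ γ w ∈ W') ∧ IsCompl W W') :
    ∃ T : Finset (Fin n), T.card ≤ 5 * (finrank ℂ V - 1) ∧
      (ρ '' (KT g n T : Set (MCG g n))).Finite := by
  have key : ∀ d : ℕ, ∀ (V : Type u) [AddCommGroup V] [Module ℂ V]
    [FiniteDimensional ℂ V] (ρ : Representation ℂ (MCG g n) V) (_ : finrank ℂ V = d)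
    (hss : ∀ W : Submodule ℂ V, (∀ γ, ∀ w ∈ W, ρ γ w ∈ W) → ∃ W' : Submodule ℂ V,
      (∀ γ, ∀ w ∈ W', ρ γ w ∈ W') ∧ IsCompl W W'),
    ∃ T : Finset (Fin n), T.card ≤ 5 * (finrank ℂ V - 1) ∧
      (ρ '' (KT g n T : Set (MCG g n))).Finite := by
    intro d
    induction d using Nat.strong_induction_on with
    | _ d ih =>
      intro V _ _ _ ρ hd hss
      by_cases hirr : ∀ W : Submodule ℂ V, (∀ γ, ∀ w ∈ W, ρ γ w ∈ W) → W = ⊥ ∨ W = ⊤
      · exact core_irr hg ρ hirr
      · push Not at hirr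
        obtain ⟨W, hW, hW0, hW1⟩ := hirr
        obtain ⟨W', hW', hWW⟩ := hss W hW
        have hW'0 : W' ≠ ⊥ := by
          rintro rfl
          have := codisjoint_iff.1 hWW.codisjoint
          rw [sup_bot_eq] at this
          exact hW1 this
        have hadd := Submodule.finrank_add_eq_of_isCompl hWW
        have hpos : 0 < finrank ℂ W := by
          rw [Nat.pos_iff_ne_zero]
          intro h0
          exact hW0 (Submodule.finrank_eq_zero.1 h0)
        have hpos' : 0 < finrank ℂ W' := by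
          rw [Nat.pos_iff_ne_zero]
          intro h0
          exact hW'0 (Submodule.finrank_eq_zero.1 h0)
        obtain ⟨T1, hT1, hf1⟩ := ih (finrank ℂ W) (by omega) W (DB2_res ρ W hW) rfl
          (DB2_ss ρ hss W hW)
        obtain ⟨T2, hT2, hf2⟩ := ih (finrank ℂ W') (by omega) W' (DB2_res ρ W' hW') rfl
          (DB2_ss ρ hss W' hW')
        classical
        refine ⟨T1 ∪ T2, ?_, ?_⟩
        · have := Finset.card_union_le T1 T2
          omega
        · let F : Module.End ℂ W × Module.End ℂ W' → Module.End ℂ V := fun p =>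
            LinearMap.ofIsCompl hWW (W.subtype ∘ₗ p.1) (W'.subtype ∘ₗ p.2)
          refine ((hf1.prod hf2).image F).subset ?_
          rintro _ ⟨γ, hγ, rfl⟩
          refine ⟨(DB2_res ρ W hW γ, DB2_res ρ W' hW' γ), ⟨⟨γ, ?_, rfl⟩, ⟨γ, ?_, rfl⟩⟩, ?_⟩
          · exact KT_anti Finset.subset_union_left hγ
          · exact KT_anti Finset.subset_union_right hγ
          · apply LinearMap.ofIsCompl_eq
            · intro u; rfl
            · intro u; rfl
  exact key _ V ρ rfl hss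
-- END DB2

end Pool.Agent.EG14
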