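import Pool.Agent.EG14.Fin
import Pool.Agent.PB3.Quot

set_option linter.all false

/-!
# The forgetful homomorphism and its section (EVERY GENUS)

`e : Fin m ↪o Fin n` : the punctures which are kept. In the docstrings T = the letters `2g + e j`.
-/

namespace Pool.Agent.EG14

open Pool.Agent.HG13

variable {g m n : ℕ}

/-- The letter of the big surface which corresponds to a letter of the small one. -/
def lt (g : ℕ) (e : Fin m ↪o Fin n) (c : ℕ) : ℕ :=
  if h : 2 * g ≤ c ∧ c < 2 * g + m then 2 * g + (e ⟨c - 2 * g, by omega⟩ : ℕ) else c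

/-- The inclusion of the free groups. -/
noncomputable def inc (g : ℕ) (e : Fin m ↪o Fin n) : Fr g m →* Fr g n :=
  FreeGroup.lift fun c : Fin (2 * g + m) => gen (lt g e c)

/-- The product of the kept puncture loops to the right of the letter `l`. -/
noncomputable def Rt (g : ℕ) (e : Fin m ↪o Fin n) (l : ℕ) : Fr g n :=
  ((List.finRange m).map fun j => if l < 2 * g + (e j : ℕ) then gen (2 * g + (e j : ℕ)) else 1).prod

/-- The loop of a forgotten puncture, moved to the right end. -/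
noncomputable def zh (g : ℕ) (e : Fin m ↪o Fin n) (l : ℕ) : Fr g n :=
  (Rt g e l)⁻¹ * gen l * Rt g e l

-- MODULE FA1
/-- Elementary facts. PROOF. fgt: definition of lift, gen_lt; the choice is unique because e is injective. lt: for c < 2g it is c; strictly increasing on c < 2g + m (e strictly increasing), lt c < 2g + n. inc: gen_lt; for c ≥ 2g + m: excluded. fgt (inc w) = w: on letters. -/
theorem fgt_facts (e : Fin m ↪o Fin n) :
    (∀ c, c < 2 * g → fgt g e (gen c) = gen c) ∧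
    (∀ j : Fin m, fgt g e (gen (2 * g + (e j : ℕ))) = gen (2 * g + (j : ℕ))) ∧
    (∀ c, 2 * g ≤ c → (∀ j : Fin m, 2 * g + (e j : ℕ) ≠ c) → fgt g e (gen c) = 1) ∧
    (∀ c, c < 2 * g → lt g e c = c) ∧
    (∀ j : Fin m, lt g e (2 * g + (j : ℕ)) = 2 * g + (e j : ℕ)) ∧
    (∀ c c', c < c' → c' < 2 * g + m → lt g e c < lt g e c') ∧
    (∀ c, c < 2 * g + m → lt g e c < 2 * g + n) ∧
    (∀ c, c < 2 * g + m → inc g e (gen c) = gen (lt g e c)) ∧
    (∀ w, fgt g e (inc g e w) = w) := by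
  classical
  have h1 : ∀ c, c < 2 * g → fgt g e (gen c) = gen c := by
    intro c hc
    rw [gen_lt (by omega : c < 2 * g + n), fgt, FreeGroup.lift_apply_of]
    rw [if_pos (show ((⟨c, by omega⟩ : Fin (2 * g + n)) : ℕ) < 2 * g from hc)]
  have h2 : ∀ j : Fin m, fgt g e (gen (2 * g + (e j : ℕ))) = gen (2 * g + (j : ℕ)) := by
    intro j
    have hj := (e j).2
    rw [gen_lt (by omega : 2 * g + (e j : ℕ) < 2 * g + n), fgt, FreeGroup.lift_apply_of]
    rw [if_neg (by simp)]
    have hex : ∃ k : Fin m, 2 * g + (e k : ℕ) =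
      ((⟨2 * g + (e j : ℕ), by omega⟩ : Fin (2 * g + n)) : ℕ) := ⟨j, rfl⟩
    rw [dif_pos hex]
    have hch := hex.choose_spec
    have : hex.choose = j := by
      apply e.injective
      apply Fin.ext
      have h3 : 2 * g + (e hex.choose : ℕ) = 2 * g + (e j : ℕ) := hch
      omega
    rw [this]
  have h3 : ∀ c, 2 * g ≤ c → (∀ j : Fin m, 2 * g + (e j : ℕ) ≠ c) → fgt g e (gen c) = 1 := by
    intro c hc hj
    by_cases hcn : c < 2 * g + n
    · rw [gen_lt hcn, fgt, FreeGroup.lift_apply_of]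
      rw [if_neg (by simpa using hc), dif_neg]
      rintro ⟨j, h⟩
      exact hj j h
    · rw [gen_ge (by omega), map_one]
  have h4 : ∀ c, c < 2 * g → lt g e c = c := by
    intro c hc
    unfold lt
    rw [dif_neg (by omega)]
  have h5 : ∀ j : Fin m, lt g e (2 * g + (j : ℕ)) = 2 * g + (e j : ℕ) := by
    intro j
    have hj := j.2
    unfold lt
    rw [dif_pos (by omega)]
    congr 3
    apply Fin.ext
    simp
  have hcase : ∀ c, c < 2 * g + m → c < 2 * g ∨ ∃ j : Fin m, c = 2 * g + (j : ℕ) := by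
    intro c hc
    by_cases h : c < 2 * g
    · exact Or.inl h
    · exact Or.inr ⟨⟨c - 2 * g, by omega⟩, by simp; omega⟩
  have h6 : ∀ c c', c < c' → c' < 2 * g + m → lt g e c < lt g e c' := by
    intro c c' hcc hc'
    rcases hcase c' hc' with h | ⟨j, rfl⟩
    · rw [h4 _ h, h4 _ (by omega)]; exact hcc
    · rcases hcase c (by omega) with h | ⟨k, rfl⟩
      · rw [h4 _ h, h5]; omega
      · rw [h5, h5]
        have : k < j := by rw [Fin.lt_def]; omega
        have := e.lt_iff_lt.2 this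
        rw [Fin.lt_def] at this
        omega
  have h7 : ∀ c, c < 2 * g + m → lt g e c < 2 * g + n := by
    intro c hc
    rcases hcase c hc with h | ⟨j, rfl⟩
    · rw [h4 _ h]; omega
    · rw [h5]; have := (e j).2; omega
  have h8 : ∀ c, c < 2 * g + m → inc g e (gen c) = gen (lt g e c) := by
    intro c hc
    rw [gen_lt hc, inc, FreeGroup.lift_apply_of]
  refine ⟨h1, h2, h3, h4, h5, h6, h7, h8, ?_⟩
  intro w
  have : (fgt g e).comp (inc g e) = MonoidHom.id _ := by
    apply FreeGroup.ext_hom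
    intro c
    rw [MonoidHom.comp_apply, ← gen_lt c.2, MonoidHom.id_apply, h8 _ c.2]
    rcases hcase c c.2 with h | ⟨j, hj⟩
    · rw [h4 _ h, h1 _ h]
    · rw [hj, h5, h2]
  exact DFunLike.congr_fun this w
-- END FA1

-- MODULE FA2
private theorem FA2_ext {G : Type*} [Group G] (f h : Fr g n →* G)
    (H : ∀ c, c < 2 * g + n → f (gen c) = h (gen c)) (w : Fr g n) : f w = h w := by
  have : f = h := by
    apply FreeGroup.ext_hom
    intro c
    have := H c c.2
    rw [gen_lt c.2] at this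
    exact this
  rw [this]

private theorem FA2_Bt (f : Fr g n →* Fr g m) (h1 : ∀ c, c < 2 * g → f (gen c) = gen c)
    (h2 : ∀ c, 2 * g ≤ c → f (gen c) = 1 ∨ ∃ c', 2 * g ≤ c' ∧ f (gen c) = gen c') (i : ℕ)
    (hi : i < g) (w : Fr g n) : (Bt i : MulAut (Fr g m)) (f w) = f (Bt i w) := by
  apply FA2_ext ((Bt i : MulAut (Fr g m)).toMonoidHom.comp f)
    (f.comp (Bt i : MulAut (Fr g n)).toMonoidHom) (H := ?_)
  intro c hc
  show (Bt i : MulAut (Fr g m)) (f (gen c)) = f (Bt i (gen c))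
  by_cases hci : c = 2 * i
  · subst hci
    rw [Bt_x i hi, h1 _ (by omega), map_mul, map_inv, h1 _ (by omega), h1 _ (by omega), Bt_x i hi]
  · rw [Bt_ne i c hci]
    by_cases hg : c < 2 * g
    · rw [h1 _ hg, Bt_ne i c hci]
    · rcases h2 c (by omega) with h | ⟨c', hc', h⟩
      · rw [h, map_one]
      · rw [h, Bt_ne i c' (by omega)]

private theorem FA2_Alp (f : Fr g n →* Fr g m) (h1 : ∀ c, c < 2 * g → f (gen c) = gen c)
    (s t : ℕ) (ht : t ≤ 2 * g) : f (Alp s t) = Alp s t := by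
  unfold Alp
  have : ∀ l : List ℕ, (∀ c ∈ l, c < 2 * g) → f ((l.map alp).prod) = (l.map alp).prod := by
    intro l
    induction l with
    | nil => intro _; simp
    | cons a l ih =>
      intro hl
      have ha : a < 2 * g := hl a (by simp)
      simp only [List.map_cons, List.prod_cons, map_mul]
      rw [ih (fun c hc => hl c (by simp [hc]))]
      congr 1
      unfold alp
      by_cases h : a < 2 * g ∧ a % 2 = 1
      · rw [if_pos h, if_pos h, map_mul, map_mul, map_inv, map_inv, h1 _ ha, h1 _ (by omega)]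
      · rw [if_neg h, if_neg h, h1 _ ha]
  apply this
  intro c hc
  rw [List.mem_range'_1] at hc
  omega

private theorem FA2_TP (f : Fr g n →* Fr g m) (h1 : ∀ c, c < 2 * g → f (gen c) = gen c)
    (h2 : ∀ c, 2 * g ≤ c → f (gen c) = 1 ∨ ∃ c', 2 * g ≤ c' ∧ f (gen c) = gen c') (s t : ℕ)
    (ht : t ≤ 2 * g) (w : Fr g n) : (TP s t : MulAut (Fr g m)) (f w) = f (TP s t w) := by
  have hu : ∀ c, f (ind s t (Alp s t) c) = ind s t (Alp s t) c := by
    intro c
    unfold ind
    split_ifs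
    · exact FA2_Alp f h1 s t ht
    · exact map_one f
  apply FA2_ext ((TP s t : MulAut (Fr g m)).toMonoidHom.comp f)
    (f.comp (TP s t : MulAut (Fr g n)).toMonoidHom) (H := ?_)
  intro c hc
  show (TP s t : MulAut (Fr g m)) (f (gen c)) = f (TP s t (gen c))
  rw [TP_apply, TP_apply]
  by_cases hg : c < 2 * g
  · rw [h1 _ hg]
    by_cases h : c % 2 = 1
    · rw [cj_gen_odd _ hg h, cj_gen_odd _ hg h, map_mul, map_mul, map_inv, hu, hu, h1 _ hg]
    · rw [cj_gen _ (by omega), cj_gen _ (by omega), map_mul, map_mul, map_inv, hu, h1 _ hg]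
  · have h3 : ∀ (k : ℕ) (c' : ℕ), 2 * g ≤ c' → cj (ind s t (Alp s t)) (gen c' : Fr g k) = gen c' := by
      intro k c' hc'
      rw [cj_gen _ (by omega)]
      unfold ind
      rw [if_neg (by omega)]
      simp
    rw [h3 n c (by omega)]
    rcases h2 c (by omega) with h | ⟨c', hc', h⟩
    · rw [h, map_one]
    · rw [h, h3 m c' hc']

/-- Twists without punctures. PROOF. On letters (both sides are homomorphisms in w: FreeGroup.ext_hom, gen_lt): Bt i: Bt_x, Bt_ne, FA1. TP s t with t ≤ 2g: TP s t (gen c) = u gen c u'⁻¹, u, u' ∈ {Alp s t, 1} (cj_gen, cj_gen_odd, ind; punctures c ≥ 2g ≥ t: u = 1), fgt (Alp s t) = Alp s t, inc (Alp s t) = Alp s t (t ≤ 2g: letters < 2g; as in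
HG13.cj_Alp_in by induction over the list, or Alp_cons). -/
theorem fgt_tw (e : Fin m ↪o Fin n) :
    (∀ i, i < g → ∀ w : Fr g n, (Bt i : MulAut (Fr g m)) (fgt g e w) = fgt g e (Bt i w)) ∧
    (∀ s t, s < t → t ≤ 2 * g → ∀ w : Fr g n,
      (TP s t : MulAut (Fr g m)) (fgt g e w) = fgt g e (TP s t w)) ∧
    (∀ i, i < g → ∀ w : Fr g m, (Bt i : MulAut (Fr g n)) (inc g e w) = inc g e (Bt i w)) ∧
    (∀ s t, s < t → t ≤ 2 * g → ∀ w : Fr g m,
      (TP s t : MulAut (Fr g n)) (inc g e w) = inc g e (TP s t w)) := by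
  obtain ⟨f1, f2, f3, l1, l2, l3, l4, i1, i2⟩ := fgt_facts (g := g) e
  have a1 : ∀ c, 2 * g ≤ c → fgt g e (gen c) = 1 ∨ ∃ c', 2 * g ≤ c' ∧ fgt g e (gen c) = gen c' := by
    intro c hc
    by_cases h : ∃ j : Fin m, 2 * g + (e j : ℕ) = c
    · obtain ⟨j, rfl⟩ := h
      exact Or.inr ⟨2 * g + (j : ℕ), by omega, f2 j⟩
    · push Not at h
      exact Or.inl (f3 c hc h)
  have a2 : ∀ c, c < 2 * g → inc g e (gen c) = gen c := by
    intro c hc
    rw [i1 c (by omega), l1 c hc]
  have a3 : ∀ c, 2 * g ≤ c → inc g e (gen c) = 1 ∨ ∃ c', 2 * g ≤ c' ∧ inc g e (gen c) = gen c' := by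
    intro c hc
    by_cases h : c < 2 * g + m
    · right
      refine ⟨lt g e c, ?_, i1 c h⟩
      have := l2 ⟨c - 2 * g, by omega⟩
      simp only at this
      rw [show 2 * g + (c - 2 * g) = c by omega] at this
      omega
    · left
      rw [gen_ge (by omega), map_one]
  exact ⟨fun i hi w => FA2_Bt _ f1 a1 i hi w, fun s t _ ht w => FA2_TP _ f1 a1 s t ht w,
    fun i hi w => FA2_Bt _ a2 a3 i hi w, fun s t _ ht w => FA2_TP _ a2 a3 s t ht w⟩
-- END FA2

-- MODULE FA3
private theorem FA3_ext {G : Type*} [Group G] (f h : Fr g n →* G)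
    (H : ∀ c, c < 2 * g + n → f (gen c) = h (gen c)) (w : Fr g n) : f w = h w := by
  have : f = h := by
    apply FreeGroup.ext_hom
    intro c
    have := H c c.2
    rw [gen_lt c.2] at this
    exact this
  rw [this]

/-- Kept pushes. PROOF. On letters with el_gen on both sides. L = 2g + j, L̂ = lt L = 2g + e j, ĉ = lt c. First statement: inc (el L c (gen a)) = el L̂ ĉ (gen (lt a)) for all a < 2g + m: same case of el_gen on both sides (lt is strictly increasing, lt a < 2g iff a < 2g, and then lt a = a). Second: fgt (el L̂ ĉ (gen b)) = el L c (fgt (gen b)): b = lt a: from the first and fgt ∘ inc = id.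
b ≥ 2g not in T (fgt (gen b) = 1): el L̂ ĉ (gen b) is gen b or a conjugate of gen b (b ≠ L̂, ĉ, third case excluded as b ≥ 2g), so its image is 1. -/
theorem fgt_kept (e : Fin m ↪o Fin n) (j : Fin m) (c : ℕ) (hc : c < 2 * g + (j : ℕ)) :
    (∀ w : Fr g m, (el (2 * g + (e j : ℕ)) (lt g e c) : MulAut (Fr g n)) (inc g e w) =
      inc g e ((el (2 * g + (j : ℕ)) c : MulAut (Fr g m)) w)) ∧
    (∀ w : Fr g n, (el (2 * g + (j : ℕ)) c : MulAut (Fr g m)) (fgt g e w) =
      fgt g e ((el (2 * g + (e j : ℕ)) (lt g e c) : MulAut (Fr g n)) w)) := by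
  obtain ⟨f1, f2, f3, l1, l2, l3, l4, i1, i2⟩ := fgt_facts (g := g) e
  have hj := j.2
  have hj' := (e j).2
  have hL := l2 j
  have hcL : lt g e c < 2 * g + (e j : ℕ) := by rw [← hL]; exact l3 _ _ hc (by omega)
  have hlow : ∀ a, a < 2 * g + m → 2 * g ≤ a → 2 * g ≤ lt g e a := by
    intro a ha h
    have := l2 ⟨a - 2 * g, by omega⟩
    simp only at this
    rw [show 2 * g + (a - 2 * g) = a by omega] at this
    omega
  have hinj : ∀ a b, a < 2 * g + m → b < 2 * g + m → lt g e a = lt g e b → a = b := by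
    intro a b ha hb h
    rcases lt_trichotomy a b with h1 | h1 | h1
    · have := l3 _ _ h1 hb; omega
    · exact h1
    · have := l3 _ _ h1 ha; omega
  have hmon : ∀ a b, a < 2 * g + m → b < 2 * g + m → (lt g e a < lt g e b ↔ a < b) := by
    intro a b ha hb
    constructor
    · intro h
      rcases lt_trichotomy a b with h1 | h1 | h1
      · exact h1
      · subst h1; omega
      · have := l3 _ _ h1 ha; omega
    · intro h; exact l3 _ _ h hb
  have part1 : ∀ w : Fr g m, (el (2 * g + (e j : ℕ)) (lt g e c) : MulAut (Fr g n)) (inc g e w) =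
      inc g e ((el (2 * g + (j : ℕ)) c : MulAut (Fr g m)) w) := by
    apply FA3_ext ((el (2 * g + (e j : ℕ)) (lt g e c) : MulAut (Fr g n)).toMonoidHom.comp (inc g e))
      ((inc g e).comp (el (2 * g + (j : ℕ)) c : MulAut (Fr g m)).toMonoidHom) (H := ?_)
    intro a ha
    show (el (2 * g + (e j : ℕ)) (lt g e c) : MulAut (Fr g n)) (inc g e (gen a)) =
      inc g e ((el (2 * g + (j : ℕ)) c : MulAut (Fr g m)) (gen a))
    rw [i1 a ha, el_gen _ _ _ (by omega) (by omega) hcL (l4 a ha),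
      el_gen _ _ _ (by omega) (by omega) hc ha]
    have iL : inc g e (gen (2 * g + (j : ℕ))) = gen (2 * g + (e j : ℕ)) := by
      rw [i1 _ (by omega), hL]
    have ic : inc g e (gen c) = gen (lt g e c) := i1 c (by omega)
    have ia : inc g e (gen a) = gen (lt g e a) := i1 a ha
    have e1 : (lt g e a = 2 * g + (e j : ℕ)) ↔ a = 2 * g + (j : ℕ) := by
      rw [← hL]
      exact ⟨fun h => hinj _ _ ha (by omega) h, fun h => by rw [h]⟩
    have e2 : (2 * g + (e j : ℕ) < lt g e a) ↔ 2 * g + (j : ℕ) < a := by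
      rw [← hL]; exact hmon _ _ (by omega) ha
    have e3 : (lt g e a = lt g e c) ↔ a = c :=
      ⟨fun h => hinj _ _ ha (by omega) h, fun h => by rw [h]⟩
    have e4 : (lt g e a < lt g e c) ↔ a < c := hmon _ _ ha (by omega)
    have e5 : (lt g e c < 2 * g ∧ lt g e a / 2 = lt g e c / 2 ∧ lt g e a ≠ lt g e c) ↔
        (c < 2 * g ∧ a / 2 = c / 2 ∧ a ≠ c) := by
      by_cases h0 : c < 2 * g
      · rw [l1 c h0]
        by_cases h1 : a < 2 * g
        · rw [l1 a h1]
        · have := hlow a ha (by omega)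
          constructor
          · rintro ⟨h2, h3, h4⟩; omega
          · rintro ⟨h2, h3, h4⟩; omega
      · have := hlow c (by omega) (by omega)
        constructor
        · rintro ⟨h2, h3, h4⟩; omega
        · rintro ⟨h2, h3, h4⟩; omega
    by_cases c1 : a = 2 * g + (j : ℕ)
    · rw [if_pos c1, if_pos (e1.2 c1)]
      simp only [map_mul, map_inv, iL, ic]
    · rw [if_neg c1, if_neg (fun h => c1 (e1.1 h))]
      by_cases c2 : 2 * g + (j : ℕ) < a
      · rw [if_pos c2, if_pos (e2.2 c2), ia]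
      · rw [if_neg c2, if_neg (fun h => c2 (e2.1 h))]
        by_cases c3 : c < 2 * g ∧ a / 2 = c / 2 ∧ a ≠ c
        · rw [if_pos c3, if_pos (e5.2 c3)]
          have : lt g e c = c := l1 c c3.1
          rw [this]
          by_cases c4 : c % 2 = 0
          · rw [if_pos c4, if_pos c4]
            simp only [map_mul, map_inv, iL, ic, ia, this]
          · rw [if_neg c4, if_neg c4]
            simp only [map_mul, map_inv, iL, ia]
        · rw [if_neg c3, if_neg (fun h => c3 (e5.1 h))]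
          by_cases c4 : a = c
          · rw [if_pos c4, if_pos (e3.2 c4)]
            simp only [map_mul, map_inv, iL, ic]
          · rw [if_neg c4, if_neg (fun h => c4 (e3.1 h))]
            by_cases c5 : a < c
            · rw [if_pos c5, if_pos (e4.2 c5), ia]
            · rw [if_neg c5, if_neg (fun h => c5 (e4.1 h))]
              simp only [map_mul, map_inv, iL, ic, ia]
  refine ⟨part1, ?_⟩
  apply FA3_ext ((el (2 * g + (j : ℕ)) c : MulAut (Fr g m)).toMonoidHom.comp (fgt g e))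
      ((fgt g e).comp (el (2 * g + (e j : ℕ)) (lt g e c) : MulAut (Fr g n)).toMonoidHom) (H := ?_)
  intro b hb
  show (el (2 * g + (j : ℕ)) c : MulAut (Fr g m)) (fgt g e (gen b)) =
      fgt g e ((el (2 * g + (e j : ℕ)) (lt g e c) : MulAut (Fr g n)) (gen b))
  by_cases hk : ∃ a, a < 2 * g + m ∧ lt g e a = b
  · obtain ⟨a, ha, rfl⟩ := hk
    rw [← i1 a ha, i2, part1, i2]
  · push Not at hk
    have hb1 : 2 * g ≤ b := by
      by_contra h
      exact hk b (by omega) (l1 b (by omega))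
    have hb2 : ∀ k : Fin m, 2 * g + (e k : ℕ) ≠ b := by
      intro k h
      exact hk (2 * g + (k : ℕ)) (by have := k.2; omega) (by rw [l2 k, h])
    have hf : fgt g e (gen b) = 1 := f3 b hb1 hb2
    rw [hf, map_one, el_gen _ _ _ (by omega) (by omega) hcL hb]
    rw [if_neg (fun h => hb2 j h.symm)]
    split_ifs with h1 h2 h3 h4 h5
    · exact hf.symm
    · exfalso; omega
    · exfalso; omega
    · exact absurd h4.symm (hk c (by omega))
    · exact hf.symm
    · simp only [map_mul, hf, map_inv]; group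
-- END FA3

-- MODULE FA4
private theorem FA4_ext {G : Type*} [Group G] (f h : Fr g n →* G)
    (H : ∀ c, c < 2 * g + n → f (gen c) = h (gen c)) (w : Fr g n) : f w = h w := by
  have : f = h := by
    apply FreeGroup.ext_hom
    intro c
    have := H c c.2
    rw [gen_lt c.2] at this
    exact this
  rw [this]

/-- Forgotten pushes. PROOF. On letters a with el_gen. If L is not in T: fgt (gen L) = 1, in all cases the image of the value is the image of gen a. If c ≥ 2g is not in T: fgt (gen c) = 1: a = L: z⁻¹ z z ↦ ok; third case excluded; a = c: 1; a > c: conjugation by an element with image z⁻¹z = 1. -/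
theorem fgt_lost (e : Fin m ↪o Fin n) (L c : ℕ) (h : 2 * g ≤ L) (hL : L < 2 * g + n)
    (hc : c < L) (ho : (∀ j : Fin m, 2 * g + (e j : ℕ) ≠ L) ∨
      (2 * g ≤ c ∧ ∀ j : Fin m, 2 * g + (e j : ℕ) ≠ c)) (w : Fr g n) :
    fgt g e ((el L c : MulAut (Fr g n)) w) = fgt g e w := by
  obtain ⟨f1, f2, f3, l1, l2, l3, l4, i1, i2⟩ := fgt_facts (g := g) e
  apply FA4_ext ((fgt g e).comp (el L c : MulAut (Fr g n)).toMonoidHom) (fgt g e) (H := ?_)
  intro a ha
  show fgt g e ((el L c : MulAut (Fr g n)) (gen a)) = fgt g e (gen a)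
  rw [el_gen _ _ _ h hL hc ha]
  rcases ho with ho | ⟨ho1, ho2⟩
  · have hz : fgt g e (gen L) = 1 := f3 L h ho
    split_ifs with h1 h2 h3 h4 h5 h6
    · subst h1; simp only [map_mul, map_inv, hz]; group
    · rfl
    · simp only [map_mul, map_inv, hz]; group
    · simp only [map_mul, map_inv, hz]; group
    · subst h5; simp only [map_mul, map_inv, hz]; group
    · rfl
    · simp only [map_mul, map_inv, hz]; group
  · have hz : fgt g e (gen c) = 1 := f3 c ho1 ho2
    split_ifs with h1 h2 h3 h4 h5 h6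
    · subst h1; simp only [map_mul, map_inv, hz]; group
    · rfl
    · exfalso; omega
    · exfalso; omega
    · subst h5; simp only [map_mul, map_inv, hz]; group
    · rfl
    · simp only [map_mul, map_inv, hz]; group
-- END FA4

-- MODULE FA5
/-- every generator has an image -/
private theorem FA5_gen (e : Fin m ↪o Fin n) (γ : MulAut (Fr g n)) (hγ : γ ∈ Ge g n) :
    ∃ φ : MCG g m, ∀ w : Fr g n, (φ : MulAut (Fr g m)) (fgt g e w) = fgt g e (γ w) := by
  obtain ⟨f1, f2, f3, l1, l2, l3, l4, i1, i2⟩ := fgt_facts (g := g) e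
  obtain ⟨tB, tT, uB, uT⟩ := fgt_tw (g := g) e
  rcases hγ with (⟨i, hi, rfl⟩ | ⟨s, t, hst, ht, rfl⟩) | ⟨L, c, hL, hL', hc, rfl⟩
  · exact ⟨⟨Bt i, Subgroup.subset_closure (Or.inl ⟨i, hi, rfl⟩)⟩, fun w => tB i hi w⟩
  · exact ⟨⟨TP s t, Subgroup.subset_closure (Or.inr ⟨s, t, hst, by omega, rfl⟩)⟩,
      fun w => tT s t hst ht w⟩
  · by_cases hlost : (∀ j : Fin m, 2 * g + (e j : ℕ) ≠ L) ∨
          (2 * g ≤ c ∧ ∀ j : Fin m, 2 * g + (e j : ℕ) ≠ c)
    · refine ⟨1, fun w => ?_⟩
      rw [fgt_lost e L c hL hL' hc hlost]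
      simp
    · push Not at hlost
      obtain ⟨⟨j, hj⟩, hc2⟩ := hlost
      obtain ⟨c', hc', hcc⟩ : ∃ c', c' < 2 * g + (j : ℕ) ∧ lt g e c' = c := by
        by_cases h0 : c < 2 * g
        · exact ⟨c, by omega, l1 c h0⟩
        · obtain ⟨k, hk⟩ := hc2 (by omega)
          refine ⟨2 * g + (k : ℕ), ?_, ?_⟩
          · have h1 : e k < e j := by
              rw [Fin.lt_def]; omega
            have h2 : k < j := e.lt_iff_lt.1 h1
            have h3 : (k : ℕ) < (j : ℕ) := h2
            omega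
          · rw [l2 k, hk]
      subst hcc
      subst hj
      exact ⟨⟨el (2 * g + j) c', el_mem _ _ (by omega) (by have := j.2; omega) hc'⟩,
        fun w => (fgt_kept e j c' hc').2 w⟩

/-- THE FORGETFUL HOMOMORPHISM. PROOF. PB3.hom_of_rel with S = Ge g n, R γ φ := φ ∈ MCG g m ∧ ∀ w, φ (fgt w) = fgt (γ w), H = MCG g m (take H = the subgroup type, R γ φ := ∀ w, (φ : MulAut) (fgt w) = fgt (γ w)). hu: fgt is surjective (fgt ∘ inc = id). hi: γ⁻¹: φ⁻¹ (fgt w) = fgt (γ⁻¹ w): apply φ. hS: FA2 (Tw0; these twists are in MCG g m), FA3, FA4 (Ge: a puncture L is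
2g + e j or not; c < L: c < 2g or c ∈ T: c = lt c'; c' < 2g + j by strict monotonicity; else lost, φ = 1). closure (Ge g n) = MCG g n (closure_Ge): transport by Subgroup.inclusion / equality. For the values: R γ x → F γ = x. The third part: (F γ = 1) for lost pushes. -/
theorem exists_F (e : Fin m ↪o Fin n) : ∃ F : MCG g n →* MCG g m, IsForgetful e F ∧
    (∀ γ : MCG g n, ∀ φ : MCG g m, (∀ w : Fr g n, (φ : MulAut (Fr g m)) (fgt g e w) =
      fgt g e ((γ : MulAut (Fr g n)) w)) → F γ = φ) := by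
  obtain ⟨f1, f2, f3, l1, l2, l3, l4, i1, i2⟩ := fgt_facts (g := g) e
  let R : MulAut (Fr g n) → MCG g m → Prop := fun γ φ =>
    ∀ w : Fr g n, (φ : MulAut (Fr g m)) (fgt g e w) = fgt g e (γ w)
  have h1 : R 1 1 := fun w => rfl
  have hm : ∀ γ γ' φ φ', R γ φ → R γ' φ' → R (γ * γ') (φ * φ') := by
    intro γ γ' φ φ' h h' w
    show (φ : MulAut (Fr g m)) ((φ' : MulAut (Fr g m)) (fgt g e w)) = fgt g e (γ (γ' w))
    rw [h' w, h (γ' w)]
  have hi : ∀ γ φ, R γ φ → R γ⁻¹ φ⁻¹ := by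
    intro γ φ h w
    show (φ : MulAut (Fr g m))⁻¹ (fgt g e w) = fgt g e (γ⁻¹ w)
    have h2 := h (γ⁻¹ w)
    rw [MulAut.apply_inv_self] at h2
    rw [← h2, MulAut.inv_apply_self]
  have hu : ∀ φ, R 1 φ → φ = 1 := by
    intro φ h
    apply Subtype.ext
    apply MulEquiv.ext
    intro v
    have := h (inc g e v)
    rw [i2] at this
    rw [this]
    show fgt g e (inc g e v) = v
    rw [i2]
  have hS : ∀ γ ∈ Ge g n, ∃ φ, R γ φ := fun γ hγ => FA5_gen e γ hγ
  obtain ⟨q, hq⟩ := Pool.Agent.PB3.hom_of_rel (Ge g n) R h1 hm hi hu hS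
  let F : MCG g n →* MCG g m := q.comp (MulEquiv.subgroupCongr closure_Ge.symm).toMonoidHom
  have hval : ∀ γ : MCG g n, ∀ φ : MCG g m, (∀ w : Fr g n, (φ : MulAut (Fr g m)) (fgt g e w) =
      fgt g e ((γ : MulAut (Fr g n)) w)) → F γ = φ := by
    intro γ φ h
    exact hq ⟨γ, by rw [closure_Ge]; exact γ.2⟩ φ h
  refine ⟨F, ?_, hval⟩
  intro γ w
  have hex : ∃ φ : MCG g m, R γ φ := by
    have hγ : (γ : MulAut (Fr g n)) ∈ Subgroup.closure (Ge g n) := by
      rw [closure_Ge]; exact γ.2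
    generalize (γ : MulAut (Fr g n)) = γ' at hγ
    induction hγ using Subgroup.closure_induction with
    | mem γ hγ => exact hS γ hγ
    | one => exact ⟨1, h1⟩
    | mul γ γ' _ _ hx hx' =>
      obtain ⟨x, hx⟩ := hx
      obtain ⟨x', hx'⟩ := hx'
      exact ⟨x * x', hm _ _ _ _ hx hx'⟩
    | inv γ _ hx =>
      obtain ⟨x, hx⟩ := hx
      exact ⟨x⁻¹, hi _ _ hx⟩
  obtain ⟨φ, hφ⟩ := hex
  rw [hval γ φ hφ]
  exact hφ w
-- END FA5

-- MODULE FB1
private theorem FB1_Rt (e : Fin m ↪o Fin n) (φ : MulAut (Fr g n))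
    (h : ∀ c, 2 * g ≤ c → φ (gen c) = gen c) (l : ℕ) : φ (Rt g e l) = Rt g e l := by
  unfold Rt
  rw [map_list_prod, List.map_map]
  congr 1
  apply List.map_congr_left
  intro j _
  show φ (if l < 2 * g + (e j : ℕ) then gen (2 * g + (e j : ℕ)) else 1) = _
  split_ifs
  · exact h _ (by omega)
  · exact map_one φ

/-- The moved loops of the forgotten punctures are fixed by the twists without punctures. PROOF. They fix gen c for c ≥ 2g (Md_Lo with L = 2g, or directly), so Rt and gen l. -/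
theorem zh_tw (e : Fin m ↪o Fin n) (φ : MulAut (Fr g n)) (hφ : φ ∈ Tw0 g n) (l : ℕ)
    (hl : 2 * g ≤ l) : φ (zh g e l) = zh g e l := by
  have h0 : φ ∈ (Md (2 * g) : Subgroup (MulAut (Fr g n))) := Subgroup.subset_closure hφ
  have h1 : ∀ c, 2 * g ≤ c → φ (gen c) = gen c := fun c hc =>
    ((Md_Lo (2 * g) le_rfl φ h0).2 c hc).1
  unfold zh
  rw [map_mul, map_mul, map_inv, FB1_Rt e φ h1, h1 l hl]
-- END FB1

-- MODULE FB2
/-- the product of the letters `> l` of a list -/
private def FB2_RL (ls : List ℕ) (l : ℕ) : Fr g n :=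
  (ls.map fun v => if l < v then gen v else 1).prod

private theorem FB2_congr (ls : List ℕ) (l l' : ℕ) (h : ∀ v ∈ ls, (l < v ↔ l' < v)) :
    (FB2_RL ls l : Fr g n) = FB2_RL ls l' := by
  unfold FB2_RL
  congr 1
  apply List.map_congr_left
  intro v hv
  have := h v hv
  by_cases h1 : l < v
  · rw [if_pos h1, if_pos (this.1 h1)]
  · rw [if_neg h1, if_neg (fun h2 => h1 (this.2 h2))]

private theorem FB2_succ (ls : List ℕ) (hs : ls.Pairwise (· < ·)) (l : ℕ) :
    (FB2_RL ls l : Fr g n) = (if l + 1 ∈ ls then gen (l + 1) else 1) * FB2_RL ls (l + 1) := by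
  induction ls with
  | nil => simp [FB2_RL]
  | cons a ls ih =>
    rw [List.pairwise_cons] at hs
    have ih := ih hs.2
    have hc : ∀ k, (FB2_RL (a :: ls) k : Fr g n) = (if k < a then gen a else 1) * FB2_RL ls k := by
      intro k; simp [FB2_RL]
    rw [hc, hc]
    rcases lt_trichotomy a (l + 1) with h | h | h
    · rw [if_neg (by omega), if_neg (by omega : ¬ l + 1 < a), one_mul, one_mul, ih]
      have : (l + 1 ∈ a :: ls) ↔ l + 1 ∈ ls := by
        rw [List.mem_cons]
        exact ⟨fun h' => h'.resolve_left (by omega), Or.inr⟩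
      by_cases h1 : l + 1 ∈ ls
      · rw [if_pos h1, if_pos (this.2 h1)]
      · rw [if_neg h1, if_neg (fun h2 => h1 (this.1 h2))]
    · subst h
      rw [if_pos (by omega), if_neg (by omega : ¬ l + 1 < l + 1), one_mul, if_pos (by simp)]
      rw [FB2_congr ls l (l + 1) (fun v hv => by have := hs.1 v hv; omega)]
    · rw [if_pos (by omega), if_pos h]
      have h0 : l + 1 ∉ a :: ls := by
        rw [List.mem_cons]
        rintro (h' | h')
        · omega
        · have := hs.1 _ h'; omega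
      rw [if_neg h0, one_mul]
      rw [FB2_congr ls l (l + 1) (fun v hv => by have := hs.1 v hv; omega)]

private theorem FB2_Rt (e : Fin m ↪o Fin n) (l : ℕ) :
    Rt g e l = FB2_RL ((List.finRange m).map fun j => 2 * g + (e j : ℕ)) l := by
  unfold Rt FB2_RL
  rw [List.map_map]
  rfl

private theorem FB2_step (e : Fin m ↪o Fin n) (l : ℕ) :
    ((∃ k : Fin m, 2 * g + (e k : ℕ) = l + 1) → Rt g e l = gen (l + 1) * Rt g e (l + 1)) ∧
    ((¬ ∃ k : Fin m, 2 * g + (e k : ℕ) = l + 1) → Rt g e l = Rt g e (l + 1)) := by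
  have hs : ((List.finRange m).map fun j => 2 * g + (e j : ℕ)).Pairwise (· < ·) := by
    rw [List.pairwise_map]
    apply (List.pairwise_lt_finRange m).imp
    intro a b hab
    have := e.lt_iff_lt.2 hab
    rw [Fin.lt_def] at this
    omega
  have h := FB2_succ (g := g) (n := n) _ hs l
  rw [← FB2_Rt, ← FB2_Rt] at h
  have hm : (l + 1 ∈ (List.finRange m).map fun j => 2 * g + (e j : ℕ)) ↔
      ∃ k : Fin m, 2 * g + (e k : ℕ) = l + 1 := by
    simp
  constructor
  · intro h1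
    rw [h, if_pos (hm.2 h1)]
  · intro h1
    rw [h, if_neg (fun h2 => h1 (hm.1 h2)), one_mul]

private theorem FB2_top (e : Fin m ↪o Fin n) (l : ℕ) (hl : 2 * g + n ≤ l) : Rt g e l = 1 := by
  unfold Rt
  apply List.prod_eq_one
  intro x hx
  rw [List.mem_map] at hx
  obtain ⟨j, _, rfl⟩ := hx
  have := (e j).2
  rw [if_neg (by omega)]

private theorem FB2_main (e : Fin m ↪o Fin n) (j : Fin m) (c : ℕ) (hc : c < 2 * g + (e j : ℕ))
    (hc' : c < 2 * g ∨ ∃ k : Fin m, 2 * g + (e k : ℕ) = c) (d : ℕ) : ∀ l, 2 * g ≤ l →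
    2 * g + n ≤ l + d →
    (el (2 * g + (e j : ℕ)) c : MulAut (Fr g n)) (Rt g e l) =
      if c ≤ l ∧ l < 2 * g + (e j : ℕ) then
        ((gen (2 * g + (e j : ℕ)))⁻¹ * (gen c)⁻¹ * gen (2 * g + (e j : ℕ)) * gen c) * Rt g e l
      else Rt g e l := by
  have hj := (e j).2
  induction d with
  | zero =>
    intro l hl h
    rw [FB2_top e l (by omega), map_one, if_neg (by omega)]
  | succ d ih =>
    intro l hl h
    have ih := ih (l + 1) (by omega) (by omega)
    by_cases hk : ∃ k : Fin m, 2 * g + (e k : ℕ) = l + 1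
    · obtain ⟨k, hk⟩ := hk
      rw [(FB2_step e l).1 ⟨k, hk⟩, map_mul, ih]
      have hlt : l + 1 < 2 * g + n := by have := (e k).2; omega
      rw [el_gen _ _ _ (by omega) (by omega) hc hlt]
      by_cases c1 : l + 1 = 2 * g + (e j : ℕ)
      · rw [if_pos c1, if_neg (by omega), if_pos (by omega), ← c1]
        group
      · rw [if_neg c1]
        by_cases c2 : 2 * g + (e j : ℕ) < l + 1
        · rw [if_pos c2, if_neg (by omega), if_neg (by omega)]
        · rw [if_neg c2, if_neg (by omega)]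
          by_cases c3 : l + 1 = c
          · rw [if_pos c3, if_pos (by omega), if_neg (by omega), c3]
            group
          · rw [if_neg c3]
            by_cases c4 : l + 1 < c
            · rw [if_pos c4, if_neg (by omega), if_neg (by omega)]
            · rw [if_neg c4, if_pos (by omega), if_pos (by omega)]
              group
    · rw [(FB2_step e l).2 hk, ih]
      have h1 : (c ≤ l + 1 ∧ l + 1 < 2 * g + (e j : ℕ)) ↔ (c ≤ l ∧ l < 2 * g + (e j : ℕ)) := by
        have h2 : l + 1 ≠ c := by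
          rintro rfl
          rcases hc' with h3 | h3
          · omega
          · exact hk h3
        have h3 : l + 1 ≠ 2 * g + (e j : ℕ) := fun h4 => hk ⟨j, h4.symm⟩
        omega
      by_cases h2 : c ≤ l ∧ l < 2 * g + (e j : ℕ)
      · rw [if_pos h2, if_pos (h1.2 h2)]
      · rw [if_neg h2, if_neg (fun h3 => h2 (h1.1 h3))]

/-- The value of a kept push on Rt. L = 2g + e j (z = gen L), c < L with c < 2g or c = 2g + e k, e k < e j, h = z⁻¹c⁻¹zc. PROOF. Rt g e l = product of the kept letters > l in increasing order. If l > L: all letters > L: fixed. l = L excluded. If c < l < L: Rt = b z r with b the product of the kept letters strictly between l and L, r those > L: el b = h b h⁻¹ (they are > c, not in the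
handle of c), el z = z⁻¹c⁻¹zcz = h z, so el (b z) = h b z and el Rt = h Rt. If l < c (then c ≥ 2g as l ≥ 2g): Rt = a c b z r, a the kept letters between l and c: el = a (z⁻¹cz) h b h⁻¹ h z r = a c b z r since z⁻¹cz h = z⁻¹cz z⁻¹c⁻¹zc = c. (Formal: the list product over List.finRange m of f j' splits at j; or: prove by induction over the list a statement about
partial products: for the elements j' of List.finRange m in increasing order. Alternative: compare el (Rt) by downward induction on l from 2g+n: Rt l = (if l+1 ∈ T then gen (l+1) else 1) * Rt (l+1).) -/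
theorem el_Rt (e : Fin m ↪o Fin n) (j : Fin m) (c l : ℕ) (hc : c < 2 * g + (e j : ℕ))
    (hc' : c < 2 * g ∨ ∃ k : Fin m, 2 * g + (e k : ℕ) = c) (hl : 2 * g ≤ l)
    (hl' : ∀ k : Fin m, 2 * g + (e k : ℕ) ≠ l) :
    (el (2 * g + (e j : ℕ)) c : MulAut (Fr g n)) (Rt g e l) =
      if c < l ∧ l < 2 * g + (e j : ℕ) then
        ((gen (2 * g + (e j : ℕ)))⁻¹ * (gen c)⁻¹ * gen (2 * g + (e j : ℕ)) * gen c) * Rt g e l
      else Rt g e l := by
  rw [FB2_main e j c hc hc' (2 * g + n) l hl (by omega)]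
  have h0 : l ≠ c := by
    rintro rfl
    rcases hc' with h3 | ⟨k, h3⟩
    · omega
    · exact hl' k h3
  have h1 : (c ≤ l ∧ l < 2 * g + (e j : ℕ)) ↔ (c < l ∧ l < 2 * g + (e j : ℕ)) := by omega
  by_cases h2 : c < l ∧ l < 2 * g + (e j : ℕ)
  · rw [if_pos h2, if_pos (h1.2 h2)]
  · rw [if_neg h2, if_neg (fun h3 => h2 (h1.1 h3))]
-- END FB2

-- MODULE FB3
/-- PROOF. FB2 and el_gen for gen l (l ≥ 2g, l ≠ L, l ≠ c): l > L or l < c: gen l fixed; c < l < L: gen l ↦ h gen l h⁻¹, Rt ↦ h Rt: zh ↦ (h Rt)⁻¹ h gen l h⁻¹ h Rt = zh. (l ≥ 2g + n: gen l = 1, zh = 1.) -/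
theorem zh_el (e : Fin m ↪o Fin n) (j : Fin m) (c l : ℕ) (hc : c < 2 * g + (e j : ℕ))
    (hc' : c < 2 * g ∨ ∃ k : Fin m, 2 * g + (e k : ℕ) = c) (hl : 2 * g ≤ l)
    (hl' : ∀ k : Fin m, 2 * g + (e k : ℕ) ≠ l) :
    (el (2 * g + (e j : ℕ)) c : MulAut (Fr g n)) (zh g e l) = zh g e l := by
  have hj := (e j).2
  have h1 := el_Rt e j c l hc hc' hl hl'
  by_cases hln : l < 2 * g + n
  · have h2 := el_gen (g := g) (n := n) (2 * g + (e j : ℕ)) c l (by omega) (by omega) hc hln
    have h0 : l ≠ c := by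
      rintro rfl
      rcases hc' with h3 | ⟨k, h3⟩
      · omega
      · exact hl' k h3
    have h3 : l ≠ 2 * g + (e j : ℕ) := fun h => hl' j h.symm
    rw [if_neg h3] at h2
    unfold zh
    rw [map_mul, map_mul, map_inv, h1, h2]
    by_cases c2 : 2 * g + (e j : ℕ) < l
    · rw [if_neg (show ¬ (c < l ∧ l < 2 * g + (e j : ℕ)) by omega), if_pos c2]
    · rw [if_neg c2, if_neg (show ¬ (c < 2 * g ∧ l / 2 = c / 2 ∧ l ≠ c) by omega), if_neg h0]
      by_cases c3 : l < c
      · rw [if_neg (show ¬ (c < l ∧ l < 2 * g + (e j : ℕ)) by omega), if_pos c3]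
      · rw [if_pos (show (c < l ∧ l < 2 * g + (e j : ℕ)) by omega), if_neg c3]
        group
  · have : zh g e l = 1 := by
      unfold zh
      rw [gen_ge (by omega)]
      group
    rw [this, map_one]
-- END FB3

-- MODULE FB4
private def FB4_R (e : Fin m ↪o Fin n) (φ : MulAut (Fr g m)) (γ : MCG g n) : Prop :=
  (∀ w : Fr g m, (γ : MulAut (Fr g n)) (inc g e w) = inc g e (φ w)) ∧
    ∀ l, 2 * g ≤ l → (∀ k : Fin m, 2 * g + (e k : ℕ) ≠ l) →
      (γ : MulAut (Fr g n)) (zh g e l) = zh g e l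

private theorem FB4_tw (e : Fin m ↪o Fin n) (φ : MulAut (Fr g m)) (hφ : φ ∈ Tw0 g m) :
    ∃ γ : MCG g n, FB4_R e φ γ := by
  obtain ⟨tB, tT, uB, uT⟩ := fgt_tw (g := g) e
  rcases hφ with ⟨i, hi, rfl⟩ | ⟨s, t, hst, ht, rfl⟩
  · exact ⟨⟨Bt i, Subgroup.subset_closure (Or.inl ⟨i, hi, rfl⟩)⟩, fun w => uB i hi w,
      fun l hl _ => zh_tw e _ (Or.inl ⟨i, hi, rfl⟩) l hl⟩
  · exact ⟨⟨TP s t, Subgroup.subset_closure (Or.inr ⟨s, t, hst, by omega, rfl⟩)⟩,
      fun w => uT s t hst ht w, fun l hl _ => zh_tw e _ (Or.inr ⟨s, t, hst, ht, rfl⟩) l hl⟩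

private theorem FB4_el (e : Fin m ↪o Fin n) (j : Fin m) (c : ℕ) (hc : c < 2 * g + (j : ℕ)) :
    FB4_R e (el (2 * g + (j : ℕ)) c : MulAut (Fr g m)) (ell g n (2 * g + (e j : ℕ)) (lt g e c)) := by
  obtain ⟨f1, f2, f3, l1, l2, l3, l4, i1, i2⟩ := fgt_facts (g := g) e
  have hj := j.2
  have hj' := (e j).2
  have hcL : lt g e c < 2 * g + (e j : ℕ) := by rw [← l2 j]; exact l3 _ _ hc (by omega)
  unfold FB4_R
  rw [ell_val _ _ (by omega) (by omega) hcL]
  refine ⟨fun w => (fgt_kept e j c hc).1 w, fun l hl hl' => zh_el e j _ l hcL ?_ hl hl'⟩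
  by_cases h : c < 2 * g
  · left; rw [l1 c h]; exact h
  · right
    refine ⟨⟨c - 2 * g, by omega⟩, ?_⟩
    rw [← l2]
    simp only
    rw [show 2 * g + (c - 2 * g) = c by omega]

private theorem FB4_gen (e : Fin m ↪o Fin n) (φ : MulAut (Fr g m)) (hφ : φ ∈ Ge g m) :
    ∃ γ : MCG g n, FB4_R e φ γ := by
  rcases hφ with hφ | ⟨L, c, hL, hL', hc, rfl⟩
  · exact FB4_tw e φ hφ
  · obtain ⟨j, rfl⟩ : ∃ j : Fin m, L = 2 * g + (j : ℕ) := ⟨⟨L - 2 * g, by omega⟩, by simp; omega⟩
    exact ⟨_, FB4_el e j c hc⟩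

/-- THE SECTION. PROOF. PB3.hom_of_rel with S = Ge g m, H = MCG g n, R φ γ := (∀ w, γ (inc w) = inc (φ w)) ∧ ∀ l, 2g ≤ l → (∀ k, 2g + e k ≠ l) → γ (zh l) = zh l. hu: the range of inc and the zh l generate Fr g n: gen l = Rt l * zh l * (Rt l)⁻¹ and Rt l is in the range of inc (product of gen (2g + e j) = inc (gen (2g + j))); so γ = 1. hS: FA2 with Tw0, FB1; FA3 with FB3
(L = 2g + j, c < L, lt c < 2g or lt c = 2g + e k). closure (Ge g m) = MCG g m (closure_Ge). The values by the uniqueness. -/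
theorem exists_S (e : Fin m ↪o Fin n) : ∃ S : MCG g m →* MCG g n,
    (∀ (φ : MCG g m) (γ : MCG g n), (φ : MulAut (Fr g m)) ∈ Tw0 g m →
      (γ : MulAut (Fr g n)) ∈ Tw0 g n → (∀ w : Fr g m, (γ : MulAut (Fr g n)) (inc g e w) =
        inc g e ((φ : MulAut (Fr g m)) w)) → S φ = γ) ∧
    (∀ (j : Fin m) (c : ℕ), c < 2 * g + (j : ℕ) →
      S (ell g m (2 * g + j) c) = ell g n (2 * g + (e j : ℕ)) (lt g e c)) := by
  obtain ⟨f1, f2, f3, l1, l2, l3, l4, i1, i2⟩ := fgt_facts (g := g) e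
  have h1 : FB4_R e (1 : MulAut (Fr g m)) (1 : MCG g n) := ⟨fun w => rfl, fun l _ _ => rfl⟩
  have hm : ∀ φ φ' (γ γ' : MCG g n), FB4_R e φ γ → FB4_R e φ' γ' →
      FB4_R e (φ * φ') (γ * γ') := by
    intro φ φ' γ γ' h h'
    refine ⟨fun w => ?_, fun l hl hl' => ?_⟩
    · show (γ : MulAut (Fr g n)) ((γ' : MulAut (Fr g n)) (inc g e w)) = inc g e (φ (φ' w))
      rw [h'.1 w, h.1 (φ' w)]
    · show (γ : MulAut (Fr g n)) ((γ' : MulAut (Fr g n)) (zh g e l)) = zh g e l
      rw [h'.2 l hl hl', h.2 l hl hl']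
  have hi : ∀ φ (γ : MCG g n), FB4_R e φ γ → FB4_R e φ⁻¹ γ⁻¹ := by
    intro φ γ h
    refine ⟨fun w => ?_, fun l hl hl' => ?_⟩
    · show (γ : MulAut (Fr g n))⁻¹ (inc g e w) = inc g e (φ⁻¹ w)
      have h2 := h.1 (φ⁻¹ w)
      rw [MulAut.apply_inv_self] at h2
      rw [← h2, MulAut.inv_apply_self]
    · show (γ : MulAut (Fr g n))⁻¹ (zh g e l) = zh g e l
      have h2 := h.2 l hl hl'
      conv_lhs => rw [← h2]
      rw [MulAut.inv_apply_self]
  have hu : ∀ γ : MCG g n, FB4_R e (1 : MulAut (Fr g m)) γ → γ = 1 := by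
    intro γ h
    have hkept : ∀ j : Fin m, (γ : MulAut (Fr g n)) (gen (2 * g + (e j : ℕ))) =
        gen (2 * g + (e j : ℕ)) := by
      intro j
      have h3 := h.1 (gen (2 * g + (j : ℕ)))
      rw [i1 _ (by have := j.2; omega), l2] at h3
      rw [h3]
      show inc g e (gen (2 * g + (j : ℕ))) = _
      rw [i1 _ (by have := j.2; omega), l2]
    have hRt : ∀ l, (γ : MulAut (Fr g n)) (Rt g e l) = Rt g e l := by
      intro l
      unfold Rt
      rw [map_list_prod, List.map_map]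
      congr 1
      apply List.map_congr_left
      intro j _
      show (γ : MulAut (Fr g n)) (if l < 2 * g + (e j : ℕ) then gen (2 * g + (e j : ℕ)) else 1) = _
      split_ifs
      · exact hkept j
      · exact map_one _
    apply Subtype.ext
    apply aut_ext
    intro a ha
    show (γ : MulAut (Fr g n)) (gen a) = gen a
    by_cases h2 : a < 2 * g
    · have h3 := h.1 (gen a)
      rw [i1 _ (by omega), l1 a h2] at h3
      rw [h3]
      show inc g e (gen a) = _
      rw [i1 _ (by omega), l1 a h2]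
    · by_cases h3 : ∃ j : Fin m, 2 * g + (e j : ℕ) = a
      · obtain ⟨j, rfl⟩ := h3
        exact hkept j
      · push Not at h3
        have h4 := h.2 a (by omega) h3
        have h5 : (gen a : Fr g n) = Rt g e a * zh g e a * (Rt g e a)⁻¹ := by
          unfold zh; group
        rw [h5, map_mul, map_mul, map_inv, h4, hRt]
  obtain ⟨q, hq⟩ := Pool.Agent.PB3.hom_of_rel (Ge g m) (FB4_R (n := n) e) h1 hm hi hu
    (fun φ hφ => FB4_gen e φ hφ)
  let S : MCG g m →* MCG g n := q.comp (MulEquiv.subgroupCongr closure_Ge.symm).toMonoidHom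
  have hval : ∀ (φ : MCG g m) (γ : MCG g n), FB4_R e (φ : MulAut (Fr g m)) γ → S φ = γ := by
    intro φ γ h
    exact hq ⟨φ, by rw [closure_Ge]; exact φ.2⟩ γ h
  refine ⟨S, fun φ γ hφ hγ h => hval φ γ ⟨h, fun l hl _ => zh_tw e _ hγ l hl⟩, fun j c hc => ?_⟩
  apply hval
  rw [ell_val _ _ (by omega) (by have := j.2; omega) hc]
  exact FB4_el e j c hc
-- END FB4

-- MODULE FC1
/-- EVERY ELEMENT IS S (F γ) TIMES AN ELEMENT OF KT. PROOF. T = image of e. The set of γ with (S (F γ))⁻¹ * γ ∈ K := KT g n T is a subgroup since K is normal (product: (S F γ')⁻¹ ((S F γ)⁻¹ γ) γ' = ((S F γ')⁻¹ k (S F γ')) (S F γ')⁻¹ γ'). By MCG_top check the generators: γ ∈ Tw0 g n: γ = Bt i or TP s t, F γ = the same twist in MCG g m (FA2, the uniqueness part of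
exists_F), S of it = γ (exists_S (1), FA2). γ = ell g n L c: L = 2g + e j and c = lt c' (c < 2g or c ∈ T), c' < 2g + j: F γ = ell g m (2g+j) c' (FA3, ell_val), S of it = γ. Otherwise F γ = 1 (FA4) and γ ∈ K: L = 2g + s, s not in T, or c = 2g + s, s not in T (definition of KT, Subgroup.subset_normalClosure). -/
theorem SF_KT (e : Fin m ↪o Fin n) (F : MCG g n →* MCG g m) (hF : IsForgetful e F)
    (hF' : ∀ γ : MCG g n, ∀ φ : MCG g m, (∀ w : Fr g n, (φ : MulAut (Fr g m)) (fgt g e w) =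
      fgt g e ((γ : MulAut (Fr g n)) w)) → F γ = φ) (S : MCG g m →* MCG g n)
    (hS : ∀ (φ : MCG g m) (γ : MCG g n), (φ : MulAut (Fr g m)) ∈ Tw0 g m →
      (γ : MulAut (Fr g n)) ∈ Tw0 g n → (∀ w : Fr g m, (γ : MulAut (Fr g n)) (inc g e w) =
        inc g e ((φ : MulAut (Fr g m)) w)) → S φ = γ)
    (hS' : ∀ (j : Fin m) (c : ℕ), c < 2 * g + (j : ℕ) →
      S (ell g m (2 * g + j) c) = ell g n (2 * g + (e j : ℕ)) (lt g e c))
    (T : Finset (Fin n)) (hT : ∀ s, s ∈ T ↔ s ∈ Set.range e) (γ : MCG g n) :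
    (S (F γ))⁻¹ * γ ∈ KT g n T := by
  classical
  have hnorm : (KT g n T).Normal := Subgroup.normalClosure_normal
  obtain ⟨f1, f2, f3, l1, l2, l3, l4, i1, i2⟩ := fgt_facts (g := g) e
  obtain ⟨tB, tT, uB, uT⟩ := fgt_tw (g := g) e
  have hmem : γ ∈ (⊤ : Subgroup (MCG g n)) := Subgroup.mem_top γ
  rw [MCG_top] at hmem
  induction hmem using Subgroup.closure_induction with
  | one => simp only [map_one, inv_one, mul_one]; exact Subgroup.one_mem _
  | mul γ γ' _ _ h1 h2 =>
    have h3 := hnorm.conj_mem _ h1 (S (F γ'))⁻¹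
    have h4 := Subgroup.mul_mem _ h3 h2
    have e1 : (S (F γ'))⁻¹ * ((S (F γ))⁻¹ * γ) * ((S (F γ'))⁻¹)⁻¹ * ((S (F γ'))⁻¹ * γ') =
        (S (F (γ * γ')))⁻¹ * (γ * γ') := by
      rw [map_mul, map_mul]; group
    rwa [e1] at h4
  | inv γ _ h1 =>
    have h2 := hnorm.conj_mem _ (Subgroup.inv_mem _ h1) (S (F γ))
    have e1 : S (F γ) * ((S (F γ))⁻¹ * γ)⁻¹ * (S (F γ))⁻¹ = (S (F γ⁻¹))⁻¹ * γ⁻¹ := by
      rw [map_inv, map_inv]; group
    rwa [e1] at h2
  | mem γ hγ =>
    rcases hγ with hγ | ⟨L, c, hL, hL', hc, rfl⟩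
    · rcases hγ with ⟨i, hi, hγ⟩ | ⟨s, t, hst, ht, hγ⟩
      · have hm : (Bt i : MulAut (Fr g m)) ∈ MCG g m := Subgroup.subset_closure (Or.inl ⟨i, hi, rfl⟩)
        have h1 : F γ = ⟨Bt i, hm⟩ := hF' _ _ (fun w => by rw [hγ]; exact tB i hi w)
        have h2 : S (F γ) = γ := by
          rw [h1]
          exact hS _ _ (Or.inl ⟨i, hi, rfl⟩) (Or.inl ⟨i, hi, hγ⟩) (fun w => by rw [hγ]; exact uB i hi w)
        rw [h2, inv_mul_cancel]
        exact Subgroup.one_mem _
      · have hm : (TP s t : MulAut (Fr g m)) ∈ MCG g m :=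
          Subgroup.subset_closure (Or.inr ⟨s, t, hst, by omega, rfl⟩)
        have h1 : F γ = ⟨TP s t, hm⟩ := hF' _ _ (fun w => by rw [hγ]; exact tT s t hst ht w)
        have h2 : S (F γ) = γ := by
          rw [h1]
          exact hS _ _ (Or.inr ⟨s, t, hst, ht, rfl⟩) (Or.inr ⟨s, t, hst, ht, hγ⟩)
            (fun w => by rw [hγ]; exact uT s t hst ht w)
        rw [h2, inv_mul_cancel]
        exact Subgroup.one_mem _
    · by_cases hlost : (∀ j : Fin m, 2 * g + (e j : ℕ) ≠ L) ∨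
          (2 * g ≤ c ∧ ∀ j : Fin m, 2 * g + (e j : ℕ) ≠ c)
      · have h1 : F (ell g n L c) = 1 := hF' _ _ (fun w => by
          rw [ell_val L c hL hL' hc, fgt_lost e L c hL hL' hc hlost]
          simp)
        rw [h1, map_one, inv_one, one_mul]
        apply Subgroup.subset_normalClosure
        rcases hlost with h2 | ⟨h2, h3⟩
        · refine ⟨⟨L - 2 * g, by omega⟩, ?_, Or.inl ⟨c, ?_, ?_⟩⟩
          · rw [hT]
            rintro ⟨j, hj⟩
            apply h2 j
            rw [hj]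
            show 2 * g + (L - 2 * g) = L
            omega
          · show c < 2 * g + (L - 2 * g)
            omega
          · show _ = ell g n (2 * g + (L - 2 * g)) c
            rw [show 2 * g + (L - 2 * g) = L by omega]
        · refine ⟨⟨c - 2 * g, by omega⟩, ?_, Or.inr ⟨L, ?_, hL', ?_⟩⟩
          · rw [hT]
            rintro ⟨j, hj⟩
            apply h3 j
            rw [hj]
            show 2 * g + (c - 2 * g) = c
            omega
          · show 2 * g + (c - 2 * g) < L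
            omega
          · show _ = ell g n L (2 * g + (c - 2 * g))
            rw [show 2 * g + (c - 2 * g) = c by omega]
      · push Not at hlost
        obtain ⟨⟨j, hj⟩, hc2⟩ := hlost
        obtain ⟨c', hc', hcc⟩ : ∃ c', c' < 2 * g + (j : ℕ) ∧ lt g e c' = c := by
          by_cases h0 : c < 2 * g
          · exact ⟨c, by omega, l1 c h0⟩
          · obtain ⟨k, hk⟩ := hc2 (by omega)
            refine ⟨2 * g + (k : ℕ), ?_, ?_⟩
            · have h1 : e k < e j := by
                rw [Fin.lt_def]; omega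
              have h2 : k < j := e.lt_iff_lt.1 h1
              have h3 : (k : ℕ) < (j : ℕ) := h2
              omega
            · rw [l2 k, hk]
        subst hcc
        subst hj
        have hm' : (ell g m (2 * g + j) c' : MulAut (Fr g m)) = el (2 * g + j) c' :=
          ell_val _ _ (by omega) (by have := j.2; omega) hc'
        have h1 : F (ell g n (2 * g + (e j : ℕ)) (lt g e c')) = ell g m (2 * g + j) c' :=
          hF' _ _ (fun w => by
            rw [hm', ell_val _ _ hL hL' hc]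
            exact (fgt_kept e j c' hc').2 w)
        rw [h1, hS' j c' hc', inv_mul_cancel]
        exact Subgroup.one_mem _
-- END FC1

-- MODULE FC2
/-- THE THEOREM. PROOF. T from core_semis; e = T.orderEmbOfFin rfl : Fin T.card ↪o Fin n (range = T); F, S from exists_F, exists_S; σ = ρ.comp S (as MonoidHom); H = {γ | ρ γ = σ (F γ)} is a subgroup (ρ and σ ∘ F are homomorphisms; inverses: ρ γ⁻¹ is the inverse of ρ γ). Finite index: k γ = (S (F γ))⁻¹ γ ∈ KT T (FC1), ρ (k γ) is in a finite set. If ρ (k γ) = ρ (k γ')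
then γ' γ⁻¹ ∈ H: ρ (γ' γ⁻¹) = ρ (S F γ') ρ (k γ') ρ (k γ)⁻¹ ρ (S F γ)⁻¹ = ρ (S F (γ' γ⁻¹)). So the right cosets inject into a finite set: Subgroup.finiteIndex (index of the right quotient; or use inverses for left cosets: γ⁻¹ ...: with k' γ = γ (S F γ)⁻¹ ∈ KT (normal) one gets γ⁻¹ γ' ... ; take the map Quotient (rightRel) and Subgroup.index via
QuotientGroup.quotientRightRelEquivQuotientLeftRel). -/
theorem every_genus (hg : 1 ≤ g) {V : Type*} [AddCommGroup V] [Module ℂ V]
    [FiniteDimensional ℂ V] (ρ : Representation ℂ (MCG g n) V)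
    (hss : ∀ W : Submodule ℂ V, (∀ γ, ∀ w ∈ W, ρ γ w ∈ W) → ∃ W' : Submodule ℂ V,
      (∀ γ, ∀ w ∈ W', ρ γ w ∈ W') ∧ IsCompl W W') :
    ∃ (m : ℕ) (e : Fin m ↪o Fin n) (F : MCG g n →* MCG g m)
      (σ : Representation ℂ (MCG g m) V) (H : Subgroup (MCG g n)),
      m ≤ 5 * (Module.finrank ℂ V - 1) ∧ IsForgetful e F ∧ H.FiniteIndex ∧
        ∀ γ ∈ H, ρ γ = σ (F γ) := by
  classical
  obtain ⟨T, hT, hfin⟩ := core_semis hg ρ hss
  let e : Fin T.card ↪o Fin n := T.orderEmbOfFin rfl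
  have hrange : ∀ s, s ∈ T ↔ s ∈ Set.range e := by
    intro s
    have : Set.range e = (T : Set (Fin n)) := Finset.range_orderEmbOfFin T rfl
    rw [this, Finset.mem_coe]
  obtain ⟨F, hF, hF'⟩ := exists_F (g := g) e
  obtain ⟨S, hS, hS'⟩ := exists_S (g := g) e
  have hk := SF_KT e F hF hF' S hS hS' T hrange
  have hk' : ∀ γ : MCG g n, γ * (S (F γ))⁻¹ ∈ KT g n T := by
    intro γ
    have h1 := (Subgroup.normalClosure_normal (s := {γ : MCG g n | ∃ s : Fin n, s ∉ T ∧
      ((∃ c < 2 * g + (s : ℕ), γ = ell g n (2 * g + s) c) ∨ ∃ L, 2 * g + (s : ℕ) < L ∧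
        L < 2 * g + n ∧ γ = ell g n L (2 * g + s))})).conj_mem _ (hk γ) (S (F γ))
    have h2 : S (F γ) * ((S (F γ))⁻¹ * γ) * (S (F γ))⁻¹ = γ * (S (F γ))⁻¹ := by group
    rw [h2] at h1
    exact h1
  let σ : Representation ℂ (MCG g T.card) V := MonoidHom.comp ρ S
  let H : Subgroup (MCG g n) := MonoidHom.eqLocus ρ ((MonoidHom.comp ρ S).comp F)
  have hH : ∀ γ, γ ∈ H ↔ ρ γ = ρ (S (F γ)) := fun γ => Iff.rfl
  have hinv : ∀ γ : MCG g n, ρ γ⁻¹ * ρ γ = 1 := fun γ => by rw [← map_mul]; simp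
  have hinv' : ∀ γ : MCG g n, ρ γ * ρ γ⁻¹ = 1 := fun γ => by rw [← map_mul]; simp
  have key : ∀ γ γ' : MCG g n, ρ (γ * (S (F γ))⁻¹) = ρ (γ' * (S (F γ'))⁻¹) → γ⁻¹ * γ' ∈ H := by
    intro γ γ' h
    rw [hH]
    have e1 : γ⁻¹ * γ' = (S (F γ))⁻¹ * ((γ * (S (F γ))⁻¹)⁻¹ * (γ' * (S (F γ'))⁻¹)) * S (F γ') := by
      group
    have e2 : ρ ((γ * (S (F γ))⁻¹)⁻¹ * (γ' * (S (F γ'))⁻¹)) = 1 := by
      rw [map_mul, ← h]
      exact hinv _
    have e3 : S (F (γ⁻¹ * γ')) = (S (F γ))⁻¹ * S (F γ') := by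
      rw [map_mul, map_mul, map_inv, map_inv]
    rw [e3, e1, map_mul, map_mul, e2, mul_one, ← map_mul]
  have hfin2 : Finite (MCG g n ⧸ H) := by
    have := hfin.to_subtype
    apply Finite.of_injective (β := (ρ '' (KT g n T : Set (MCG g n))))
      (fun q => ⟨ρ (q.out * (S (F q.out))⁻¹), ⟨_, hk' q.out, rfl⟩⟩)
    intro q q' h
    have h1 := key _ _ (Subtype.ext_iff.1 h)
    rw [← QuotientGroup.eq, QuotientGroup.out_eq', QuotientGroup.out_eq'] at h1
    exact h1
  exact ⟨T.card, e, F, σ, H, hT, hF, Subgroup.finiteIndex_of_finite_quotient, fun γ hγ => hγ⟩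
-- END FC2

end Pool.Agent.EG14
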