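import Pool.Agent.HG13.Conc

set_option linter.all false

/-!
# Point pushing automorphisms (EVERY GENUS, MP_e3793a_ag, helper14)

`F = Fr g n` (HG13.Defs). A PUNCTURE is a letter number `L` with `2 * g ≤ L < 2 * g + n`. `el L c` is the
push of the puncture `L` along the letter `c < L`; it is an explicit automorphism (`el_gen`).
In the docstrings `z = gen L`, `c = gen c`, `d = Alp s t`.
-/

namespace Pool.Agent.EG14

open Pool.Agent.HG13

variable {g n : ℕ}

/-- The push of the puncture `L` around the block of feet `s, ..., L-1`. -/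
def Pp (L s : ℕ) : MulAut (Fr g n) := TP s L * (TP s (L + 1))⁻¹

/-- The push of the puncture `L` around the foot `f`. -/
def ef (L f : ℕ) : MulAut (Fr g n) := Pp L f * (Pp L (f + 1))⁻¹

/-- The push of the puncture `L` along the letter `c`. -/
def el (L c : ℕ) : MulAut (Fr g n) :=
  if c < 2 * g ∧ c % 2 = 1 then
    Bt (c / 2) * (ef L (c - 1))⁻¹ * (Bt (c / 2))⁻¹ * ef L (c - 1) else ef L c

/-- The push of the puncture `L` along a word (letters after `L` are ignored). -/
def E (L : ℕ) : Fr g n →* MulAut (Fr g n) :=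
  FreeGroup.lift fun c : Fin (2 * g + n) => if (c : ℕ) < L then el L c else 1

/-- The conjugators of the push around the block `[s,t)`: `z⁻¹` on the block, `h = z⁻¹ d⁻¹ z d` between
the block and `L`, `z⁻¹ d⁻¹ z` at `L`. -/
def pu (L s t : ℕ) : ℕ → Fr g n := fun f =>
  if s ≤ f ∧ f < t then (gen L)⁻¹
  else if t ≤ f ∧ f < L then (gen L)⁻¹ * (Alp s t)⁻¹ * gen L * Alp s t
  else if f = L then (gen L)⁻¹ * (Alp s t)⁻¹ * gen L else 1

theorem E_gen (L c : ℕ) (hc : c < L) (hc' : c < 2 * g + n) : E L (gen c : Fr g n) = el L c := by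
  rw [gen_lt hc', E, FreeGroup.lift_apply_of, if_pos hc]

theorem E_gen_ge (L c : ℕ) (hc : L ≤ c) : E L (gen c : Fr g n) = 1 := by
  by_cases hc' : c < 2 * g + n
  · rw [gen_lt hc', E, FreeGroup.lift_apply_of, if_neg (by simpa using hc)]
  · rw [gen_ge (by omega), map_one]

theorem el_even (L c : ℕ) (h : ¬ (c < 2 * g ∧ c % 2 = 1)) : (el L c : MulAut (Fr g n)) = ef L c := by
  unfold el; rw [if_neg h]

theorem el_odd (L i : ℕ) (hi : i < g) : (el L (2 * i + 1) : MulAut (Fr g n)) =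
    Bt i * (ef L (2 * i))⁻¹ * (Bt i)⁻¹ * ef L (2 * i) := by
  unfold el
  rw [if_pos (by omega), show (2 * i + 1) / 2 = i by omega, show 2 * i + 1 - 1 = 2 * i by omega]

-- MODULE PA1
/-- Comparison of two conjugating endomorphisms; at the puncture `L` only the values are compared. -/
private theorem PA1_eq (u v : ℕ → Fr g n) (L : ℕ) (hL : 2 * g ≤ L)
    (h : ∀ c < 2 * g + n, c ≠ L → u c = v c)
    (hz : u L * gen L * (u L)⁻¹ = v L * gen L * (v L)⁻¹) (w : Fr g n) : cj u w = cj v w := by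
  have : cj u = cj v := by
    apply FreeGroup.ext_hom
    intro c
    rw [← gen_lt c.2]
    by_cases hc : (c : ℕ) < 2 * g ∧ (c : ℕ) % 2 = 1
    · rw [cj_gen_odd u hc.1 hc.2, cj_gen_odd v hc.1 hc.2, h c c.2 (by omega),
        h (c - 1) (by omega) (by omega)]
    · rw [cj_gen u hc, cj_gen v hc]
      by_cases hcL : (c : ℕ) = L
      · rw [hcL, hz]
      · rw [h c c.2 hcL]
  rw [this]

private theorem PA1_in (L s t f : ℕ) (h : s ≤ f) (h' : f < t) : (pu L s t f : Fr g n) = (gen L)⁻¹ :=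
  if_pos ⟨h, h'⟩

private theorem PA1_mid (L s t f : ℕ) (h : t ≤ f) (h' : f < L) : (pu L s t f : Fr g n) =
    (gen L)⁻¹ * (Alp s t)⁻¹ * gen L * Alp s t := by
  unfold pu
  rw [if_neg (by omega), if_pos ⟨h, h'⟩]

private theorem PA1_L (L s t : ℕ) (h : t ≤ L) : (pu L s t L : Fr g n) =
    (gen L)⁻¹ * (Alp s t)⁻¹ * gen L := by
  unfold pu
  rw [if_neg (by omega), if_neg (by omega), if_pos rfl]

private theorem PA1_out (L s t f : ℕ) (ht : t ≤ L) (h : f < s ∨ L < f) (hs : s ≤ t) :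
    (pu L s t f : Fr g n) = 1 := by
  unfold pu
  rw [if_neg (by omega), if_neg (by omega), if_neg (by omega)]

/-- The values at `z` and at `d`. -/
private theorem PA1_z (L s t : ℕ) (h : 2 * g ≤ L) (ht : t ≤ L) :
    cj (pu L s t) (gen L : Fr g n) = (gen L)⁻¹ * (Alp s t)⁻¹ * gen L * Alp s t * gen L := by
  rw [cj_gen _ (by omega), PA1_L L s t ht]
  group

private theorem PA1_d (L s t : ℕ) : cj (pu L s t) (Alp s t : Fr g n) =
    (gen L)⁻¹ * Alp s t * gen L := by
  rw [cj_Alp_in _ s t (gen L)⁻¹ fun f h1 h2 => PA1_in L s t f h1 h2, inv_inv]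

/-- PROOF. Equivalent: TP s L x = cj (pu L s L) (TP s (L+1) x). By aut_ext-style comparison on letters or with cj_cj and cj_congr: put d = Alp s L, dz = Alp s (L+1) = d * gen L
(Alp_snoc, alp L = gen L by alp_even). u = pu L s L: u = z⁻¹ on [s,L), z⁻¹d⁻¹z at L, 1 elsewhere. cj u d = z⁻¹ d z (cj_Alp_in), cj u z = (z⁻¹d⁻¹z) z (z⁻¹d⁻¹z)⁻¹ = z⁻¹d⁻¹zdz (cj_gen), so
cj u (dz) = z⁻¹dz z⁻¹d⁻¹zdz = dz. Foot f in [s,L): cj u (dz) * z⁻¹ = d = the value of TP s L. At L: cj u (dz) * z⁻¹d⁻¹z = z, and conjugation of z by z is trivial, TP s L fixes gen L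
(so compare on letters, cj_gen / cj_gen_odd: for an odd letter c < 2g both feet c-1, c matter; they are < 2g ≤ L). -/
theorem Pp_apply (L s : ℕ) (h : 2 * g ≤ L) (hL : L < 2 * g + n) (hs : s ≤ L) (w : Fr g n) :
    Pp L s w = cj (pu L s L) w := by
  have key : ∀ x : Fr g n, TP s L x = cj (pu L s L) (TP s (L + 1) x) := by
    intro x
    have hD : (Alp s (L + 1) : Fr g n) = Alp s L * gen L := by
      rw [Alp_snoc s L hs, alp_even L (by omega)]
    have e1 : cj (pu L s L) (Alp s (L + 1) : Fr g n) = Alp s L * gen L := by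
      rw [hD, map_mul, PA1_z L s L h le_rfl, PA1_d]
      group
    rw [TP_apply, TP_apply, cj_cj]
    refine PA1_eq _ _ L h (fun c hc hcL => ?_) ?_ x
    · by_cases h1 : s ≤ c ∧ c < L
      · have i1 : ind s (L + 1) (Alp s (L + 1) : Fr g n) c = Alp s (L + 1) := if_pos (by omega)
        have i2 : ind s L (Alp s L : Fr g n) c = Alp s L := if_pos h1
        rw [i1, i2, e1, PA1_in L s L c h1.1 h1.2]
        group
      · have i1 : ind s (L + 1) (Alp s (L + 1) : Fr g n) c = 1 := if_neg (by omega)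
        have i2 : ind s L (Alp s L : Fr g n) c = 1 := if_neg h1
        rw [i1, i2, map_one, PA1_out L s L c le_rfl (by omega) hs, one_mul]
    · have i1 : ind s (L + 1) (Alp s (L + 1) : Fr g n) L = Alp s (L + 1) := if_pos (by omega)
      have i2 : ind s L (Alp s L : Fr g n) L = 1 := if_neg (by omega)
      rw [i1, i2, e1, PA1_L L s L le_rfl]
      group
  have e : w = TP s (L + 1) ((TP s (L + 1))⁻¹ w) := (MulAut.apply_inv_self _ _ _).symm
  conv_rhs => rw [e]
  rw [← key]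
  rfl
-- END PA1

-- MODULE PA2
/-- Block formula. PROOF. Equivalent: Pp L s x = cj (pu L s t) (Pp L t x), use PA1 for Pp L s and Pp L t, cj_cj and cj_congr, equality of conjugators for every foot f < 2g + n. d = Alp s t, q = Alp t L,
Alp s L = d q (Alp_split), v = pu L s t, h = z⁻¹d⁻¹zd. cj v z = z⁻¹d⁻¹zdz, cj v q = h q h⁻¹ (cj_Alp_in, feet in [t,L)). f in [s,t): cj v 1 * z⁻¹ = z⁻¹. f in [t,L): cj v (z⁻¹) * h =
(z⁻¹d⁻¹z⁻¹dz)(z⁻¹d⁻¹zd) = z⁻¹. f = L: cj v (z⁻¹q⁻¹z) * z⁻¹d⁻¹z = (z⁻¹d⁻¹z⁻¹dz)(h q⁻¹ h⁻¹)(z⁻¹d⁻¹zdz)(z⁻¹d⁻¹z) = z⁻¹ (dq)⁻¹ z. Other f: 1. (pu L t L has Alp t L = q, pu L s L has Alp s L.) -/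
theorem blk_apply (L s t : ℕ) (h : 2 * g ≤ L) (hL : L < 2 * g + n) (hs : s ≤ t) (ht : t ≤ L)
    (w : Fr g n) : (Pp L s * (Pp L t)⁻¹ : MulAut (Fr g n)) w = cj (pu L s t) w := by
  have key : ∀ x : Fr g n, Pp L s x = cj (pu L s t) (Pp L t x) := by
    intro x
    rw [Pp_apply L s h hL (by omega), Pp_apply L t h hL ht, cj_cj]
    refine cj_congr _ _ (fun f hf => ?_) x
    have eq : cj (pu L s t) (Alp t L : Fr g n) =
        ((gen L)⁻¹ * (Alp s t)⁻¹ * gen L * Alp s t) * Alp t L *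
          ((gen L)⁻¹ * (Alp s t)⁻¹ * gen L * Alp s t)⁻¹ :=
      cj_Alp_in _ t L _ fun c h1 h2 => PA1_mid L s t c h1 h2
    by_cases h1 : f < s
    · rw [PA1_out L s L f le_rfl (Or.inl h1) (by omega), PA1_out L t L f le_rfl (by omega) ht,
        PA1_out L s t f ht (Or.inl h1) hs, map_one, one_mul]
    by_cases h2 : f < t
    · rw [PA1_in L s L f (by omega) (by omega), PA1_out L t L f le_rfl (Or.inl h2) ht,
        PA1_in L s t f (by omega) h2, map_one, one_mul]
    by_cases h3 : f < L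
    · rw [PA1_in L s L f (by omega) (by omega), PA1_in L t L f (by omega) h3,
        PA1_mid L s t f (by omega) h3, map_inv, PA1_z L s t h ht]
      group
    by_cases h4 : f = L
    · subst h4
      rw [PA1_L f s f le_rfl, PA1_L f t f le_rfl, PA1_L f s t ht, map_mul, map_mul, map_inv,
        map_inv, eq, PA1_z f s t h ht, Alp_split s t f hs ht]
      group
    · rw [PA1_out L s L f le_rfl (by omega) (by omega), PA1_out L t L f le_rfl (by omega) ht,
        PA1_out L s t f ht (by omega) hs, map_one, one_mul]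
  have e : w = Pp L t ((Pp L t)⁻¹ w) := (MulAut.apply_inv_self _ _ _).symm
  conv_rhs => rw [e]
  rw [← key]
  rfl
-- END PA2

theorem ef_apply (L f : ℕ) (h : 2 * g ≤ L) (hL : L < 2 * g + n) (hf : f < L) (w : Fr g n) :
    ef L f w = cj (pu L f (f + 1)) w := blk_apply L f (f + 1) h hL (by omega) (by omega) w

-- MODULE PA3
/-- The values of the push around a foot whose loop is a letter. -/
private theorem PA3_z (L c : ℕ) (h : 2 * g ≤ L) (hL : L < 2 * g + n) (hc : c < L)
    (hc' : ¬ (c < 2 * g ∧ c % 2 = 1)) :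
    ef L c (gen L : Fr g n) = (gen L)⁻¹ * (gen c)⁻¹ * gen L * gen c * gen L := by
  rw [ef_apply L c h hL hc, PA1_z L c (c + 1) h (by omega), Alp_one, alp_even c hc']

private theorem PA3_gt (L c a : ℕ) (h : 2 * g ≤ L) (hL : L < 2 * g + n) (hc : c < L)
    (ha : L < a) : ef L c (gen a : Fr g n) = gen a := by
  rw [ef_apply L c h hL hc, cj_gen _ (by omega),
    PA1_out L c (c + 1) a (by omega) (by omega) (by omega)]
  group

private theorem PA3_y (L i : ℕ) (h : 2 * g ≤ L) (hL : L < 2 * g + n) (hi : i < g) :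
    ef L (2 * i) (gen (2 * i + 1) : Fr g n) = (gen L)⁻¹ * gen (2 * i + 1) * (gen (2 * i))⁻¹ *
      (gen L)⁻¹ * gen (2 * i) * gen L := by
  rw [ef_apply L (2 * i) h hL (by omega), cj_gen_odd _ (by omega) (by omega),
    show 2 * i + 1 - 1 = 2 * i by omega, PA1_in L (2 * i) (2 * i + 1) (2 * i) (by omega) (by omega),
    PA1_mid L (2 * i) (2 * i + 1) (2 * i + 1) (by omega) (by omega), Alp_one,
    alp_even (2 * i) (by omega)]
  group

private theorem PA3_c (L c : ℕ) (h : 2 * g ≤ L) (hL : L < 2 * g + n) (hc : c < L)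
    (hc' : ¬ (c < 2 * g ∧ c % 2 = 1)) :
    ef L c (gen c : Fr g n) = (gen L)⁻¹ * gen c * gen L := by
  rw [ef_apply L c h hL hc, cj_gen _ hc', PA1_in L c (c + 1) c (by omega) (by omega)]
  group

private theorem PA3_lt (L c a : ℕ) (h : 2 * g ≤ L) (hL : L < 2 * g + n) (hc : c < L)
    (ha : a < c) : ef L c (gen a : Fr g n) = gen a := by
  rw [ef_apply L c h hL hc]
  by_cases ho : a < 2 * g ∧ a % 2 = 1
  · rw [cj_gen_odd _ ho.1 ho.2, PA1_out L c (c + 1) a (by omega) (by omega) (by omega),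
      PA1_out L c (c + 1) (a - 1) (by omega) (by omega) (by omega)]
    group
  · rw [cj_gen _ ho, PA1_out L c (c + 1) a (by omega) (by omega) (by omega)]
    group

private theorem PA3_mid (L c a : ℕ) (h : 2 * g ≤ L) (hL : L < 2 * g + n)
    (hc' : ¬ (c < 2 * g ∧ c % 2 = 1)) (ha : c < a) (ha' : a < L)
    (hp : ¬ (c < 2 * g ∧ a / 2 = c / 2)) :
    ef L c (gen a : Fr g n) = ((gen L)⁻¹ * (gen c)⁻¹ * gen L * gen c) * gen a *
        ((gen L)⁻¹ * (gen c)⁻¹ * gen L * gen c)⁻¹ := by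
  rw [ef_apply L c h hL (by omega)]
  by_cases ho : a < 2 * g ∧ a % 2 = 1
  · rw [cj_gen_odd _ ho.1 ho.2, PA1_mid L c (c + 1) a (by omega) (by omega),
      PA1_mid L c (c + 1) (a - 1) (by omega) (by omega), Alp_one, alp_even c hc']
  · rw [cj_gen _ ho, PA1_mid L c (c + 1) a (by omega) (by omega), Alp_one, alp_even c hc']

private theorem PA3_Bi (i : ℕ) (hi : i < g) : (Bt i)⁻¹ (gen (2 * i) : Fr g n) =
    gen (2 * i) * gen (2 * i + 1) := by
  have e : (gen (2 * i) : Fr g n) = Bt i (gen (2 * i) * gen (2 * i + 1)) := by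
    rw [map_mul, Bt_x i hi, Bt_ne i _ (by omega)]
    group
  conv_lhs => rw [e]
  rw [MulAut.inv_apply_self]

private theorem PA3_Bn (i c : ℕ) (h : c ≠ 2 * i) : (Bt i)⁻¹ (gen c : Fr g n) = gen c := by
  have e : (gen c : Fr g n) = Bt i (gen c) := (Bt_ne i c h).symm
  conv_lhs => rw [e]
  rw [MulAut.inv_apply_self]

private theorem PA3_odd (L i : ℕ) (hi : i < g) (w r : Fr g n)
    (hw : ef L (2 * i) w = Bt i (ef L (2 * i) ((Bt i)⁻¹ r))) : el L (2 * i + 1) w = r := by
  rw [el_odd L i hi]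
  change Bt i ((ef L (2 * i))⁻¹ ((Bt i)⁻¹ (ef L (2 * i) w))) = r
  rw [hw, MulAut.inv_apply_self, MulAut.inv_apply_self, MulAut.apply_inv_self]

/-- The values of the push along the letter `y`. -/
private theorem PA3_oz (L i : ℕ) (h : 2 * g ≤ L) (hL : L < 2 * g + n) (hi : i < g) :
    el L (2 * i + 1) (gen L : Fr g n) = (gen L)⁻¹ * (gen (2 * i + 1))⁻¹ * gen L *
      gen (2 * i + 1) * gen L := by
  apply PA3_odd L i hi
  simp only [map_mul, map_inv, PA3_Bn i L (by omega), PA3_Bn i (2 * i + 1) (by omega),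
    PA3_z L (2 * i) h hL (by omega) (by omega), PA3_y L i h hL hi, Bt_x i hi,
    Bt_ne i L (by omega), Bt_ne i (2 * i + 1) (by omega)]
  group

private theorem PA3_ogt (L i a : ℕ) (h : 2 * g ≤ L) (hL : L < 2 * g + n) (hi : i < g)
    (ha : L < a) : el L (2 * i + 1) (gen a : Fr g n) = gen a := by
  apply PA3_odd L i hi
  rw [PA3_Bn i a (by omega), PA3_gt L (2 * i) a h hL (by omega) ha, Bt_ne i a (by omega)]

private theorem PA3_ox (L i : ℕ) (h : 2 * g ≤ L) (hL : L < 2 * g + n) (hi : i < g) :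
    el L (2 * i + 1) (gen (2 * i) : Fr g n) = gen (2 * i) * gen L := by
  apply PA3_odd L i hi
  simp only [map_mul, map_inv, PA3_Bn i L (by omega), PA3_Bi i hi,
    PA3_z L (2 * i) h hL (by omega) (by omega), PA3_y L i h hL hi,
    PA3_c L (2 * i) h hL (by omega) (by omega), Bt_x i hi,
    Bt_ne i L (by omega), Bt_ne i (2 * i + 1) (by omega)]
  group

private theorem PA3_oy (L i : ℕ) (h : 2 * g ≤ L) (hL : L < 2 * g + n) (hi : i < g) :
    el L (2 * i + 1) (gen (2 * i + 1) : Fr g n) = (gen L)⁻¹ * gen (2 * i + 1) * gen L := by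
  apply PA3_odd L i hi
  simp only [map_mul, map_inv, PA3_Bn i L (by omega), PA3_Bn i (2 * i + 1) (by omega),
    PA3_z L (2 * i) h hL (by omega) (by omega), PA3_y L i h hL hi,
    PA3_c L (2 * i) h hL (by omega) (by omega), Bt_x i hi,
    Bt_ne i L (by omega), Bt_ne i (2 * i + 1) (by omega)]
  group

private theorem PA3_olt (L i a : ℕ) (h : 2 * g ≤ L) (hL : L < 2 * g + n) (hi : i < g)
    (ha : a < 2 * i) : el L (2 * i + 1) (gen a : Fr g n) = gen a := by
  apply PA3_odd L i hi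
  rw [PA3_Bn i a (by omega), PA3_lt L (2 * i) a h hL (by omega) ha, Bt_ne i a (by omega)]

private theorem PA3_omid (L i a : ℕ) (h : 2 * g ≤ L) (hL : L < 2 * g + n) (hi : i < g)
    (ha : 2 * i + 1 < a) (ha' : a < L) :
    el L (2 * i + 1) (gen a : Fr g n) =
      ((gen L)⁻¹ * (gen (2 * i + 1))⁻¹ * gen L * gen (2 * i + 1)) * gen a *
        ((gen L)⁻¹ * (gen (2 * i + 1))⁻¹ * gen L * gen (2 * i + 1))⁻¹ := by
  apply PA3_odd L i hi
  simp only [map_mul, map_inv, PA3_Bn i L (by omega), PA3_Bn i (2 * i + 1) (by omega),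
    PA3_Bn i a (by omega), PA3_mid L (2 * i) a h hL (by omega) (by omega) ha' (by omega),
    PA3_z L (2 * i) h hL (by omega) (by omega), PA3_y L i h hL hi,
    PA3_c L (2 * i) h hL (by omega) (by omega), Bt_x i hi,
    Bt_ne i L (by omega), Bt_ne i (2 * i + 1) (by omega), Bt_ne i a (by omega)]
  group

/-- THE EXPLICIT FORMULA OF ALL PUSHES. PROOF. For c even or c ≥ 2g: el L c = ef L c (el_even), ef_apply, cj_gen, cj_gen_odd, pu: Alp c (c+1) = alp c = gen c. (c = 2i < 2g, a = 2i + 1: cj: u_(2i) y u_(2i+1)⁻¹ =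
z⁻¹ y (z⁻¹x⁻¹zx)⁻¹ = z⁻¹ y x⁻¹z⁻¹xz. Other odd letters a < 2g: both feet a-1, a have the same conjugator.)
For c = 2i + 1 < 2g (letter y; x = gen (2i), B = Bt i, e = ef L (2i)): el L c = b⁻¹ e with b = B e B⁻¹, so el L c (gen a) = r iff e (gen a) = b r. Put X = x y⁻¹ = B x, x = X y. b X = B (e x) = z⁻¹Xz, b y = B (e y) = z⁻¹yX⁻¹z⁻¹Xz,
b z = z⁻¹X⁻¹zXz, b (gen a) = H (gen a) H⁻¹ with H = z⁻¹X⁻¹zX for the letters a between 2i+2 and L, b fixes the other letters.
a = 2i: r = x z = X y z: b r = z⁻¹Xz z⁻¹yX⁻¹z⁻¹Xz z⁻¹X⁻¹zXz = z⁻¹Xyz = z⁻¹xz = e x. a = 2i+1: r = z⁻¹yz: b r = (z⁻¹X⁻¹z⁻¹Xz)(z⁻¹yX⁻¹z⁻¹Xz)(z⁻¹X⁻¹zXz) = z⁻¹X⁻¹z⁻¹X y z = z⁻¹ y x⁻¹z⁻¹xz = e y.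
a = L: r = z⁻¹y⁻¹zyz = (z⁻¹yz)⁻¹ z (z⁻¹yz), b r = z⁻¹(Xy)⁻¹z(Xy)z = e z. a between: r = k (gen a) k⁻¹, k = z⁻¹y⁻¹zy, k z = the value at z, so b k = (e z)(b z)⁻¹, b k * H = (e z) z⁻¹ H⁻¹ H = z⁻¹x⁻¹zx. Others: fixed.
Everything has been verified by computer for g ≤ 3, n ≤ 3. -/
theorem el_gen (L c a : ℕ) (h : 2 * g ≤ L) (hL : L < 2 * g + n) (hc : c < L) (ha : a < 2 * g + n) :
    el L c (gen a : Fr g n) =
      if a = L then (gen L)⁻¹ * (gen c)⁻¹ * gen L * gen c * gen L
      else if L < a then gen a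
      else if c < 2 * g ∧ a / 2 = c / 2 ∧ a ≠ c then
        (if c % 2 = 0 then (gen L)⁻¹ * gen a * (gen c)⁻¹ * (gen L)⁻¹ * gen c * gen L
          else gen a * gen L)
      else if a = c then (gen L)⁻¹ * gen c * gen L
      else if a < c then gen a
      else ((gen L)⁻¹ * (gen c)⁻¹ * gen L * gen c) * gen a *
        ((gen L)⁻¹ * (gen c)⁻¹ * gen L * gen c)⁻¹ := by
  by_cases ho : c < 2 * g ∧ c % 2 = 1
  · obtain ⟨i, rfl⟩ : ∃ i, c = 2 * i + 1 := ⟨c / 2, by omega⟩
    have hi : i < g := by omega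
    split_ifs with h1 h2 h3 h4 h5 h6
    · rw [h1]
      exact PA3_oz L i h hL hi
    · exact PA3_ogt L i a h hL hi h2
    · omega
    · have e : a = 2 * i := by omega
      rw [e]
      exact PA3_ox L i h hL hi
    · rw [h5]
      exact PA3_oy L i h hL hi
    · exact PA3_olt L i a h hL hi (by omega)
    · exact PA3_omid L i a h hL hi (by omega) (by omega)
  · rw [el_even L c ho]
    split_ifs with h1 h2 h3 h4 h5 h6
    · rw [h1]
      exact PA3_z L c h hL hc ho
    · exact PA3_gt L c a h hL hc h2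
    · obtain ⟨i, rfl⟩ : ∃ i, c = 2 * i := ⟨c / 2, by omega⟩
      have e : a = 2 * i + 1 := by omega
      rw [e]
      exact PA3_y L i h hL (by omega)
    · omega
    · rw [h5]
      exact PA3_c L c h hL hc ho
    · exact PA3_lt L c a h hL hc h6
    · exact PA3_mid L c a h hL ho (by omega) (by omega) (by omega)
-- END PA3

-- MODULE PA4
/-- The values of the push around an odd foot. -/
private theorem PA4_z (L i : ℕ) (h : 2 * g ≤ L) (hL : L < 2 * g + n) (hi : i < g) :
    ef L (2 * i + 1) (gen L : Fr g n) = (gen L)⁻¹ * (alp (2 * i + 1))⁻¹ * gen L *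
      alp (2 * i + 1) * gen L := by
  rw [ef_apply L _ h hL (by omega), PA1_z L _ _ h (by omega), Alp_one]

private theorem PA4_x (L i : ℕ) (h : 2 * g ≤ L) (hL : L < 2 * g + n) (hi : i < g) :
    ef L (2 * i + 1) (gen (2 * i) : Fr g n) = gen (2 * i) := by
  rw [ef_apply L _ h hL (by omega), cj_gen _ (by omega),
    PA1_out L _ _ _ (by omega) (by omega) (by omega)]
  group

private theorem PA4_y (L i : ℕ) (h : 2 * g ≤ L) (hL : L < 2 * g + n) (hi : i < g) :
    ef L (2 * i + 1) (gen (2 * i + 1) : Fr g n) = gen (2 * i + 1) * gen L := by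
  rw [ef_apply L _ h hL (by omega), cj_gen_odd _ (by omega) (by omega),
    show 2 * i + 1 - 1 = 2 * i by omega, PA1_out L _ _ (2 * i) (by omega) (by omega) (by omega),
    PA1_in L _ _ _ (by omega) (by omega)]
  group

private theorem PA4_out (L i a : ℕ) (h : 2 * g ≤ L) (hL : L < 2 * g + n) (hi : i < g)
    (ha : a < 2 * i ∨ L < a) : ef L (2 * i + 1) (gen a : Fr g n) = gen a := by
  rw [ef_apply L _ h hL (by omega)]
  by_cases ho : a < 2 * g ∧ a % 2 = 1
  · rw [cj_gen_odd _ ho.1 ho.2, PA1_out L _ _ a (by omega) (by omega) (by omega),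
      PA1_out L _ _ (a - 1) (by omega) (by omega) (by omega)]
    group
  · rw [cj_gen _ ho, PA1_out L _ _ a (by omega) (by omega) (by omega)]
    group

private theorem PA4_mid (L i a : ℕ) (h : 2 * g ≤ L) (hL : L < 2 * g + n) (hi : i < g)
    (ha : 2 * i + 1 < a) (ha' : a < L) : ef L (2 * i + 1) (gen a : Fr g n) =
    ((gen L)⁻¹ * (alp (2 * i + 1))⁻¹ * gen L * alp (2 * i + 1)) * gen a *
      ((gen L)⁻¹ * (alp (2 * i + 1))⁻¹ * gen L * alp (2 * i + 1))⁻¹ := by
  rw [ef_apply L _ h hL (by omega)]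
  by_cases ho : a < 2 * g ∧ a % 2 = 1
  · rw [cj_gen_odd _ ho.1 ho.2, PA1_mid L _ _ a (by omega) (by omega),
      PA1_mid L _ _ (a - 1) (by omega) (by omega), Alp_one]
  · rw [cj_gen _ ho, PA1_mid L _ _ a (by omega) (by omega), Alp_one]

/-- Pushes along foot loops. PROOF. f even or f ≥ 2g: alp f = gen f, E_gen, el_even. f = 2i + 1 < 2g, x = gen (2i), y = gen (2i+1): d = alp f = y⁻¹x⁻¹y, so E L d = el(y)⁻¹ ef(x)⁻¹ el(y), and the claim is equivalent to
ef(x) * el(y) * D = el(y), D = ef L f = cj (pu L f (f+1)) (ef_apply): D x = x, D y = y z, D z = (dz)⁻¹ z (dz), letters between 2i+2 and L: conjugation by (D z) z⁻¹. Check on letters (PA3): x: el(y) x = xz, ef(x)(xz) = z⁻¹xz z⁻¹x⁻¹zxz = xz. y: el(y)(yz) = z⁻¹yz z⁻¹y⁻¹zyz = yz,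
ef(x)(yz) = z⁻¹yx⁻¹z⁻¹xz z⁻¹x⁻¹zxz = z⁻¹yz. z: el(y)(dz) = (z⁻¹y⁻¹z)(z⁻¹x⁻¹)(yz) = z⁻¹dz, el(y)(D z) = (z⁻¹dz)⁻¹(z⁻¹y⁻¹zyz)(z⁻¹dz) = (yz)⁻¹(xzx⁻¹)(yz), ef(x)(yz) = z⁻¹yz, ef(x)(xzx⁻¹) = z, result (z⁻¹yz)⁻¹z(z⁻¹yz) = el(y) z.
Letters between: every push p acts on them by conjugation with k_p = (p z) z⁻¹, and k_(pq) = p(k_q) k_p, so they agree because z does. Other letters: fixed (for an odd letter < 2g both feet). -/
theorem E_alp (L f : ℕ) (h : 2 * g ≤ L) (hL : L < 2 * g + n) (hf : f < L) :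
    E L (alp f : Fr g n) = ef L f := by
  by_cases ho : f < 2 * g ∧ f % 2 = 1
  · obtain ⟨i, rfl⟩ : ∃ i, f = 2 * i + 1 := ⟨f / 2, by omega⟩
    have hi : i < g := by omega
    have key : (ef L (2 * i) * (el L (2 * i + 1) * ef L (2 * i + 1)) : MulAut (Fr g n)) =
        el L (2 * i + 1) := by
      apply aut_ext
      intro a ha
      change ef L (2 * i) (el L (2 * i + 1) (ef L (2 * i + 1) (gen a))) = el L (2 * i + 1) (gen a)
      by_cases h1 : a < 2 * i ∨ L < a
      · rw [PA4_out L i a h hL hi h1]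
        rcases h1 with h1 | h1
        · rw [PA3_olt L i a h hL hi h1, PA3_lt L (2 * i) a h hL (by omega) h1]
        · rw [PA3_ogt L i a h hL hi h1, PA3_gt L (2 * i) a h hL (by omega) h1]
      by_cases h2 : a = 2 * i
      · subst h2
        simp only [PA4_x L i h hL hi, PA3_ox L i h hL hi, map_mul,
          PA3_c L (2 * i) h hL (by omega) (by omega), PA3_z L (2 * i) h hL (by omega) (by omega)]
        group
      by_cases h3 : a = 2 * i + 1
      · subst h3
        simp only [PA4_y L i h hL hi, PA3_oy L i h hL hi, PA3_oz L i h hL hi, map_mul, map_inv,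
          PA3_y L i h hL hi, PA3_c L (2 * i) h hL (by omega) (by omega),
          PA3_z L (2 * i) h hL (by omega) (by omega)]
        group
      by_cases h4 : a = L
      · subst h4
        simp only [PA4_z a i h hL hi, PA3_oy a i h hL hi, PA3_oz a i h hL hi, map_mul, map_inv,
          PA3_y a i h hL hi, PA3_c a (2 * i) h hL (by omega) (by omega), alp_odd i hi,
          PA3_ox a i h hL hi, PA3_z a (2 * i) h hL (by omega) (by omega)]
        group
      · simp only [PA4_mid L i a h hL hi (by omega) (by omega), PA3_oy L i h hL hi,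
          PA3_oz L i h hL hi, map_mul, map_inv,
          PA3_omid L i a h hL hi (by omega) (by omega),
          PA3_mid L (2 * i) a h hL (by omega) (by omega) (by omega) (by omega),
          PA3_y L i h hL hi, PA3_c L (2 * i) h hL (by omega) (by omega), alp_odd i hi,
          PA3_ox L i h hL hi, PA3_z L (2 * i) h hL (by omega) (by omega)]
        group
    rw [alp_odd i hi, map_mul, map_mul, map_inv, map_inv, E_gen L _ hf (by omega),
      E_gen L (2 * i) (by omega) (by omega), el_even L (2 * i) (by omega)]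
    rw [mul_assoc, inv_mul_eq_iff_eq_mul, inv_mul_eq_iff_eq_mul]
    exact key.symm
  · rw [alp_even f ho, E_gen L f hf (by omega), el_even L f ho]
-- END PA4

-- MODULE PA5
/-- PROOF. Induction on t - s: Alp s t = alp s * Alp (s+1) t (Alp_cons), PA4, ef L s = Pp L s * (Pp L (s+1))⁻¹. -/
theorem E_Alp (L s t : ℕ) (h : 2 * g ≤ L) (hL : L < 2 * g + n) (hs : s ≤ t) (ht : t ≤ L) :
    E L (Alp s t : Fr g n) = Pp L s * (Pp L t)⁻¹ := by
  obtain ⟨k, rfl⟩ := Nat.exists_eq_add_of_le hs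
  induction k with
  | zero => rw [Nat.add_zero, Alp_self, map_one, mul_inv_cancel]
  | succ k ih =>
    rw [← add_assoc, Alp_snoc s (s + k) (by omega), map_mul, ih (by omega) (by omega),
      E_alp L (s + k) h hL (by omega), ef]
    group
-- END PA5

/-- The conjugators of the twist around the block `[s,t)` and the puncture `L` (the block `[t,L)`
between them is left out). -/
def wu (L s t : ℕ) : ℕ → Fr g n := fun f =>
  if s ≤ f ∧ f < t then Alp s t * gen L
  else if t ≤ f ∧ f < L then Alp s t * gen L * (Alp s t)⁻¹ * (gen L)⁻¹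
  else if f = L then Alp s t * gen L else 1

-- MODULE PA6
private theorem PA6_in (L s t f : ℕ) (h : s ≤ f) (h' : f < t) : (wu L s t f : Fr g n) =
    Alp s t * gen L := if_pos ⟨h, h'⟩

private theorem PA6_mid (L s t f : ℕ) (h : t ≤ f) (h' : f < L) : (wu L s t f : Fr g n) =
    Alp s t * gen L * (Alp s t)⁻¹ * (gen L)⁻¹ := by
  unfold wu
  rw [if_neg (by omega), if_pos ⟨h, h'⟩]

private theorem PA6_L (L s t : ℕ) (h : t ≤ L) : (wu L s t L : Fr g n) = Alp s t * gen L := by
  unfold wu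
  rw [if_neg (by omega), if_neg (by omega), if_pos rfl]

private theorem PA6_out (L s t f : ℕ) (ht : t ≤ L) (h : f < s ∨ L < f) (hs : s ≤ t) :
    (wu L s t f : Fr g n) = 1 := by
  unfold wu
  rw [if_neg (by omega), if_neg (by omega), if_neg (by omega)]

/-- PROOF. D = E L (Alp s t) = cj (pu L s t) (PA5, PA2). Show TP s t x = D (cj (wu L s t) x), compare on letters or with cj_cj: d = Alp s t: D d = z⁻¹dz (cj_Alp_in), D z = z⁻¹d⁻¹zdz, D (dz) = dz. f in [s,t): D (dz) * z⁻¹ = d. f in [t,L): D (dz d⁻¹z⁻¹) * (z⁻¹d⁻¹zd) =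
dz (z⁻¹d⁻¹z)(z⁻¹d⁻¹z⁻¹dz)(z⁻¹d⁻¹zd) = 1. f = L: D (dz) * z⁻¹d⁻¹z = z, and conjugation of z by z is trivial (TP s t fixes gen L), so at the letter L compare the values. (Alternatively HG13.LP_apply with u = L, w = L + 1.) -/
theorem W_apply (L s t : ℕ) (h : 2 * g ≤ L) (hL : L < 2 * g + n) (hs : s < t) (ht : t ≤ L)
    (w : Fr g n) :
    ((E L (Alp s t : Fr g n))⁻¹ * TP s t : MulAut (Fr g n)) w = cj (wu L s t) w := by
  have key : TP s t w = E L (Alp s t : Fr g n) (cj (wu L s t) w) := by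
    rw [E_Alp L s t h hL hs.le ht, blk_apply L s t h hL hs.le ht, cj_cj, TP_apply]
    have hz := PA1_z (n := n) L s t h ht
    have hd := PA1_d (g := g) (n := n) L s t
    symm
    refine PA1_eq _ _ L h (fun f hf hfL => ?_) ?_ w
    · by_cases h1 : f < s ∨ L < f
      · rw [PA6_out L s t f ht h1 hs.le, PA1_out L s t f ht h1 hs.le, map_one, one_mul]
        exact (if_neg (by omega)).symm
      by_cases h2 : f < t
      · have i1 : ind s t (Alp s t : Fr g n) f = Alp s t := if_pos (by omega)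
        rw [PA6_in L s t f (by omega) h2, PA1_in L s t f (by omega) h2, map_mul, hz, hd, i1]
        group
      · have i1 : ind s t (Alp s t : Fr g n) f = 1 := if_neg (by omega)
        rw [PA6_mid L s t f (by omega) (by omega), PA1_mid L s t f (by omega) (by omega), i1]
        simp only [map_mul, map_inv, hz, hd]
        group
    · have i1 : ind s t (Alp s t : Fr g n) L = 1 := if_neg (by omega)
      rw [PA6_L L s t ht, PA1_L L s t ht, map_mul, hz, hd, i1]
      group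
  change (E L (Alp s t : Fr g n))⁻¹ (TP s t w) = _
  rw [key, MulAut.inv_apply_self]
-- END PA6

-- MODULE PA7
private theorem PA7_z (s t L : ℕ) (h : 2 * g ≤ L) (ht : t ≤ L) :
    cj (ind s t (Alp s t)) (gen L : Fr g n) = gen L := by
  have i1 : ind s t (Alp s t : Fr g n) L = 1 := if_neg (by omega)
  rw [cj_gen _ (by omega), i1]
  group

/-- Equivariance under block twists, letters which are foot loops, outside of the block. PROOF. T = TP s t, e = ef L c = cj (pu L c (c+1)) (el_even, ef_apply), d = Alp s t. t ≤ L. T (gen c) = gen c; show T e = e T with cj_cj, cj_congr; T = cj (ind s t d), T z = z, T (gen c) = gen c.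
(i) t ≤ c: e d = d (pu = 1 on [s,t)). Conjugators of T e: f in [s,t): T 1 * d = d; else T (pu f) = pu f. Of e T: f in [s,t): e d * 1 = d, else pu f. (ii) c < s: e d = h d h⁻¹, h = z⁻¹c⁻¹zc (all feet of [s,t) have pu = h; cj_Alp_in); T e on [s,t): T h * d = h d, e T: e d * h = h d; others pu f. -/
theorem TP_el_out (L s t c : ℕ) (h : 2 * g ≤ L) (hL : L < 2 * g + n) (hs : s < t) (ht : t ≤ L)
    (hc : c < L) (hc' : ¬ (c < 2 * g ∧ c % 2 = 1)) (ho : c < s ∨ t ≤ c) :
    Commute (TP s t : MulAut (Fr g n)) (ef L c) := by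
  have hTc : cj (ind s t (Alp s t)) (gen c : Fr g n) = gen c := by
    have i1 : ind s t (Alp s t : Fr g n) c = 1 := if_neg (by omega)
    rw [cj_gen _ hc', i1]
    group
  have hTz := PA7_z (n := n) s t L h ht
  have hA : (Alp c (c + 1) : Fr g n) = gen c := by rw [Alp_one, alp_even c hc']
  have hpu : ∀ f, cj (ind s t (Alp s t)) (pu L c (c + 1) f : Fr g n) = pu L c (c + 1) f := by
    intro f
    unfold pu
    rw [hA]
    split_ifs
    · rw [map_inv, hTz]
    · simp only [map_mul, map_inv, hTz, hTc]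
    · simp only [map_mul, map_inv, hTz, hTc]
    · rw [map_one]
  refine MulEquiv.ext fun w => ?_
  change TP s t (ef L c w) = ef L c (TP s t w)
  rw [ef_apply L c h hL hc, ef_apply L c h hL hc, TP_apply, TP_apply, cj_cj, cj_cj]
  refine cj_congr _ _ (fun f hf => ?_) w
  rw [hpu]
  by_cases h1 : s ≤ f ∧ f < t
  · have i1 : ind s t (Alp s t : Fr g n) f = Alp s t := if_pos h1
    rw [i1]
    rcases ho with ho | ho
    · rw [cj_Alp_in (pu L c (c + 1)) s t _ fun a h1 h2 => PA1_mid L c (c + 1) a (by omega) (by omega),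
        PA1_mid L c (c + 1) f (by omega) (by omega)]
      group
    · rw [cj_Alp_in (pu L c (c + 1)) s t 1 fun a h1 h2 =>
        PA1_out L c (c + 1) a (by omega) (by omega) (by omega),
        PA1_out L c (c + 1) f (by omega) (by omega) (by omega)]
      group
  · have i1 : ind s t (Alp s t : Fr g n) f = 1 := if_neg h1
    rw [i1, map_one, one_mul, mul_one]
-- END PA7

-- MODULE PA8
/-- The twist around the block and L commutes with the pushes around the feet of the block. PROOF. W = cj (wu L s t) (PA6), e = ef L c = cj (pu L c (c+1)), s ≤ c < t, d = Alp s t = a c b, a = Alp s c, b = Alp (c+1) t. h = z⁻¹c⁻¹zc. e z = z⁻¹c⁻¹zcz = h z,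
e d = a (z⁻¹cz)(h b h⁻¹) = d h⁻¹ (a z⁻¹ c z h = a c b h⁻¹..: z⁻¹czh = z⁻¹cz z⁻¹c⁻¹zc = c), so e (dz) = dz. W X = dz X (dz)⁻¹ for X in {z, gen c, a, b} (feet in the block or L). Conjugators of W e and e W (cj_cj), W e at f: W (pu f) * wu f; e W: e (wu f) * pu f.
s ≤ f < c: dz = e (dz). f = c: W (z⁻¹) dz = dz z⁻¹ = e (dz) z⁻¹. c < f < t: W h * dz = dz h = e (dz) h. t ≤ f < L: wu = dz (zd)⁻¹: W h * dz (zd)⁻¹ = dz h (zd)⁻¹; e (dz (zd)⁻¹) * h = dz * (h z d h⁻¹)⁻¹ * h = dz h (zd)⁻¹ (e (zd) = (h z)(d h⁻¹)).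
f = L: compare the values at the letter L: W e z = W (h z) = dz h z (dz)⁻¹, e W z = e (dz z (dz)⁻¹) = dz h z (dz)⁻¹. -/
theorem W_comm (L s t c : ℕ) (h : 2 * g ≤ L) (hL : L < 2 * g + n) (hs : s < t) (ht : t ≤ L)
    (hc' : ¬ (c < 2 * g ∧ c % 2 = 1)) (h1 : s ≤ c) (h2 : c < t) :
    Commute ((E L (Alp s t : Fr g n))⁻¹ * TP s t : MulAut (Fr g n)) (ef L c) := by
  have hc : c < L := by omega
  have hA : (Alp c (c + 1) : Fr g n) = gen c := by rw [Alp_one, alp_even c hc']
  have hd : (Alp s t : Fr g n) = Alp s c * gen c * Alp (c + 1) t := by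
    rw [Alp_split s c t h1 h2.le, Alp_cons c t h2, alp_even c hc', mul_assoc]
  -- the values of `e`
  have ez : cj (pu L c (c + 1)) (gen L : Fr g n) =
      (gen L)⁻¹ * (gen c)⁻¹ * gen L * gen c * gen L := by
    rw [PA1_z L c (c + 1) h (by omega), hA]
  have ec : cj (pu L c (c + 1)) (gen c : Fr g n) = (gen L)⁻¹ * gen c * gen L := by
    rw [← hA, PA1_d]
  have ea : cj (pu L c (c + 1)) (Alp s c : Fr g n) = Alp s c := by
    rw [cj_Alp_in _ s c 1 fun a h1 h2 => PA1_out L c (c + 1) a (by omega) (by omega) (by omega)]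
    group
  have eb : cj (pu L c (c + 1)) (Alp (c + 1) t : Fr g n) =
      ((gen L)⁻¹ * (gen c)⁻¹ * gen L * gen c) * Alp (c + 1) t *
        ((gen L)⁻¹ * (gen c)⁻¹ * gen L * gen c)⁻¹ := by
    rw [cj_Alp_in _ (c + 1) t _ fun a h1 h2 => PA1_mid L c (c + 1) a (by omega) (by omega), hA]
  -- the values of `W`
  have Wz : cj (wu L s t) (gen L : Fr g n) =
      (Alp s c * gen c * Alp (c + 1) t * gen L) * gen L *
        (Alp s c * gen c * Alp (c + 1) t * gen L)⁻¹ := by
    rw [cj_gen _ (by omega), PA6_L L s t ht, hd]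
  have Wc : cj (wu L s t) (gen c : Fr g n) =
      (Alp s c * gen c * Alp (c + 1) t * gen L) * gen c *
        (Alp s c * gen c * Alp (c + 1) t * gen L)⁻¹ := by
    rw [cj_gen _ hc', PA6_in L s t c h1 h2, hd]
  refine MulEquiv.ext fun w => ?_
  change ((E L (Alp s t : Fr g n))⁻¹ * TP s t : MulAut (Fr g n)) (ef L c w) =
    ef L c (((E L (Alp s t : Fr g n))⁻¹ * TP s t : MulAut (Fr g n)) w)
  rw [W_apply L s t h hL hs ht, W_apply L s t h hL hs ht, ef_apply L c h hL hc,
    ef_apply L c h hL hc, cj_cj, cj_cj]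
  refine PA1_eq _ _ L h (fun f hf hfL => ?_) ?_ w
  · by_cases k1 : f < s ∨ L < f
    · rw [PA6_out L s t f ht k1 hs.le, PA1_out L c (c + 1) f (by omega) (by omega) (by omega),
        map_one, map_one]
    by_cases k2 : f < c
    · rw [PA6_in L s t f (by omega) (by omega), PA1_out L c (c + 1) f (by omega) (by omega)
        (by omega), hd]
      simp only [map_mul, map_inv, map_one, ez, ec, ea, eb]
      group
    by_cases k3 : f = c
    · subst k3
      rw [PA6_in L s t f (by omega) (by omega), PA1_in L f (f + 1) f (by omega) (by omega), hd]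
      simp only [map_mul, map_inv, map_one, ez, ec, ea, eb, Wz, Wc]
      group
    by_cases k4 : f < t
    · rw [PA6_in L s t f (by omega) (by omega), PA1_mid L c (c + 1) f (by omega) (by omega), hd,
        hA]
      simp only [map_mul, map_inv, map_one, ez, ec, ea, eb, Wz, Wc]
      group
    · rw [PA6_mid L s t f (by omega) (by omega), PA1_mid L c (c + 1) f (by omega) (by omega), hd,
        hA]
      simp only [map_mul, map_inv, map_one, ez, ec, ea, eb, Wz, Wc]
      group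
  · rw [PA6_L L s t ht, PA1_L L c (c + 1) (by omega), hd, hA]
    simp only [map_mul, map_inv, map_one, ez, ec, ea, eb, Wz, Wc]
    group
-- END PA8

-- MODULE PA9
/-- Equivariance under block twists, foot letters. PROOF. c outside of [s,t): TP s t fixes gen c (cj_gen, ind), TP_el_out, E_gen, el_even. c inside: T (gen c) = d gen c d⁻¹; T = D W with D = E L d, W = D⁻¹ T: T e T⁻¹ = D (W e W⁻¹) D⁻¹ = D e D⁻¹ (W_comm) = E L (d gen c d⁻¹). -/
theorem TP_el_foot (L s t c : ℕ) (h : 2 * g ≤ L) (hL : L < 2 * g + n) (hs : s < t) (ht : t ≤ L)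
    (hc : c < L) (hc' : ¬ (c < 2 * g ∧ c % 2 = 1)) :
    TP s t * E L (gen c : Fr g n) * (TP s t)⁻¹ = E L (TP s t (gen c : Fr g n)) := by
  have he : E L (gen c : Fr g n) = ef L c := by
    rw [E_gen L c hc (by omega), el_even L c hc']
  by_cases ho : c < s ∨ t ≤ c
  · have i1 : ind s t (Alp s t : Fr g n) c = 1 := if_neg (by omega)
    have hT : TP s t (gen c : Fr g n) = gen c := by
      rw [TP_apply, cj_gen _ hc', i1]
      group
    rw [hT, he, (TP_el_out L s t c h hL hs ht hc hc' ho).eq, mul_inv_cancel_right]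
  · have i1 : ind s t (Alp s t : Fr g n) c = Alp s t := if_pos (by omega)
    have hT : TP s t (gen c : Fr g n) = Alp s t * gen c * (Alp s t)⁻¹ := by
      rw [TP_apply, cj_gen _ hc', i1]
    have hW := (W_comm L s t c h hL hs ht hc' (by omega) (by omega)).eq
    rw [hT, map_mul, map_mul, map_inv, he]
    set D := E L (Alp s t : Fr g n) with hD
    have e1 : TP s t * ef L c = D * (ef L c * (D⁻¹ * TP s t)) := by
      rw [← hW]
      group
    rw [e1]
    group
-- END PA9

-- MODULE PB1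
/-- Bt i commutes with the push around a foot with a letter loop, different from the foot 2i. -/
private theorem PB1_foot (L i c : ℕ) (h : 2 * g ≤ L) (hL : L < 2 * g + n) (hi : i < g) (hc : c < L)
    (hc' : ¬ (c < 2 * g ∧ c % 2 = 1)) (hci : c ≠ 2 * i) :
    Commute (Bt i : MulAut (Fr g n)) (ef L c) := by
  have bz : Bt i (gen L : Fr g n) = gen L := Bt_ne i L (by omega)
  have bc : Bt i (gen c : Fr g n) = gen c := Bt_ne i c hci
  have by' : Bt i (gen (2 * i + 1) : Fr g n) = gen (2 * i + 1) := Bt_ne i _ (by omega)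
  apply aut_ext
  intro a ha
  change Bt i (ef L c (gen a)) = ef L c (Bt i (gen a))
  by_cases h1 : L < a
  · rw [Bt_ne i a (by omega), PA3_gt L c a h hL hc h1, Bt_ne i a (by omega)]
  by_cases h2 : a = L
  · rw [h2, bz, PA3_z L c h hL hc hc']
    simp only [map_mul, map_inv, bz, bc]
  by_cases h3 : a = c
  · rw [h3, bc, PA3_c L c h hL hc hc']
    simp only [map_mul, map_inv, bz, bc]
  by_cases h4 : a = 2 * i
  · subst h4
    rw [Bt_x i hi, map_mul, map_inv]
    by_cases h5 : 2 * i < c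
    · rw [PA3_lt L c (2 * i) h hL hc h5, PA3_lt L c (2 * i + 1) h hL hc (by omega), Bt_x i hi]
    · rw [PA3_mid L c (2 * i) h hL hc' (by omega) (by omega) (by omega),
        PA3_mid L c (2 * i + 1) h hL hc' (by omega) (by omega) (by omega)]
      simp only [map_mul, map_inv, bz, bc, Bt_x i hi]
      group
  have ba : Bt i (gen a : Fr g n) = gen a := Bt_ne i a h4
  rw [ba]
  by_cases h5 : a < c
  · rw [PA3_lt L c a h hL hc h5, ba]
  by_cases h6 : c < 2 * g ∧ a / 2 = c / 2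
  · obtain ⟨j, rfl⟩ : ∃ j, c = 2 * j := ⟨c / 2, by omega⟩
    have e : a = 2 * j + 1 := by omega
    rw [e] at ba ⊢
    rw [PA3_y L j h hL (by omega)]
    simp only [map_mul, map_inv, bz, bc, ba]
  · rw [PA3_mid L c a h hL hc' (by omega) (by omega) h6]
    simp only [map_mul, map_inv, bz, bc, ba]

/-- Bt i and the pushes. PROOF. c = 2i: Bt i (gen c) = x y⁻¹ (HG13.Bt_x), and B E(x) B⁻¹ = E(x) E(y)⁻¹ because E(y) = B E(x)⁻¹ B⁻¹ E(x) (E_gen, el_odd, el_even). c = 2i + 1 (Bt i fixes gen c, HG13.Bt_ne): B el(y) = el(y) B on letters with PA3: x: B (x z) = x y⁻¹ z,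
el(y)(x y⁻¹) = x z z⁻¹y⁻¹z; the other letters: the values of el(y) do not involve x. c even or puncture, c ≠ 2i: el L c = ef L c = cj u, u = pu L c (c+1) has values in z, gen c, fixed by B, and u (2i) = u (2i+1) =: w; letters a ≠ 2i: B (e a) = e a = e (B a);
a = 2i: B (w x w⁻¹) = w x y⁻¹ w⁻¹ = e (x y⁻¹). c = 2j + 1, j ≠ i: el_odd; Bt i commutes with Bt j (HG13.Bt_comm) and with ef L (2j). -/
theorem Bt_el (L i c : ℕ) (h : 2 * g ≤ L) (hL : L < 2 * g + n) (hi : i < g) (hc : c < L) :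
    Bt i * E L (gen c : Fr g n) * (Bt i)⁻¹ = E L (Bt i (gen c : Fr g n)) := by
  have hx : E L (gen (2 * i) : Fr g n) = ef L (2 * i) := by
    rw [E_gen L _ (by omega) (by omega), el_even L _ (by omega)]
  by_cases h1 : c = 2 * i
  · subst h1
    rw [Bt_x i hi, map_mul, map_inv, hx, E_gen L (2 * i + 1) (by omega) (by omega), el_odd L i hi]
    group
  rw [Bt_ne i c h1]
  by_cases h2 : c = 2 * i + 1
  · subst h2
    rw [mul_inv_eq_iff_eq_mul, E_gen L (2 * i + 1) (by omega) (by omega)]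
    have bz : Bt i (gen L : Fr g n) = gen L := Bt_ne i L (by omega)
    have by' : Bt i (gen (2 * i + 1) : Fr g n) = gen (2 * i + 1) := Bt_ne i _ (by omega)
    apply aut_ext
    intro a ha
    change Bt i (el L (2 * i + 1) (gen a)) = el L (2 * i + 1) (Bt i (gen a))
    by_cases k1 : L < a
    · rw [Bt_ne i a (by omega), PA3_ogt L i a h hL hi k1, Bt_ne i a (by omega)]
    by_cases k2 : a = L
    · rw [k2, bz, PA3_oz L i h hL hi]
      simp only [map_mul, map_inv, bz, by']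
    by_cases k3 : a = 2 * i + 1
    · rw [k3, by', PA3_oy L i h hL hi]
      simp only [map_mul, map_inv, bz, by']
    by_cases k4 : a = 2 * i
    · rw [k4, Bt_x i hi]
      simp only [map_mul, map_inv, bz, by', PA3_ox L i h hL hi, PA3_oy L i h hL hi, Bt_x i hi]
      group
    have ba : Bt i (gen a : Fr g n) = gen a := Bt_ne i a k4
    rw [ba]
    by_cases k5 : a < 2 * i
    · rw [PA3_olt L i a h hL hi k5, ba]
    · rw [PA3_omid L i a h hL hi (by omega) (by omega)]
      simp only [map_mul, map_inv, bz, by', ba]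
  · rw [mul_inv_eq_iff_eq_mul, E_gen L c hc (by omega)]
    by_cases ho : c < 2 * g ∧ c % 2 = 1
    · obtain ⟨j, rfl⟩ : ∃ j, c = 2 * j + 1 := ⟨c / 2, by omega⟩
      have hj : j < g := by omega
      have c1 : Commute (Bt i : MulAut (Fr g n)) (Bt j) := Bt_comm i j hi hj
      have c2 : Commute (Bt i : MulAut (Fr g n)) (ef L (2 * j)) :=
        PB1_foot L i (2 * j) h hL hi (by omega) (by omega) (by omega)
      rw [el_odd L j hj]
      exact (((c1.mul_right c2.inv_right).mul_right c1.inv_right).mul_right c2).eq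
    · rw [el_even L c ho]
      exact (PB1_foot L i c h hL hi hc ho h1).eq
-- END PB1

-- MODULE PB2
/-- Conjugation of interval loops by a map which conjugates the letters. -/
private theorem PB2_Alp (φ : MulAut (Fr g n)) (k : Fr g n) (s t : ℕ)
    (hse : ¬ (s < 2 * g ∧ s % 2 = 1)) (h : ∀ a, s ≤ a → a < t → φ (gen a) = k * gen a * k⁻¹) :
    φ (Alp s t) = k * Alp s t * k⁻¹ := by
  have h1 : ∀ c, s ≤ c → c < t → φ (alp c) = k * alp c * k⁻¹ := by
    intro c hc hc'
    unfold alp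
    by_cases ho : c < 2 * g ∧ c % 2 = 1
    · rw [if_pos ho]
      simp only [map_mul, map_inv]
      rw [h c hc hc', h (c - 1) (by omega) (by omega)]
      group
    · rw [if_neg ho, h c hc hc']
  unfold Alp
  have : ∀ l : List ℕ, (∀ c ∈ l, φ (alp c) = k * alp c * k⁻¹) →
      φ ((l.map alp).prod) = k * (l.map alp).prod * k⁻¹ := by
    intro l
    induction l with
    | nil => intro _; simp
    | cons a l ih =>
      intro hl
      simp only [List.map_cons, List.prod_cons, map_mul]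
      rw [ih (fun c hc => hl c (by simp [hc])), hl a (by simp)]
      group
  apply this
  intro c hc
  rw [List.mem_range'_1] at hc
  exact h1 c hc.1 (by omega)

/-- Equivariance, letter y, the block starts at the foot 2i + 1. PROOF. T y = y d⁻¹ (d = Alp s t, s = 2i+1), so the claim is T E = E (E L d)⁻¹ T = E W, E := el L (2i+1), W = cj (wu L s t) (PA6): for every letter a: T (E a) = E (W a). k := z⁻¹y⁻¹zy, E z = k z. E (alp (2i+1)) =
E (y⁻¹x⁻¹y) = (z⁻¹y⁻¹z)(z⁻¹x⁻¹)(z⁻¹yz) = z⁻¹ alp(2i+1) z⁻¹... = z⁻¹ y⁻¹ x⁻¹ z⁻¹ y z; E (alp f) = k alp f k⁻¹ for f > 2i+1; with z⁻¹yz k = y: E d = z⁻¹ d k⁻¹, E (dz) = z⁻¹dz. Letters: x (= gen (2i)): T (xz) = xz = E x, W x = x. y: T (z⁻¹yz) = z⁻¹yd⁻¹z; W y = y (dz)⁻¹, E: z⁻¹yz z⁻¹d⁻¹z.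
z: T (z⁻¹y⁻¹zyz) = z⁻¹dy⁻¹zyd⁻¹z; W z = dz z (dz)⁻¹, E: (z⁻¹dz)(z⁻¹y⁻¹zyz)(z⁻¹dz)⁻¹. a in (2i+1,t): T (k a k⁻¹), T a = d a d⁻¹, (T k) d = z⁻¹dy⁻¹zy; W a = dz a (dz)⁻¹, E (dz) k = z⁻¹dy⁻¹zy. a in [t,L): T k = z⁻¹dy⁻¹zyd⁻¹; E (dz (zd)⁻¹) k = z⁻¹dz (k d k⁻¹)⁻¹ k = z⁻¹dz k d⁻¹ = T k
(E (zd) = k z z⁻¹ d k⁻¹). Letters < 2i or > L are fixed by all maps. -/
theorem TP_el_start (L t i : ℕ) (h : 2 * g ≤ L) (hL : L < 2 * g + n) (hs : 2 * i + 1 < t)
    (ht : t ≤ L) (hi : i < g) :
    TP (2 * i + 1) t * E L (gen (2 * i + 1) : Fr g n) * (TP (2 * i + 1) t)⁻¹ =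
      E L (TP (2 * i + 1) t (gen (2 * i + 1) : Fr g n)) := by
  -- the values of `T`
  have Tx : TP (2 * i + 1) t (gen (2 * i) : Fr g n) = gen (2 * i) := by
    have i1 : ind (2 * i + 1) t (Alp (2 * i + 1) t : Fr g n) (2 * i) = 1 := if_neg (by omega)
    rw [TP_apply, cj_gen _ (by omega), i1]
    group
  have Ty : TP (2 * i + 1) t (gen (2 * i + 1) : Fr g n) =
      gen (2 * i + 1) * (Alp (2 * i + 1) t)⁻¹ := by
    have i1 : ind (2 * i + 1) t (Alp (2 * i + 1) t : Fr g n) (2 * i) = 1 := if_neg (by omega)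
    have i2 : ind (2 * i + 1) t (Alp (2 * i + 1) t : Fr g n) (2 * i + 1) = Alp (2 * i + 1) t :=
      if_pos (by omega)
    rw [TP_apply, cj_gen_odd _ (by omega) (by omega), show 2 * i + 1 - 1 = 2 * i by omega, i1, i2]
    group
  have Tz : TP (2 * i + 1) t (gen L : Fr g n) = gen L := PA7_z _ t L h ht
  have Td : TP (2 * i + 1) t (Alp (2 * i + 1) t : Fr g n) = Alp (2 * i + 1) t :=
    (TP_Alp _ _ _ _ hs hs).1 (Or.inr ⟨le_rfl, le_rfl⟩)
  -- the values of `W`
  have hW := W_apply (n := n) L (2 * i + 1) t h hL hs ht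
  -- the values of `E`
  have Ex := PA3_ox (n := n) L i h hL hi
  have Ey := PA3_oy (n := n) L i h hL hi
  have Ez := PA3_oz (n := n) L i h hL hi
  have Ed2 : el L (2 * i + 1) (Alp (2 * i + 2) t : Fr g n) =
      ((gen L)⁻¹ * (gen (2 * i + 1))⁻¹ * gen L * gen (2 * i + 1)) * Alp (2 * i + 2) t *
        ((gen L)⁻¹ * (gen (2 * i + 1))⁻¹ * gen L * gen (2 * i + 1))⁻¹ :=
    PB2_Alp _ _ _ _ (by omega) fun a h1 h2 => PA3_omid L i a h hL hi (by omega) (by omega)
  have hd : (Alp (2 * i + 1) t : Fr g n) =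
      (gen (2 * i + 1))⁻¹ * (gen (2 * i))⁻¹ * gen (2 * i + 1) * Alp (2 * i + 2) t := by
    rw [Alp_cons _ _ hs, alp_odd i hi]
  have Ed : el L (2 * i + 1) (Alp (2 * i + 1) t : Fr g n) =
      (gen L)⁻¹ * Alp (2 * i + 1) t *
        ((gen L)⁻¹ * (gen (2 * i + 1))⁻¹ * gen L * gen (2 * i + 1))⁻¹ := by
    rw [hd]
    simp only [map_mul, map_inv, Ex, Ey, Ed2]
    group
  have key : TP (2 * i + 1) t * el L (2 * i + 1) =
      el L (2 * i + 1) * ((E L (Alp (2 * i + 1) t : Fr g n))⁻¹ * TP (2 * i + 1) t) := by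
    apply aut_ext
    intro a ha
    change TP (2 * i + 1) t (el L (2 * i + 1) (gen a)) = el L (2 * i + 1)
      (((E L (Alp (2 * i + 1) t : Fr g n))⁻¹ * TP (2 * i + 1) t : MulAut (Fr g n)) (gen a))
    rw [hW]
    by_cases k1 : a < 2 * i ∨ L < a
    · have e1 : cj (wu L (2 * i + 1) t) (gen a : Fr g n) = gen a := by
        by_cases ho : a < 2 * g ∧ a % 2 = 1
        · rw [cj_gen_odd _ ho.1 ho.2, PA6_out L _ _ a ht (by omega) hs.le,
            PA6_out L _ _ (a - 1) ht (by omega) hs.le]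
          group
        · rw [cj_gen _ ho, PA6_out L _ _ a ht (by omega) hs.le]
          group
      have e2 : TP (2 * i + 1) t (gen a : Fr g n) = gen a := by
        rw [TP_apply]
        have i1 : ind (2 * i + 1) t (Alp (2 * i + 1) t : Fr g n) a = 1 := if_neg (by omega)
        by_cases ho : a < 2 * g ∧ a % 2 = 1
        · have i2 : ind (2 * i + 1) t (Alp (2 * i + 1) t : Fr g n) (a - 1) = 1 :=
            if_neg (by omega)
          rw [cj_gen_odd _ ho.1 ho.2, i1, i2]
          group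
        · rw [cj_gen _ ho, i1]
          group
      rw [e1]
      rcases k1 with k1 | k1
      · rw [PA3_olt L i a h hL hi k1, e2]
      · rw [PA3_ogt L i a h hL hi k1, e2]
    by_cases k2 : a = 2 * i
    · subst k2
      rw [cj_gen _ (by omega), PA6_out L _ _ (2 * i) ht (by omega) hs.le, one_mul, inv_one,
        mul_one, Ex, map_mul, Tx, Tz]
    by_cases k3 : a = 2 * i + 1
    · subst k3
      rw [cj_gen_odd _ (by omega) (by omega), show 2 * i + 1 - 1 = 2 * i by omega,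
        PA6_out L _ _ (2 * i) ht (by omega) hs.le, PA6_in L _ _ (2 * i + 1) (by omega) hs]
      simp only [map_mul, map_inv, map_one, Ex, Ey, Ez, Ed, Tx, Ty, Tz, Td]
      group
    by_cases k4 : a = L
    · rw [k4, cj_gen _ (by omega), PA6_L L _ _ ht]
      simp only [map_mul, map_inv, map_one, Ex, Ey, Ez, Ed, Tx, Ty, Tz, Td]
      group
    · have ea := PA3_omid (n := n) L i a h hL hi (by omega) (by omega)
      -- the feet
      have ft : ∀ f, 2 * i + 1 < f → f < L →
          TP (2 * i + 1) t ((gen L)⁻¹ * (gen (2 * i + 1))⁻¹ * gen L * gen (2 * i + 1) : Fr g n) *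
            ind (2 * i + 1) t (Alp (2 * i + 1) t) f =
          el L (2 * i + 1) (wu L (2 * i + 1) t f) *
            ((gen L)⁻¹ * (gen (2 * i + 1))⁻¹ * gen L * gen (2 * i + 1)) := by
        intro f f1 f2
        by_cases f3 : f < t
        · have i1 : ind (2 * i + 1) t (Alp (2 * i + 1) t : Fr g n) f = Alp (2 * i + 1) t :=
            if_pos (by omega)
          rw [i1, PA6_in L _ _ f (by omega) f3]
          simp only [map_mul, map_inv, map_one, Ex, Ey, Ez, Ed, Tx, Ty, Tz, Td]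
          group
        · have i1 : ind (2 * i + 1) t (Alp (2 * i + 1) t : Fr g n) f = 1 := if_neg (by omega)
          rw [i1, PA6_mid L _ _ f (by omega) f2]
          simp only [map_mul, map_inv, map_one, Ex, Ey, Ez, Ed, Tx, Ty, Tz, Td]
          group
      obtain ⟨k, hk⟩ : ∃ k : Fr g n, k = (gen L)⁻¹ * (gen (2 * i + 1))⁻¹ * gen L *
        gen (2 * i + 1) := ⟨_, rfl⟩
      simp only [← hk] at ea ft
      rw [ea]
      by_cases ho : a < 2 * g ∧ a % 2 = 1
      · have f1 := ft a (by omega) (by omega)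
        have f2 := ft (a - 1) (by omega) (by omega)
        rw [cj_gen_odd _ ho.1 ho.2, map_mul, map_mul, map_inv, map_mul, map_mul, map_inv,
          TP_apply _ _ (gen a), cj_gen_odd _ ho.1 ho.2, ea]
        calc _ = (TP (2 * i + 1) t k * ind (2 * i + 1) t (Alp (2 * i + 1) t) (a - 1)) * gen a *
              (TP (2 * i + 1) t k * ind (2 * i + 1) t (Alp (2 * i + 1) t) a)⁻¹ := by group
          _ = _ := by
            rw [f1, f2]
            group
      · have f1 := ft a (by omega) (by omega)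
        rw [cj_gen _ ho, map_mul, map_mul, map_inv, map_mul, map_mul, map_inv,
          TP_apply _ _ (gen a), cj_gen _ ho, ea]
        calc _ = (TP (2 * i + 1) t k * ind (2 * i + 1) t (Alp (2 * i + 1) t) a) * gen a *
              (TP (2 * i + 1) t k * ind (2 * i + 1) t (Alp (2 * i + 1) t) a)⁻¹ := by group
          _ = _ := by
            rw [f1]
            group
  rw [Ty, map_mul, map_inv, E_gen L (2 * i + 1) (by omega) (by omega), key]
  group
-- END PB2

-- MODULE PB3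
/-- A map which fixes the letters before `t` fixes the interval loops. -/
private theorem PB3_fix (φ : MulAut (Fr g n)) (s t : ℕ) (h : ∀ a, a < t → φ (gen a) = gen a) :
    φ (Alp s t) = Alp s t := by
  unfold Alp
  have : ∀ l : List ℕ, (∀ c ∈ l, c < t) → φ ((l.map alp).prod) = (l.map alp).prod := by
    intro l
    induction l with
    | nil => intro _; simp
    | cons a l ih =>
      intro hl
      have ha : a < t := hl a (by simp)
      have h1 : φ (alp a) = alp a := by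
        unfold alp
        by_cases ho : a < 2 * g ∧ a % 2 = 1
        · rw [if_pos ho]
          simp only [map_mul, map_inv]
          rw [h a ha, h (a - 1) (by omega)]
        · rw [if_neg ho, h a ha]
      simp only [List.map_cons, List.prod_cons, map_mul]
      rw [ih (fun c hc => hl c (by simp [hc])), h1]
  apply this
  intro c hc
  rw [List.mem_range'_1] at hc
  omega

/-- Equivariance, letter y, the block ends at the foot 2i. PROOF. T y = d y (d = Alp s t, t = 2i+1), the claim is T E = (E L d) E T, i.e. W E = E T with W = cj (wu L s t) (PA6), E := el L (2i+1): for every letter a: W (E a) = E (T a). E d = d z (d = d' x, E d' = d', E x = xz). W X = dz X (dz)⁻¹ for X = x, z and the letters in the block.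
x: W (xz) = dz xz (dz)⁻¹; T x = d x d⁻¹, E: dz xz (dz)⁻¹. y: W y = dz y (dz (zd)⁻¹)⁻¹ = dz y zd (dz)⁻¹, W (z⁻¹yz) = (dz z⁻¹ (dz)⁻¹)(dz y zd (dz)⁻¹)(dz z (dz)⁻¹) = d y z; T y = d y, E: dz z⁻¹yz = d y z. z: E z = Y⁻¹ z Y, Y = z⁻¹yz, W Y = d y z, W z = dz z (dz)⁻¹ = d z d⁻¹:
W (E z) = (dyz)⁻¹ (d z d⁻¹) (dyz) = z⁻¹y⁻¹zyz = E z = E (T z). a in [t,L), a ≠ 2i+1: E a = k a k⁻¹, k = (E z) z⁻¹, W k * (dz (zd)⁻¹) = (E z)(W z)⁻¹ dz (zd)⁻¹ = (E z)(d z⁻¹ d⁻¹) dz d⁻¹z⁻¹ = k. a in [s,t), a ≠ 2i: W a = dz a (dz)⁻¹ = E (d a d⁻¹). Other letters: fixed.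
(Odd letters a ≠ 2i+1: both feet have the same conjugators.) -/
theorem TP_el_end (L s i : ℕ) (h : 2 * g ≤ L) (hL : L < 2 * g + n) (hs : s < 2 * i + 1)
    (ht : 2 * i + 1 ≤ L) (hi : i < g) :
    TP s (2 * i + 1) * E L (gen (2 * i + 1) : Fr g n) * (TP s (2 * i + 1))⁻¹ =
      E L (TP s (2 * i + 1) (gen (2 * i + 1) : Fr g n)) := by
  have j0 : ∀ f, s ≤ f → f < 2 * i + 1 → ind s (2 * i + 1) (Alp s (2 * i + 1) : Fr g n) f =
      Alp s (2 * i + 1) := fun f h1 h2 => if_pos ⟨h1, h2⟩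
  have j1 : ∀ f, (f < s ∨ 2 * i + 1 ≤ f) → ind s (2 * i + 1) (Alp s (2 * i + 1) : Fr g n) f = 1 :=
    fun f h1 => if_neg (by omega)
  -- the values of `T`
  have Tx : TP s (2 * i + 1) (gen (2 * i) : Fr g n) =
      Alp s (2 * i + 1) * gen (2 * i) * (Alp s (2 * i + 1))⁻¹ := by
    rw [TP_apply, cj_gen _ (by omega), j0 _ (by omega) (by omega)]
  have Ty : TP s (2 * i + 1) (gen (2 * i + 1) : Fr g n) = Alp s (2 * i + 1) * gen (2 * i + 1) := by
    rw [TP_apply, cj_gen_odd _ (by omega) (by omega), show 2 * i + 1 - 1 = 2 * i by omega,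
      j0 _ (by omega) (by omega), j1 _ (by omega)]
    group
  have Tz : TP s (2 * i + 1) (gen L : Fr g n) = gen L := PA7_z _ _ L h ht
  -- the values of `E`
  have Ex := PA3_ox (n := n) L i h hL hi
  have Ey := PA3_oy (n := n) L i h hL hi
  have Ez := PA3_oz (n := n) L i h hL hi
  have Ed : el L (2 * i + 1) (Alp s (2 * i + 1) : Fr g n) = Alp s (2 * i + 1) * gen L := by
    rw [Alp_snoc s (2 * i) (by omega), alp_even (2 * i) (by omega), map_mul, Ex,
      PB3_fix _ s (2 * i) fun a ha => PA3_olt L i a h hL hi ha]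
    group
  -- the values of `W`
  have Wx : cj (wu L s (2 * i + 1)) (gen (2 * i) : Fr g n) = Alp s (2 * i + 1) * gen L *
      gen (2 * i) * (Alp s (2 * i + 1) * gen L)⁻¹ := by
    rw [cj_gen _ (by omega), PA6_in L _ _ _ (by omega) (by omega)]
  have Wy : cj (wu L s (2 * i + 1)) (gen (2 * i + 1) : Fr g n) = Alp s (2 * i + 1) * gen L *
      gen (2 * i + 1) *
        (Alp s (2 * i + 1) * gen L * (Alp s (2 * i + 1))⁻¹ * (gen L)⁻¹)⁻¹ := by
    rw [cj_gen_odd _ (by omega) (by omega), show 2 * i + 1 - 1 = 2 * i by omega,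
      PA6_in L _ _ _ (by omega) (by omega), PA6_mid L _ _ _ (by omega) (by omega)]
  have Wz : cj (wu L s (2 * i + 1)) (gen L : Fr g n) = Alp s (2 * i + 1) * gen L *
      gen L * (Alp s (2 * i + 1) * gen L)⁻¹ := by
    rw [cj_gen _ (by omega), PA6_L L _ _ ht]
  have hW := W_apply (n := n) L s (2 * i + 1) h hL hs ht
  have key : ((E L (Alp s (2 * i + 1) : Fr g n))⁻¹ * TP s (2 * i + 1)) * el L (2 * i + 1) =
      el L (2 * i + 1) * TP s (2 * i + 1) := by
    apply aut_ext
    intro a ha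
    change ((E L (Alp s (2 * i + 1) : Fr g n))⁻¹ * TP s (2 * i + 1) : MulAut (Fr g n))
      (el L (2 * i + 1) (gen a)) = el L (2 * i + 1) (TP s (2 * i + 1) (gen a))
    rw [hW]
    by_cases k1 : L < a
    · rw [PA3_ogt L i a h hL hi k1, TP_apply, cj_gen _ (by omega), cj_gen _ (by omega),
        PA6_out L _ _ a ht (by omega) hs.le, j1 a (by omega), one_mul, inv_one, mul_one,
        PA3_ogt L i a h hL hi k1]
    by_cases k2 : a < 2 * i
    · have ft : ∀ f, f < 2 * i → el L (2 * i + 1)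
          (ind s (2 * i + 1) (Alp s (2 * i + 1) : Fr g n) f) = wu L s (2 * i + 1) f := by
        intro f hf
        by_cases h1 : f < s
        · rw [j1 f (by omega), PA6_out L _ _ f ht (by omega) hs.le, map_one]
        · rw [j0 f (by omega) (by omega), PA6_in L _ _ f (by omega) (by omega), Ed]
      have ea := PA3_olt (n := n) L i a h hL hi k2
      rw [ea, TP_apply]
      by_cases ho : a < 2 * g ∧ a % 2 = 1
      · rw [cj_gen_odd _ ho.1 ho.2, cj_gen_odd _ ho.1 ho.2, map_mul, map_mul, map_inv,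
          ft a k2, ft (a - 1) (by omega), ea]
      · rw [cj_gen _ ho, cj_gen _ ho, map_mul, map_mul, map_inv, ft a k2, ea]
    by_cases k3 : a = 2 * i
    · rw [k3]
      simp only [map_mul, map_inv, Ex, Tx, Ed, Wx, Wz]
      group
    by_cases k4 : a = 2 * i + 1
    · rw [k4]
      simp only [map_mul, map_inv, Ex, Ey, Ez, Tx, Ty, Ed, Wx, Wy, Wz]
      group
    by_cases k5 : a = L
    · rw [k5]
      simp only [map_mul, map_inv, Ex, Ey, Ez, Tx, Ty, Tz, Ed, Wx, Wy, Wz]
      group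
    · have ea := PA3_omid (n := n) L i a h hL hi (by omega) (by omega)
      have Wa : cj (wu L s (2 * i + 1)) (gen a : Fr g n) =
          (Alp s (2 * i + 1) * gen L * (Alp s (2 * i + 1))⁻¹ * (gen L)⁻¹) * gen a *
          (Alp s (2 * i + 1) * gen L * (Alp s (2 * i + 1))⁻¹ * (gen L)⁻¹)⁻¹ := by
        by_cases ho : a < 2 * g ∧ a % 2 = 1
        · rw [cj_gen_odd _ ho.1 ho.2, PA6_mid L _ _ a (by omega) (by omega),
            PA6_mid L _ _ (a - 1) (by omega) (by omega)]
        · rw [cj_gen _ ho, PA6_mid L _ _ a (by omega) (by omega)]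
      have Ta : TP s (2 * i + 1) (gen a : Fr g n) = gen a := by
        rw [TP_apply]
        by_cases ho : a < 2 * g ∧ a % 2 = 1
        · rw [cj_gen_odd _ ho.1 ho.2, j1 a (by omega), j1 (a - 1) (by omega)]
          group
        · rw [cj_gen _ ho, j1 a (by omega)]
          group
      rw [Ta, ea]
      simp only [map_mul, map_inv, Ex, Ey, Ez, Tx, Ty, Tz, Ed, Wx, Wy, Wz, Wa]
      group
  rw [Ty, map_mul, E_gen L (2 * i + 1) (by omega) (by omega)]
  have e1 : TP s (2 * i + 1) * el L (2 * i + 1) =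
      E L (Alp s (2 * i + 1) : Fr g n) * (el L (2 * i + 1) * TP s (2 * i + 1)) := by
    rw [← key]
    group
  rw [e1]
  group
-- END PB3

-- MODULE PB4
private theorem PB4_mem (L i : ℕ) (h : 2 * g ≤ L) (hL : L < 2 * g + n) (hi : i < g) (s t : ℕ)
    (ht : t ≤ L) : Bt i * E L (Alp s t : Fr g n) * (Bt i)⁻¹ = E L (Bt i (Alp s t : Fr g n)) := by
  let H : Subgroup (Fr g n) := MonoidHom.eqLocus
    ((MulAut.conj (Bt i : MulAut (Fr g n))).toMonoidHom.comp (E L))
    ((E L).comp (Bt i : MulAut (Fr g n)).toMonoidHom)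
  have hg : ∀ c, c < L → (gen c : Fr g n) ∈ H := fun c hc => Bt_el L i c h hL hi hc
  have ha : ∀ c, c < L → (alp c : Fr g n) ∈ H := by
    intro c hc
    unfold alp
    split_ifs
    · exact H.mul_mem (H.mul_mem (H.inv_mem (hg c hc)) (H.inv_mem (hg (c - 1) (by omega))))
        (hg c hc)
    · exact hg c hc
  have hA : (Alp s t : Fr g n) ∈ H := by
    refine Subgroup.list_prod_mem _ fun x hx => ?_
    obtain ⟨c, hc, rfl⟩ := List.mem_map.1 hx
    rw [List.mem_range'_1] at hc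
    exact ha c (by omega)
  exact hA

/-- EQUIVARIANCE UNDER BLOCK TWISTS. PROOF. c even or puncture: PA9. c = 2i+1: if exactly one of the feet 2i, 2i+1 is in [s,t) then s = 2i+1 or t = 2i+1: PB2, PB3. Otherwise TP s t commutes with B = Bt i (HG13.TP_Bt_comm), and T y = u y u⁻¹, T x = u x u⁻¹ (x = gen (2i)), u = Alp s t or u = 1,
Bt i u = u (HG13.Bt_Alp). E(y) = B E(x)⁻¹ B⁻¹ E(x) (el_odd, E_gen); T E(x) T⁻¹ = E(u) E(x) E(u)⁻¹ (PA9); B E(u) B⁻¹ = E(B u) = E(u): Bt_el extends to all w in Subgroup.closure {gen c | c < L} (closure_induction), and Alp s t is in it. So T E(y) T⁻¹ =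
B E(u) E(x)⁻¹ E(u)⁻¹ B⁻¹ E(u) E(x) E(u)⁻¹ = E(u) B E(x)⁻¹ B⁻¹ E(x) E(u)⁻¹ = E(u y u⁻¹). -/
theorem TP_el (L s t c : ℕ) (h : 2 * g ≤ L) (hL : L < 2 * g + n) (hs : s < t) (ht : t ≤ L)
    (hc : c < L) :
    TP s t * E L (gen c : Fr g n) * (TP s t)⁻¹ = E L (TP s t (gen c : Fr g n)) := by
  by_cases hc' : c < 2 * g ∧ c % 2 = 1
  swap
  · exact TP_el_foot L s t c h hL hs ht hc hc'
  obtain ⟨i, rfl⟩ : ∃ i, c = 2 * i + 1 := ⟨c / 2, by omega⟩
  have hi : i < g := by omega
  by_cases h1 : s = 2 * i + 1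
  · subst h1
    exact TP_el_start L t i h hL hs ht hi
  by_cases h2 : t = 2 * i + 1
  · subst h2
    exact TP_el_end L s i h hL hs ht hi
  have hcase : 2 * i + 2 ≤ s ∨ t ≤ 2 * i ∨ (s ≤ 2 * i ∧ 2 * i + 2 ≤ t) := by omega
  have hTB := TP_Bt_comm (n := n) s t i hs (by omega) hi hcase
  have hx : E L (gen (2 * i) : Fr g n) = ef L (2 * i) := by
    rw [E_gen L _ (by omega) (by omega), el_even L _ (by omega)]
  have hT := TP_el_foot (n := n) L s t (2 * i) h hL hs ht (by omega) (by omega)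
  have hy : E L (gen (2 * i + 1) : Fr g n) =
      Bt i * (ef L (2 * i))⁻¹ * (Bt i)⁻¹ * ef L (2 * i) := by
    rw [E_gen L _ hc (by omega), el_odd L i hi]
  obtain ⟨u, hux, huy, hub⟩ : ∃ u : Fr g n, TP s t (gen (2 * i)) = u * gen (2 * i) * u⁻¹ ∧
      TP s t (gen (2 * i + 1)) = u * gen (2 * i + 1) * u⁻¹ ∧
      Bt i * E L u * (Bt i)⁻¹ = E L u := by
    by_cases h3 : s ≤ 2 * i ∧ 2 * i + 2 ≤ t
    · have i1 : ind s t (Alp s t : Fr g n) (2 * i) = Alp s t := if_pos (by omega)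
      have i2 : ind s t (Alp s t : Fr g n) (2 * i + 1) = Alp s t := if_pos (by omega)
      refine ⟨Alp s t, ?_, ?_, ?_⟩
      · rw [TP_apply, cj_gen _ (by omega), i1]
      · rw [TP_apply, cj_gen_odd _ (by omega) (by omega), show 2 * i + 1 - 1 = 2 * i by omega,
          i1, i2]
      · rw [PB4_mem L i h hL hi s t ht, (Bt_Alp i hi s t hs).1 hcase]
    · have i1 : ind s t (Alp s t : Fr g n) (2 * i) = 1 := if_neg (by omega)
      have i2 : ind s t (Alp s t : Fr g n) (2 * i + 1) = 1 := if_neg (by omega)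
      refine ⟨1, ?_, ?_, ?_⟩
      · rw [TP_apply, cj_gen _ (by omega), i1]
      · rw [TP_apply, cj_gen_odd _ (by omega) (by omega), show 2 * i + 1 - 1 = 2 * i by omega,
          i1, i2]
      · rw [map_one, mul_one, mul_inv_cancel]
  rw [hux, map_mul, map_mul, map_inv, hx] at hT
  rw [huy, map_mul, map_mul, map_inv, hy]
  set B : MulAut (Fr g n) := Bt i with hB
  set T : MulAut (Fr g n) := TP s t with hTT
  set e : MulAut (Fr g n) := ef L (2 * i) with he
  set U : MulAut (Fr g n) := E L u with hU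
  have a1 : MulAut.conj T B = B := by
    rw [MulAut.conj_apply, hTB.eq, mul_inv_cancel_right]
  have a2 : MulAut.conj U B = B := by
    have c1 : B * U = U * B := by
      rw [← mul_inv_eq_iff_eq_mul, hub]
    rw [MulAut.conj_apply, ← c1, mul_inv_cancel_right]
  have a3 : MulAut.conj T e = MulAut.conj U e := hT
  have a4 : MulAut.conj T (B * e⁻¹ * B⁻¹ * e) = MulAut.conj U (B * e⁻¹ * B⁻¹ * e) := by
    simp only [map_mul, map_inv, a1, a2, a3]
  exact a4
-- END PB4

end Pool.Agent.EG14
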