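import Pool.Agent.EG14.Defs
import Pool.Agent.EG14.Pu

set_option linter.all false

/-!
# The tower of point pushing groups, generators, relations (EVERY GENUS)
-/

namespace Pool.Agent.EG14

open Pool.Agent.HG13

variable {g n : ℕ}

/-- The words in the letters before `L`. -/
def Lo (L : ℕ) : Subgroup (Fr g n) := Subgroup.closure {w | ∃ c < L, w = gen c}

/-- The group generated by the twists which only involve the feet before `L`. -/
def Md (L : ℕ) : Subgroup (MulAut (Fr g n)) :=
  Subgroup.closure {φ | (∃ i < g, φ = Bt i) ∨ ∃ s t, s < t ∧ t ≤ L ∧ φ = TP s t}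

theorem Md_mono {L L' : ℕ} (h : L ≤ L') : (Md L : Subgroup (MulAut (Fr g n))) ≤ Md L' := by
  apply Subgroup.closure_mono
  rintro φ (h1 | ⟨s, t, h1, h2, h3⟩)
  · exact Or.inl h1
  · exact Or.inr ⟨s, t, h1, h2.trans h, h3⟩

theorem Md_twists : (Md (2 * g + n) : Subgroup (MulAut (Fr g n))) =
    Subgroup.closure (twists g n) := rfl

-- MODULE RA1
/-- PROOF. alp c is a product of letters ≤ c (< L) and inverses; Alp s t is a product of alp c, s ≤ c < t (Subgroup.list_prod_mem). -/
theorem Alp_mem (L s t : ℕ) (h : t ≤ L) : (Alp s t : Fr g n) ∈ Lo L := by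
  unfold Alp
  apply Subgroup.list_prod_mem
  intro x hx
  obtain ⟨c, hc, rfl⟩ := List.mem_map.1 hx
  rw [List.mem_range'_1] at hc
  have hg1 : ∀ c', c' < L → (gen c' : Fr g n) ∈ Lo L := fun c' hc' => Subgroup.subset_closure ⟨c', hc', rfl⟩
  unfold alp
  by_cases h1 : c < 2 * g ∧ c % 2 = 1
  · rw [if_pos h1]
    exact mul_mem (mul_mem (inv_mem (hg1 c (by omega))) (inv_mem (hg1 (c - 1) (by omega)))) (hg1 c (by omega))
  · rw [if_neg h1]
    exact hg1 c (by omega)
-- END RA1

-- MODULE RA2
private theorem RA2_gen (L c : ℕ) (hc : c < L) : (gen c : Fr g n) ∈ Lo L :=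
  Subgroup.subset_closure ⟨c, hc, rfl⟩

private theorem RA2_hom (L : ℕ) (f : Fr g n →* Fr g n) (h : ∀ c, c < L → f (gen c) ∈ Lo L) :
    ∀ w ∈ Lo L, f w ∈ Lo L := by
  intro w hw
  unfold Lo at hw
  induction hw using Subgroup.closure_induction with
  | mem w hw =>
    obtain ⟨c, hc, rfl⟩ := hw
    exact h c hc
  | one =>
    rw [map_one]
    exact one_mem _
  | mul x y _ _ hx hy =>
    rw [map_mul]
    exact mul_mem hx hy
  | inv x _ hx =>
    rw [map_inv]
    exact inv_mem hx

/-- Elements of Md L, 2g ≤ L, preserve the words in the letters before L and fix the other letters. PROOF. closure_induction on φ ∈ Md L for the statement (∀ w ∈ Lo L, φ w ∈ Lo L ∧ φ⁻¹ w ∈ Lo L) and (∀ c ≥ L, φ (gen c) = gen c ∧ φ⁻¹ (gen c) = gen c). Generators: Bt i: x ↦ x y⁻¹, letters 2i, 2i+1 < 2g ≤ L (Bt_x, Bt_ne; the inverse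
(Bt i)⁻¹ w = bt i 1 w by definition, bt_gen, bt_gen_ne). TP s t, t ≤ L: gen c ↦ u gen c u⁻¹ or u' gen c u⁻¹ with u in {Alp s t, 1} (cj_gen, cj_gen_odd, ind); the inverse is cj (ind s t (Alp s t)⁻¹) by definition. For w ∈ Lo L: closure_induction on w. -/
theorem Md_Lo (L : ℕ) (h : 2 * g ≤ L) (φ : MulAut (Fr g n)) (hφ : φ ∈ Md L) :
    (∀ w ∈ Lo L, φ w ∈ Lo L ∧ φ⁻¹ w ∈ Lo L) ∧
      ∀ c, L ≤ c → φ (gen c) = gen c ∧ φ⁻¹ (gen c) = gen c := by
  unfold Md at hφ
  induction hφ using Subgroup.closure_induction with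
  | mem φ hφ =>
    rcases hφ with ⟨i, hi, rfl⟩ | ⟨s, t, hst, htL, rfl⟩
    · have hinv : ∀ w : Fr g n, (Bt i)⁻¹ w = bt i 1 w := fun w => rfl
      refine ⟨fun w hw => ⟨RA2_hom L (Bt i : MulAut (Fr g n)).toMonoidHom (fun c hc => ?_) w hw, ?_⟩,
        fun c hc => ⟨Bt_ne i c (by omega), ?_⟩⟩
      · show Bt i (gen c) ∈ Lo L
        by_cases h1 : c = 2 * i
        · rw [h1, Bt_x i hi]
          exact mul_mem (RA2_gen L _ (by omega)) (inv_mem (RA2_gen L _ (by omega)))
        · rw [Bt_ne i c h1]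
          exact RA2_gen L _ hc
      · rw [hinv]
        refine RA2_hom L (bt i 1) (fun c hc => ?_) w hw
        by_cases h1 : c = 2 * i
        · rw [h1, bt_gen i 1 hi, zpow_one]
          exact mul_mem (RA2_gen L _ (by omega)) (RA2_gen L _ (by omega))
        · rw [bt_gen_ne i 1 c h1]
          exact RA2_gen L _ hc
      · rw [hinv, bt_gen_ne i 1 c (by omega)]
    · have hinv : ∀ w : Fr g n, (TP s t)⁻¹ w = cj (ind s t (Alp s t)⁻¹) w := fun w => rfl
      have hA : (Alp s t : Fr g n) ∈ Lo L := Alp_mem L s t htL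
      have h1 : ∀ u : Fr g n, u ∈ Lo L → ∀ c, c < L → cj (ind s t u) (gen c : Fr g n) ∈ Lo L := by
        intro u hu c hc
        have h2 : ∀ f, ind s t u f ∈ Lo L := by
          intro f
          unfold ind
          by_cases h3 : s ≤ f ∧ f < t
          · rw [if_pos h3]
            exact hu
          · rw [if_neg h3]
            exact one_mem _
        by_cases h4 : c < 2 * g ∧ c % 2 = 1
        · rw [cj_gen_odd _ h4.1 h4.2]
          exact mul_mem (mul_mem (h2 _) (RA2_gen L _ hc)) (inv_mem (h2 _))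
        · rw [cj_gen _ h4]
          exact mul_mem (mul_mem (h2 _) (RA2_gen L _ hc)) (inv_mem (h2 _))
      have h5 : ∀ u : Fr g n, ∀ c, L ≤ c → cj (ind s t u) (gen c : Fr g n) = gen c := by
        intro u c hc
        have h6 : ¬ (c < 2 * g ∧ c % 2 = 1) := by omega
        have h7 : ind s t u c = 1 := by
          unfold ind
          rw [if_neg (by omega)]
        rw [cj_gen _ h6, h7, one_mul, inv_one, mul_one]
      refine ⟨fun w hw => ⟨RA2_hom L (cj (ind s t (Alp s t))) (h1 _ hA) w hw, ?_⟩,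
        fun c hc => ⟨h5 _ c hc, ?_⟩⟩
      · rw [hinv]
        exact RA2_hom L (cj (ind s t (Alp s t)⁻¹)) (h1 _ (inv_mem hA)) w hw
      · rw [hinv]
        exact h5 _ c hc
  | one =>
    refine ⟨fun w hw => ⟨hw, ?_⟩, fun c _ => ⟨rfl, ?_⟩⟩
    · rw [inv_one]
      exact hw
    · rw [inv_one]
      rfl
  | mul φ ψ _ _ h1 h2 =>
    refine ⟨fun w hw => ⟨(h1.1 _ (h2.1 w hw).1).1, ?_⟩, fun c hc => ⟨?_, ?_⟩⟩
    · rw [mul_inv_rev]
      exact (h2.1 _ (h1.1 w hw).2).2
    · show φ (ψ (gen c)) = gen c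
      rw [(h2.2 c hc).1, (h1.2 c hc).1]
    · rw [mul_inv_rev]
      show ψ⁻¹ (φ⁻¹ (gen c)) = gen c
      rw [(h1.2 c hc).2, (h2.2 c hc).2]
  | inv φ _ h1 =>
    refine ⟨fun w hw => ⟨(h1.1 w hw).2, ?_⟩, fun c hc => ⟨(h1.2 c hc).2, ?_⟩⟩
    · rw [inv_inv]
      exact (h1.1 w hw).1
    · rw [inv_inv]
      exact (h1.2 c hc).1
-- END RA2

-- MODULE RA3
private theorem RA3_ind (L : ℕ) (φ : MulAut (Fr g n))
    (h : ∀ c, c < L → φ * E L (gen c : Fr g n) * φ⁻¹ = E L (φ (gen c : Fr g n))) :
    ∀ w ∈ (Lo L : Subgroup (Fr g n)), φ * E L w * φ⁻¹ = E L (φ w) := by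
  intro w hw
  unfold Lo at hw
  induction hw using Subgroup.closure_induction with
  | mem w hw =>
    obtain ⟨c, hc, rfl⟩ := hw
    exact h c hc
  | one =>
    rw [map_one, map_one, map_one, mul_one, mul_inv_cancel]
  | mul x y _ _ hx hy =>
    rw [map_mul, map_mul, map_mul, ← hx, ← hy]
    group
  | inv x _ hx =>
    rw [map_inv, map_inv, map_inv, ← hx]
    group

/-- EQUIVARIANCE. PROOF. closure_induction on φ: it is enough to have it for the generators and all w ∈ Lo L (products: φ ψ E(w) ψ⁻¹ φ⁻¹ = φ E(ψ w) φ⁻¹ with ψ w ∈ Lo L by RA2; inverses: φ⁻¹ E(w) φ = E(φ⁻¹ w) from φ E(φ⁻¹ w) φ⁻¹ = E(w)). Generators: for w ∈ Lo L closure_induction on w from TP_el and Bt_el (both sides are homomorphisms in w). -/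
theorem Md_E (L : ℕ) (h : 2 * g ≤ L) (hL : L < 2 * g + n) (φ : MulAut (Fr g n)) (hφ : φ ∈ Md L)
    (w : Fr g n) (hw : w ∈ Lo L) : φ * E L w * φ⁻¹ = E L (φ w) := by
  have hφ' := hφ
  unfold Md at hφ
  induction hφ using Subgroup.closure_induction generalizing w with
  | mem φ hφ =>
    refine RA3_ind L φ (fun c hc => ?_) w hw
    rcases hφ with ⟨i, hi, rfl⟩ | ⟨s, t, hst, htL, rfl⟩
    · exact Bt_el L i c h hL hi hc
    · exact TP_el L s t c h hL hst htL hc
  | one =>
    rw [one_mul, inv_one, mul_one]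
    rfl
  | mul φ ψ hφ1 hψ1 h1 h2 =>
    have e1 := h2 w hw hψ1
    have e2 := h1 (ψ w) ((Md_Lo L h ψ hψ1).1 w hw).1 hφ1
    calc φ * ψ * E L w * (φ * ψ)⁻¹ = φ * (ψ * E L w * ψ⁻¹) * φ⁻¹ := by group
      _ = E L (φ (ψ w)) := by rw [e1, e2]
      _ = _ := rfl
  | inv φ hφ1 h1 =>
    have e2 := h1 (φ⁻¹ w) ((Md_Lo L h φ hφ1).1 w hw).2 hφ1
    have e3 : φ (φ⁻¹ w) = w := by
      rw [← MulAut.mul_apply, mul_inv_cancel, MulAut.one_apply]
    rw [e3] at e2
    rw [← e2]
    group
-- END RA3

-- MODULE RA4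
private theorem RA4_self (L : ℕ) : (TP L L : MulAut (Fr g n)) = 1 := by
  apply aut_ext
  intro c _
  show cj (ind L L (Alp L L)) (gen c : Fr g n) = gen c
  rw [cj_congr _ (fun _ => 1) (fun f _ => by unfold ind; rw [if_neg (by omega)]), cj_one]

private theorem RA4_TP (L s : ℕ) (h : s ≤ L) : (TP s L : MulAut (Fr g n)) ∈ Md L := by
  rcases Nat.eq_or_lt_of_le h with h1 | h1
  · rw [h1, RA4_self]
    exact one_mem _
  · exact Subgroup.subset_closure (Or.inr ⟨s, L, h1, le_rfl, rfl⟩)

private theorem RA4_Pp (L s : ℕ) (h : s ≤ L) : (Pp L s : MulAut (Fr g n)) ∈ Md (L + 1) := by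
  unfold Pp
  exact mul_mem (Md_mono (Nat.le_succ L) (RA4_TP L s h)) (inv_mem (RA4_TP (L + 1) s (by omega)))

private theorem RA4_ef (L f : ℕ) (h : f < L) : (ef L f : MulAut (Fr g n)) ∈ Md (L + 1) := by
  unfold ef
  exact mul_mem (RA4_Pp L f (by omega)) (inv_mem (RA4_Pp L (f + 1) (by omega)))

private theorem RA4_el (L c : ℕ) (hg : 2 * g ≤ L) (h : c < L) :
    (el L c : MulAut (Fr g n)) ∈ Md (L + 1) := by
  unfold el
  by_cases h1 : c < 2 * g ∧ c % 2 = 1
  · rw [if_pos h1]
    have hB : (Bt (c / 2) : MulAut (Fr g n)) ∈ Md (L + 1) :=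
      Subgroup.subset_closure (Or.inl ⟨c / 2, by omega, rfl⟩)
    have he := RA4_ef (g := g) (n := n) L (c - 1) (by omega)
    exact mul_mem (mul_mem (mul_mem hB (inv_mem he)) (inv_mem hB)) he
  · rw [if_neg h1]
    exact RA4_ef L c h

/-- PROOF. w is a product of letters and inverses (closure of range of FreeGroup.of is ⊤, or FreeGroup.induction_on); E L (of c) = el L c for c < L, 1 otherwise; el L c is a product of TP s L, TP s (L+1), s ≤ L (TP L L, the twist around no foot, is 1: cj (ind L L _) = cj 1, cj_one; also TP L L need not occur: treat s = L), Bt i, i < g, and inverses.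
TP s L with s < L and TP s (L+1) with s < L + 1 are generators of Md (L+1). -/
theorem E_mem (L : ℕ) (h : 2 * g ≤ L) (hL : L < 2 * g + n) (w : Fr g n) : E L w ∈ Md (L + 1) := by
  induction w using FreeGroup.induction_on with
  | C1 =>
    rw [map_one]
    exact one_mem _
  | of c =>
    rw [E, FreeGroup.lift_apply_of]
    by_cases hc : (c : ℕ) < L
    · rw [if_pos hc]
      exact RA4_el L c h hc
    · rw [if_neg hc]
      exact one_mem _
  | inv_of c hc =>
    rw [map_inv]
    exact inv_mem hc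
  | mul x y hx hy =>
    rw [map_mul]
    exact mul_mem hx hy
-- END RA4

/-- The twists which do not involve the punctures. -/
def Tw0 (g n : ℕ) : Set (MulAut (Fr g n)) :=
  {φ | (∃ i < g, φ = Bt i) ∨ ∃ s t, s < t ∧ t ≤ 2 * g ∧ φ = TP s t}

/-- The twists without punctures and all pushes along letters. -/
def Ge (g n : ℕ) : Set (MulAut (Fr g n)) :=
  Tw0 g n ∪ {φ | ∃ L c, 2 * g ≤ L ∧ L < 2 * g + n ∧ c < L ∧ φ = el L c}

-- MODULE RA5
private theorem RA5_E (L : ℕ) (H : Subgroup (MulAut (Fr g n)))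
    (h : ∀ c, c < L → E L (gen c : Fr g n) ∈ H) : ∀ w ∈ (Lo L : Subgroup (Fr g n)), E L w ∈ H := by
  intro w hw
  unfold Lo at hw
  induction hw using Subgroup.closure_induction with
  | mem w hw =>
    obtain ⟨c, hc, rfl⟩ := hw
    exact h c hc
  | one =>
    rw [map_one]
    exact one_mem _
  | mul x y _ _ hx hy =>
    rw [map_mul]
    exact mul_mem hx hy
  | inv x _ hx =>
    rw [map_inv]
    exact inv_mem hx

/-- THE GENERATORS. PROOF. ⊇: el L c = E L (gen c) ∈ Md (L+1) ≤ Md (2g+n) (RA4, Md_mono). ⊆: Bt i: clear. TP s t, s < t ≤ 2g + n: induction on t: t ≤ 2g: in Tw0. t = L + 1, L ≥ 2g: if s = L: TP L (L+1) = 1 (it conjugates the letter L by itself: aut_ext, cj_gen). If s < L: E L (Alp s L) = Pp L s * (Pp L L)⁻¹ (E_Alp) and Pp L L = 1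
(TP L L = 1, TP L (L+1) = 1), so TP s (L+1) = (E L (Alp s L))⁻¹ * TP s L; TP s L by induction; E L (Alp s L) is in the closure of the el L c, c < L (Alp s L ∈ Lo L (RA1), closure_induction, E_gen). -/
theorem closure_Ge : Subgroup.closure (Ge g n) = Subgroup.closure (twists g n) := by
  apply le_antisymm
  · rw [Subgroup.closure_le]
    rintro φ ((⟨i, hi, rfl⟩ | ⟨s, t, hst, ht, rfl⟩) | ⟨L, c, hL, hL', hc, rfl⟩)
    · exact Subgroup.subset_closure (Or.inl ⟨i, hi, rfl⟩)
    · exact Subgroup.subset_closure (Or.inr ⟨s, t, hst, by omega, rfl⟩)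
    · have h1 := RA4_el (g := g) (n := n) L c hL hc
      rw [← Md_twists]
      exact Md_mono (by omega) h1
  · rw [Subgroup.closure_le]
    have key : ∀ t, t ≤ 2 * g + n → ∀ s, s < t →
        (TP s t : MulAut (Fr g n)) ∈ Subgroup.closure (Ge g n) := by
      intro t
      induction t with
      | zero =>
        intro _ s hs
        omega
      | succ L ih =>
        intro hL s hs
        by_cases h1 : L + 1 ≤ 2 * g
        · exact Subgroup.subset_closure (Or.inl (Or.inr ⟨s, L + 1, hs, h1, rfl⟩))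
        · have hL2 : 2 * g ≤ L := by omega
          have hLL : (TP L (L + 1) : MulAut (Fr g n)) = 1 := by
            apply aut_ext
            intro c _
            show cj (ind L (L + 1) (Alp L (L + 1))) (gen c : Fr g n) = gen c
            have ho : ¬ (L < 2 * g ∧ L % 2 = 1) := by omega
            rw [Alp_one, alp_even L ho]
            by_cases hcL : c = L
            · rw [hcL, cj_gen _ ho]
              unfold ind
              rw [if_pos (by omega), mul_inv_cancel_right]
            · have hu : ∀ f, f ≠ L → ind L (L + 1) (gen L : Fr g n) f = 1 := by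
                intro f hf
                unfold ind
                rw [if_neg (by omega)]
              by_cases h4 : c < 2 * g ∧ c % 2 = 1
              · rw [cj_gen_odd _ h4.1 h4.2, hu _ (by omega), hu _ (by omega), one_mul, inv_one, mul_one]
              · rw [cj_gen _ h4, hu _ hcL, one_mul, inv_one, mul_one]
          rcases Nat.eq_or_lt_of_le (Nat.lt_succ_iff.1 hs) with h2 | h2
          · rw [h2, hLL]
            exact one_mem _
          · have h3 := E_Alp (g := g) (n := n) L s L hL2 (by omega) (by omega) le_rfl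
            have h4 : (Pp L L : MulAut (Fr g n)) = 1 := by
              unfold Pp
              rw [RA4_self, hLL, inv_one, mul_one]
            rw [h4, inv_one, mul_one] at h3
            unfold Pp at h3
            have h5 : (TP s (L + 1) : MulAut (Fr g n)) = (E L (Alp s L : Fr g n))⁻¹ * TP s L := by
              rw [h3]
              group
            rw [h5]
            refine mul_mem (inv_mem ?_) (ih (by omega) s h2)
            refine RA5_E L (Subgroup.closure (Ge g n)) (fun c hc => ?_) _ (Alp_mem L s L le_rfl)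
            rw [E_gen L c hc (by omega)]
            exact Subgroup.subset_closure (Or.inr ⟨L, c, hL2, by omega, hc, rfl⟩)
    rintro φ (⟨i, hi, rfl⟩ | ⟨s, t, hst, ht, rfl⟩)
    · exact Subgroup.subset_closure (Or.inl (Or.inl ⟨i, hi, rfl⟩))
    · exact key t ht s hst
-- END RA5

/-- THE RELATIONS of the pushes `e L c` (`L` a puncture, `c < L` a letter) in a group. In each line
`S < L` are punctures, `A = e L S`. -/
structure PSys (g n : ℕ) {G : Type*} [Group G] (e : ℕ → ℕ → G) : Prop where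
  far : ∀ S L b c, 2 * g ≤ S → S < L → L < 2 * g + n → b < S → S < c → c < L →
    Commute (e S b) (e L c)
  own : ∀ S L b, 2 * g ≤ S → S < L → L < 2 * g + n → b < S →
    e S b * e L S * (e S b)⁻¹ = (e L S)⁻¹ * (e L b)⁻¹ * e L S * e L b * e L S
  same : ∀ S L b, 2 * g ≤ S → S < L → L < 2 * g + n → b < S →
    e S b * e L b * (e S b)⁻¹ = (e L S)⁻¹ * e L b * e L S
  left : ∀ S L b c, 2 * g ≤ S → S < L → L < 2 * g + n → b < S → c < b →
    (2 * g ≤ b ∨ c / 2 ≠ b / 2) → Commute (e S b) (e L c)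
  right : ∀ S L b c, 2 * g ≤ S → S < L → L < 2 * g + n → b < c → c < S →
    (2 * g ≤ c ∨ c / 2 ≠ b / 2) → e S b * e L c * (e S b)⁻¹ =
      ((e L S)⁻¹ * (e L b)⁻¹ * e L S * e L b) * e L c *
        ((e L S)⁻¹ * (e L b)⁻¹ * e L S * e L b)⁻¹
  xy : ∀ S L i, 2 * g ≤ S → S < L → L < 2 * g + n → i < g →
    e S (2 * i) * e L (2 * i + 1) * (e S (2 * i))⁻¹ =
      (e L S)⁻¹ * e L (2 * i + 1) * (e L (2 * i))⁻¹ * (e L S)⁻¹ * e L (2 * i) * e L S
  yx : ∀ S L i, 2 * g ≤ S → S < L → L < 2 * g + n → i < g →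
    e S (2 * i + 1) * e L (2 * i) * (e S (2 * i + 1))⁻¹ = e L (2 * i) * e L S
  nrm : ∀ S L b c, 2 * g ≤ S → S < L → L < 2 * g + n → b < S → c < L →
    e S b * e L c * (e S b)⁻¹ ∈ Subgroup.closure {x | ∃ c' < L, x = e L c'} ∧
    (e S b)⁻¹ * e L c * e S b ∈ Subgroup.closure {x | ∃ c' < L, x = e L c'}

-- MODULE RB1
private theorem RB1_md (S L b : ℕ) (hS : 2 * g ≤ S) (hSL : S < L) (hL : L ≤ 2 * g + n) (hb : b < S) :
    (el S b : MulAut (Fr g n)) ∈ Md L := Md_mono hSL (RA4_el S b hS hb)

private theorem RB1_key (S L b c : ℕ) (hS : 2 * g ≤ S) (hSL : S < L) (hL : L < 2 * g + n)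
    (hb : b < S) (hc : c < L) :
    (el S b : MulAut (Fr g n)) * el L c * (el S b)⁻¹ = E L (el S b (gen c : Fr g n)) := by
  rw [← E_gen L c hc (by omega)]
  exact Md_E L (by omega) hL _ (RB1_md S L b hS hSL (by omega) hb) _ (RA2_gen L c hc)

/-- THE PUSHES SATISFY THE RELATIONS. PROOF. el S b ∈ Md (S+1) ≤ Md L (E_gen, RA4, Md_mono), so el S b * el L c * (el S b)⁻¹ = E L (el S b (gen c)) (RA3, gen c ∈ Lo L), and el S b (gen c) is given by el_gen (with L := S, c := b, a := c). far: a = c > S is fixed. own: a = S. same: a = b. left: c < b, not the same handle: fixed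
(the third case of el_gen needs b < 2g and c / 2 = b / 2). right: last case. xy: b = 2i, c = 2i+1. yx: b = 2i+1, c = 2i. Then E L is a homomorphism and E L (gen c) = el L c (E_gen). nrm: el S b (gen c) and (el S b)⁻¹ (gen c) are in Lo L (RA2), and E L maps Lo L into the closure of the el L c', c' < L
(Subgroup.closure_induction or MonoidHom.map_closure). -/
theorem el_psys : PSys g n (el : ℕ → ℕ → MulAut (Fr g n)) := by
  refine ⟨?_, ?_, ?_, ?_, ?_, ?_, ?_, ?_⟩
  · intro S L b c hS hSL hL hb h1 h2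
    have e1 := RB1_key S L b c hS hSL hL hb h2
    rw [el_gen S b c hS (by omega) hb (by omega), if_neg (by omega), if_pos h1,
      E_gen L c h2 (by omega)] at e1
    exact mul_inv_eq_iff_eq_mul.1 e1
  · intro S L b hS hSL hL hb
    have e1 := RB1_key S L b S hS hSL hL hb hSL
    rw [el_gen S b S hS (by omega) hb (by omega), if_pos rfl] at e1
    simp only [map_mul, map_inv] at e1
    rw [E_gen L S hSL (by omega), E_gen L b (by omega) (by omega)] at e1
    exact e1
  · intro S L b hS hSL hL hb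
    have e1 := RB1_key S L b b hS hSL hL hb (by omega)
    rw [el_gen S b b hS (by omega) hb (by omega), if_neg (by omega), if_neg (by omega),
      if_neg (by omega), if_pos rfl] at e1
    simp only [map_mul, map_inv] at e1
    rw [E_gen L S hSL (by omega), E_gen L b (by omega) (by omega)] at e1
    exact e1
  · intro S L b c hS hSL hL hb hcb hh
    have e1 := RB1_key S L b c hS hSL hL hb (by omega)
    rw [el_gen S b c hS (by omega) hb (by omega), if_neg (by omega), if_neg (by omega),
      if_neg (by omega), if_neg (by omega), if_pos hcb, E_gen L c (by omega) (by omega)] at e1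
    exact mul_inv_eq_iff_eq_mul.1 e1
  · intro S L b c hS hSL hL hbc hcS hh
    have e1 := RB1_key S L b c hS hSL hL (by omega) (by omega)
    rw [el_gen S b c hS (by omega) (by omega) (by omega), if_neg (by omega), if_neg (by omega),
      if_neg (by omega), if_neg (by omega), if_neg (by omega)] at e1
    simp only [map_mul, map_inv] at e1
    rw [E_gen L S hSL (by omega), E_gen L b (by omega) (by omega), E_gen L c (by omega) (by omega)] at e1
    exact e1
  · intro S L i hS hSL hL hi
    have e1 := RB1_key S L (2 * i) (2 * i + 1) hS hSL hL (by omega) (by omega)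
    rw [el_gen S (2 * i) (2 * i + 1) hS (by omega) (by omega) (by omega), if_neg (by omega),
      if_neg (by omega), if_pos (by omega), if_pos (by omega)] at e1
    simp only [map_mul, map_inv] at e1
    rw [E_gen L S hSL (by omega), E_gen L (2 * i) (by omega) (by omega),
      E_gen L (2 * i + 1) (by omega) (by omega)] at e1
    exact e1
  · intro S L i hS hSL hL hi
    have e1 := RB1_key S L (2 * i + 1) (2 * i) hS hSL hL (by omega) (by omega)
    rw [el_gen S (2 * i + 1) (2 * i) hS (by omega) (by omega) (by omega), if_neg (by omega),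
      if_neg (by omega), if_pos (by omega), if_neg (by omega)] at e1
    simp only [map_mul, map_inv] at e1
    rw [E_gen L S hSL (by omega), E_gen L (2 * i) (by omega) (by omega)] at e1
    exact e1
  · intro S L b c hS hSL hL hb hc
    have hm := RB1_md (g := g) (n := n) S L b hS hSL (by omega) hb
    have hLo := (Md_Lo L (by omega) _ hm).1 (gen c) (RA2_gen L c hc)
    have hE : ∀ w ∈ (Lo L : Subgroup (Fr g n)), E L w ∈ Subgroup.closure {x | ∃ c' < L, x = el L c'} :=
      RA5_E L _ (fun c' hc' => by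
        rw [E_gen L c' hc' (by omega)]
        exact Subgroup.subset_closure ⟨c', hc', rfl⟩)
    refine ⟨?_, ?_⟩
    · rw [RB1_key S L b c hS hSL hL hb hc]
      exact hE _ hLo.1
    · have e1 := Md_E L (by omega) hL _ (inv_mem hm) (gen c) (RA2_gen L c hc)
      rw [inv_inv, E_gen L c hc (by omega)] at e1
      rw [e1]
      exact hE _ hLo.2
-- END RB1

-- MODULE RB2
/-- PSys is preserved by homomorphisms. PROOF. Apply φ to each relation (map_mul, map_inv; Commute.map; for nrm: Subgroup.mem_map and closure_image: the image of the closure of {x | ∃ c' < L, x = e L c'} under φ is the closure of the images). Used for e with values in a subgroup: see RB3. -/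
theorem PSys.map {G H : Type*} [Group G] [Group H] {e : ℕ → ℕ → G} (h : PSys g n e) (φ : G →* H) :
    PSys g n (fun L c => φ (e L c)) := by
  have hm : ∀ L : ℕ, ∀ y ∈ Subgroup.closure {x | ∃ c' < L, x = e L c'},
      φ y ∈ Subgroup.closure {x | ∃ c' < L, x = φ (e L c')} := by
    intro L y hy
    induction hy using Subgroup.closure_induction with
    | mem y hy =>
      obtain ⟨c', hc', rfl⟩ := hy
      exact Subgroup.subset_closure ⟨c', hc', rfl⟩
    | one =>
      rw [map_one]
      exact one_mem _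
    | mul x y _ _ hx hy =>
      rw [map_mul]
      exact mul_mem hx hy
    | inv x _ hx =>
      rw [map_inv]
      exact inv_mem hx
  refine ⟨?_, ?_, ?_, ?_, ?_, ?_, ?_, ?_⟩
  · intro S L b c h1 h2 h3 h4 h5 h6
    exact (h.far S L b c h1 h2 h3 h4 h5 h6).map φ
  · intro S L b h1 h2 h3 h4
    have := congrArg φ (h.own S L b h1 h2 h3 h4)
    simpa only [map_mul, map_inv] using this
  · intro S L b h1 h2 h3 h4
    have := congrArg φ (h.same S L b h1 h2 h3 h4)
    simpa only [map_mul, map_inv] using this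
  · intro S L b c h1 h2 h3 h4 h5 h6
    exact (h.left S L b c h1 h2 h3 h4 h5 h6).map φ
  · intro S L b c h1 h2 h3 h4 h5 h6
    have := congrArg φ (h.right S L b c h1 h2 h3 h4 h5 h6)
    simpa only [map_mul, map_inv] using this
  · intro S L i h1 h2 h3 h4
    have := congrArg φ (h.xy S L i h1 h2 h3 h4)
    simpa only [map_mul, map_inv] using this
  · intro S L i h1 h2 h3 h4
    have := congrArg φ (h.yx S L i h1 h2 h3 h4)
    simpa only [map_mul, map_inv] using this
  · intro S L b c h1 h2 h3 h4 h5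
    obtain ⟨h6, h7⟩ := h.nrm S L b c h1 h2 h3 h4 h5
    have h8 := hm L _ h6
    have h9 := hm L _ h7
    simp only [map_mul, map_inv] at h8 h9
    exact ⟨h8, h9⟩
-- END RB2

theorem el_mem (L c : ℕ) (h : 2 * g ≤ L) (hL : L < 2 * g + n) (hc : c < L) :
    (el L c : MulAut (Fr g n)) ∈ MCG g n := by
  rw [MCG, ← Md_twists, ← E_gen L c hc (by omega)]
  exact Md_mono (by omega) (E_mem L h hL _)

open Classical in
/-- The pushes as elements of the mapping class group (`1` outside of the range). -/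
noncomputable def ell (g n L c : ℕ) : MCG g n :=
  if h : (el L c : MulAut (Fr g n)) ∈ MCG g n then ⟨el L c, h⟩ else 1

theorem ell_val (L c : ℕ) (h : 2 * g ≤ L) (hL : L < 2 * g + n) (hc : c < L) :
    (ell g n L c : MulAut (Fr g n)) = el L c := by
  unfold ell
  rw [dif_pos (el_mem L c h hL hc)]

-- MODULE RB3
private theorem RB3_mem (L : ℕ) (h : 2 * g ≤ L) (hL : L < 2 * g + n) (x : MCG g n)
    (hx : (x : MulAut (Fr g n)) ∈ Subgroup.closure {y : MulAut (Fr g n) | ∃ c' < L, y = el L c'}) :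
    x ∈ Subgroup.closure {y : MCG g n | ∃ c' < L, y = ell g n L c'} := by
  have hle : Subgroup.closure {y : MulAut (Fr g n) | ∃ c' < L, y = el L c'} ≤
      (Subgroup.closure {y : MCG g n | ∃ c' < L, y = ell g n L c'}).map (MCG g n).subtype := by
    rw [Subgroup.closure_le]
    rintro y ⟨c', hc', rfl⟩
    exact ⟨ell g n L c', Subgroup.subset_closure ⟨c', hc', rfl⟩, ell_val L c' h hL hc'⟩
  obtain ⟨y, hy, hyx⟩ := hle hx
  have h1 : y = x := Subtype.ext hyx
  rw [← h1]
  exact hy

/-- PROOF. From el_psys and ell_val, with Subtype.ext / Subtype.val injective (Subgroup.subtype is injective): every relation only involves e L' c' with 2g ≤ L' < 2g + n, c' < L'. nrm: an element of MCG g n whose value is in the closure of {x | ∃ c' < L, x = el L c'} is in the closure of {x | ∃ c' < L, x = ell g n L c'}: the map of the latter closure under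
the inclusion is the closure of the image (MonoidHom.map_closure), Subtype injective. -/
theorem ell_psys : PSys g n (ell g n) := by
  have h : PSys g n (el : ℕ → ℕ → MulAut (Fr g n)) := el_psys
  have hc : ∀ {x y : MCG g n}, Commute (x : MulAut (Fr g n)) (y : MulAut (Fr g n)) → Commute x y :=
    fun {x y} hxy => Subtype.ext hxy
  refine ⟨?_, ?_, ?_, ?_, ?_, ?_, ?_, ?_⟩
  · intro S L b c h1 h2 h3 h4 h5 h6
    apply hc
    rw [ell_val S b (by omega) (by omega) (by omega), ell_val L c (by omega) (by omega) (by omega)]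
    exact h.far S L b c h1 h2 h3 h4 h5 h6
  · intro S L b h1 h2 h3 h4
    apply Subtype.ext
    have := h.own S L b h1 h2 h3 h4
    rw [← ell_val S b (by omega) (by omega) (by omega), ← ell_val L b (by omega) (by omega) (by omega),
      ← ell_val L S (by omega) (by omega) (by omega)] at this
    exact this
  · intro S L b h1 h2 h3 h4
    apply Subtype.ext
    have := h.same S L b h1 h2 h3 h4
    rw [← ell_val S b (by omega) (by omega) (by omega), ← ell_val L b (by omega) (by omega) (by omega),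
      ← ell_val L S (by omega) (by omega) (by omega)] at this
    exact this
  · intro S L b c h1 h2 h3 h4 h5 h6
    apply hc
    rw [ell_val S b (by omega) (by omega) (by omega), ell_val L c (by omega) (by omega) (by omega)]
    exact h.left S L b c h1 h2 h3 h4 h5 h6
  · intro S L b c h1 h2 h3 h4 h5 h6
    apply Subtype.ext
    have := h.right S L b c h1 h2 h3 h4 h5 h6
    rw [← ell_val S b (by omega) (by omega) (by omega), ← ell_val L b (by omega) (by omega) (by omega),
      ← ell_val L S (by omega) (by omega) (by omega), ← ell_val L c (by omega) (by omega) (by omega)] at this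
    exact this
  · intro S L i h1 h2 h3 h4
    apply Subtype.ext
    have := h.xy S L i h1 h2 h3 h4
    rw [← ell_val S (2 * i) (by omega) (by omega) (by omega), ← ell_val L (2 * i) (by omega) (by omega) (by omega),
      ← ell_val L (2 * i + 1) (by omega) (by omega) (by omega),
      ← ell_val L S (by omega) (by omega) (by omega)] at this
    exact this
  · intro S L i h1 h2 h3 h4
    apply Subtype.ext
    have := h.yx S L i h1 h2 h3 h4
    rw [← ell_val S (2 * i + 1) (by omega) (by omega) (by omega), ← ell_val L (2 * i) (by omega) (by omega) (by omega),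
      ← ell_val L S (by omega) (by omega) (by omega)] at this
    exact this
  · intro S L b c h1 h2 h3 h4 h5
    obtain ⟨h6, h7⟩ := h.nrm S L b c h1 h2 h3 h4 h5
    refine ⟨RB3_mem L (by omega) h3 _ ?_, RB3_mem L (by omega) h3 _ ?_⟩
    · have e1 : ((ell g n S b * ell g n L c * (ell g n S b)⁻¹ : MCG g n) : MulAut (Fr g n)) =
          el S b * el L c * (el S b)⁻¹ := by
        rw [← ell_val S b (by omega) (by omega) (by omega), ← ell_val L c (by omega) (by omega) (by omega)]
        rfl
      rw [e1]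
      exact h6
    · have e1 : (((ell g n S b)⁻¹ * ell g n L c * ell g n S b : MCG g n) : MulAut (Fr g n)) =
          (el S b)⁻¹ * el L c * el S b := by
        rw [← ell_val S b (by omega) (by omega) (by omega), ← ell_val L c (by omega) (by omega) (by omega)]
        rfl
      rw [e1]
      exact h7
-- END RB3

-- MODULE RB4
/-- Every element of the mapping class group is in the closure of the twists without punctures and the pushes. PROOF. From closure_Ge: the preimage in the subgroup type (closure_induction on the membership x.2 rewritten with closure_Ge; elements of Tw0 g n and the el L c are in MCG g n). -/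
theorem MCG_top : (⊤ : Subgroup (MCG g n)) = Subgroup.closure
    ({γ : MCG g n | (γ : MulAut (Fr g n)) ∈ Tw0 g n} ∪
      {γ : MCG g n | ∃ L c, 2 * g ≤ L ∧ L < 2 * g + n ∧ c < L ∧ γ = ell g n L c}) := by
  symm
  rw [Subgroup.eq_top_iff']
  intro x
  have hle : Subgroup.closure (Ge g n) ≤ (Subgroup.closure
    ({γ : MCG g n | (γ : MulAut (Fr g n)) ∈ Tw0 g n} ∪
      {γ : MCG g n | ∃ L c, 2 * g ≤ L ∧ L < 2 * g + n ∧ c < L ∧ γ = ell g n L c})).map (MCG g n).subtype := by
    rw [Subgroup.closure_le]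
    rintro y (hy | ⟨L, c, hL, hL', hc, rfl⟩)
    · have hm : y ∈ MCG g n := by
        rw [MCG, ← closure_Ge]
        exact Subgroup.subset_closure (Or.inl hy)
      exact ⟨⟨y, hm⟩, Subgroup.subset_closure (Or.inl hy), rfl⟩
    · exact ⟨ell g n L c, Subgroup.subset_closure (Or.inr ⟨L, c, hL, hL', hc, rfl⟩),
        ell_val L c hL hL' hc⟩
  have hx : (x : MulAut (Fr g n)) ∈ Subgroup.closure (Ge g n) := by
    rw [closure_Ge]
    exact x.2
  obtain ⟨y, hy, hyx⟩ := hle hx
  have h1 : y = x := Subtype.ext hyx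
  rw [← h1]
  exact hy
-- END RB4

/-- The relations of the pushes with an element `t` which is a twist without punctures. -/
structure TSys (g n : ℕ) {G : Type*} [Group G] (e : ℕ → ℕ → G) (t : G) : Prop where
  nrm : ∀ L c, 2 * g ≤ L → L < 2 * g + n → c < L →
    t * e L c * t⁻¹ ∈ Subgroup.closure {x | ∃ c' < L, x = e L c'} ∧
    t⁻¹ * e L c * t ∈ Subgroup.closure {x | ∃ c' < L, x = e L c'}
  com : ∀ S L, 2 * g ≤ S → S < L → L < 2 * g + n → Commute t (e L S)

-- MODULE RB5
/-- PROOF. γ ∈ Tw0 ⊆ Md (2g) ≤ Md L. t E L (gen c) t⁻¹ = E L (t (gen c)) (RA3), in the closure as in RB1 (t (gen c), t⁻¹ (gen c) ∈ Lo L, RA2), transfer to the subgroup as in RB3. com: t fixes gen S, S ≥ 2g (RA2 for Md (2g)). -/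
theorem ell_tsys (γ : MCG g n) (hγ : (γ : MulAut (Fr g n)) ∈ Tw0 g n) : TSys g n (ell g n) γ := by
  have hM : ∀ L, 2 * g ≤ L → (γ : MulAut (Fr g n)) ∈ Md L := by
    intro L hL
    rcases hγ with ⟨i, hi, h1⟩ | ⟨s, t, hst, ht, h1⟩
    · exact Subgroup.subset_closure (Or.inl ⟨i, hi, h1⟩)
    · exact Subgroup.subset_closure (Or.inr ⟨s, t, hst, by omega, h1⟩)
  have hE : ∀ L, L < 2 * g + n → ∀ w ∈ (Lo L : Subgroup (Fr g n)),
      E L w ∈ Subgroup.closure {x | ∃ c' < L, x = el L c'} := fun L hL =>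
    RA5_E L _ (fun c' hc' => by
      rw [E_gen L c' hc' (by omega)]
      exact Subgroup.subset_closure ⟨c', hc', rfl⟩)
  refine ⟨?_, ?_⟩
  · intro L c h1 h2 h3
    have hLo := (Md_Lo L h1 _ (hM L h1)).1 (gen c) (RA2_gen L c h3)
    refine ⟨RB3_mem L h1 h2 _ ?_, RB3_mem L h1 h2 _ ?_⟩
    · have e1 : ((γ * ell g n L c * γ⁻¹ : MCG g n) : MulAut (Fr g n)) =
          (γ : MulAut (Fr g n)) * E L (gen c : Fr g n) * (γ : MulAut (Fr g n))⁻¹ := by
        rw [E_gen L c h3 (by omega), ← ell_val L c h1 h2 h3]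
        rfl
      rw [e1, Md_E L h1 h2 _ (hM L h1) _ (RA2_gen L c h3)]
      exact hE L h2 _ hLo.1
    · have e1 : ((γ⁻¹ * ell g n L c * γ : MCG g n) : MulAut (Fr g n)) =
          (γ : MulAut (Fr g n))⁻¹ * E L (gen c : Fr g n) * (γ : MulAut (Fr g n)) := by
        rw [E_gen L c h3 (by omega), ← ell_val L c h1 h2 h3]
        rfl
      have e2 := Md_E L h1 h2 _ (inv_mem (hM L h1)) (gen c : Fr g n) (RA2_gen L c h3)
      rw [inv_inv] at e2
      rw [e1, e2]
      exact hE L h2 _ hLo.2
  · intro S L h1 h2 h3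
    apply Subtype.ext
    show (γ : MulAut (Fr g n)) * (ell g n L S : MulAut (Fr g n)) =
      (ell g n L S : MulAut (Fr g n)) * (γ : MulAut (Fr g n))
    have e2 := Md_E L (by omega) h3 _ (hM L (by omega)) (gen S : Fr g n) (RA2_gen L S h2)
    have e3 := ((Md_Lo (2 * g) le_rfl _ (hM (2 * g) le_rfl)).2 S h1).1
    rw [e3, E_gen L S h2 (by omega)] at e2
    rw [ell_val L S (by omega) h3 h2]
    exact mul_inv_eq_iff_eq_mul.1 e2
-- END RB5

/-- The push along the feet `2g-1, 2g, ..., 2g+k-1` written with letters: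
`y⁻¹ x⁻¹ y z_0 ... z_(k-1)` for the last handle. -/
def dk {G : Type*} [Group G] (g : ℕ) (e : ℕ → ℕ → G) (L k : ℕ) : G :=
  (e L (2 * g - 1))⁻¹ * (e L (2 * g - 2))⁻¹ * e L (2 * g - 1) *
    ((List.range k).map fun j => e L (2 * g + j)).prod

-- MODULE RB6
/-- TRANSVECTIONS. PROOF. All three from RA3 with t = TP (2i) (2i+1), Bt i, TP (2g-1) (2g+k) in Md L. (1) TP (2i) (2i+1) fixes gen (2i) (cj_gen: conjugation by Alp = gen (2i)) and maps gen (2i+1) to gen (2i) * gen (2i+1) (cj_gen_odd, ind: foot 2i in, foot 2i+1 out). (2) Bt_x, Bt_ne.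
(3) t = TP (2g-1) (2g+k), d = Alp (2g-1) (2g+k), t d = d (cj_ind_Alp with e = 1), t (gen (2g-1)) = gen (2g-1) * d⁻¹ (foot 2g-2 out, 2g-1 in). E L d = dk g el L k: Alp (2g-1) (2g+k) = alp (2g-1) * Alp (2g) (2g+k), Alp_cons; alp (2g+j) = gen (2g+j); letters 2g+j < L. In MCG: ell_val, Subtype.ext. -/
theorem transv (hg : 1 ≤ g) (L : ℕ) (h : 2 * g ≤ L) (hL : L < 2 * g + n) :
    (∀ i, i < g → ∃ t : MCG g n, Commute t (ell g n L (2 * i)) ∧
      t * ell g n L (2 * i + 1) * t⁻¹ = ell g n L (2 * i) * ell g n L (2 * i + 1)) ∧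
    (∀ i, i < g → ∃ t : MCG g n, Commute t (ell g n L (2 * i + 1)) ∧
      t * ell g n L (2 * i) * t⁻¹ = ell g n L (2 * i) * (ell g n L (2 * i + 1))⁻¹) ∧
    (∀ k, 2 * g + k ≤ L → ∃ t : MCG g n, Commute t (dk g (ell g n) L k) ∧
      t * ell g n L (2 * g - 1) * t⁻¹ =
        ell g n L (2 * g - 1) * (dk g (ell g n) L k)⁻¹) := by
  have hconj : ∀ (t : MCG g n), (t : MulAut (Fr g n)) ∈ Md L → ∀ c, c < L → ∀ w : Fr g n,
      (t : MulAut (Fr g n)) (gen c) = w → ∀ y : MCG g n, (y : MulAut (Fr g n)) = E L w →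
      t * ell g n L c * t⁻¹ = y := by
    intro t ht c hc w hw y hy
    apply Subtype.ext
    have e1 : ((t * ell g n L c * t⁻¹ : MCG g n) : MulAut (Fr g n)) =
        (t : MulAut (Fr g n)) * E L (gen c : Fr g n) * (t : MulAut (Fr g n))⁻¹ := by
      rw [E_gen L c hc (by omega), ← ell_val L c h hL hc]
      rfl
    rw [e1, Md_E L h hL _ ht _ (RA2_gen L c hc), hw, hy]
  have hev : ∀ c, c < L → (ell g n L c : MulAut (Fr g n)) = E L (gen c : Fr g n) := by
    intro c hc
    rw [ell_val L c h hL hc, E_gen L c hc (by omega)]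
  refine ⟨?_, ?_, ?_⟩
  · intro i hi
    have hm : (TP (2 * i) (2 * i + 1) : MulAut (Fr g n)) ∈ MCG g n :=
      Subgroup.subset_closure (Or.inr ⟨2 * i, 2 * i + 1, by omega, by omega, rfl⟩)
    have hd : (TP (2 * i) (2 * i + 1) : MulAut (Fr g n)) ∈ Md L :=
      Subgroup.subset_closure (Or.inr ⟨2 * i, 2 * i + 1, by omega, by omega, rfl⟩)
    have ho : ¬ (2 * i < 2 * g ∧ (2 * i) % 2 = 1) := by omega
    have hA : (Alp (2 * i) (2 * i + 1) : Fr g n) = gen (2 * i) := by rw [Alp_one, alp_even _ ho]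
    have h0 : ind (2 * i) (2 * i + 1) (gen (2 * i) : Fr g n) (2 * i) = gen (2 * i) := by
      unfold ind
      rw [if_pos (by omega)]
    have h1 : ind (2 * i) (2 * i + 1) (gen (2 * i) : Fr g n) (2 * i + 1) = 1 := by
      unfold ind
      rw [if_neg (by omega)]
    refine ⟨⟨_, hm⟩, ?_, ?_⟩
    · refine mul_inv_eq_iff_eq_mul.1 (hconj ⟨_, hm⟩ hd (2 * i) (by omega) (gen (2 * i)) ?_ _ (hev _ (by omega)))
      show TP (2 * i) (2 * i + 1) (gen (2 * i) : Fr g n) = _
      rw [TP_apply, hA, cj_gen _ ho, h0, mul_inv_cancel_right]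
    · refine hconj ⟨_, hm⟩ hd (2 * i + 1) (by omega) (gen (2 * i) * gen (2 * i + 1)) ?_ _ ?_
      · show TP (2 * i) (2 * i + 1) (gen (2 * i + 1) : Fr g n) = _
        rw [TP_apply, hA, cj_gen_odd _ (by omega) (by omega), Nat.add_sub_cancel, h0, h1, inv_one, mul_one]
      · rw [map_mul, ← hev _ (by omega), ← hev _ (by omega)]
        rfl
  · intro i hi
    have hm : (Bt i : MulAut (Fr g n)) ∈ MCG g n := Subgroup.subset_closure (Or.inl ⟨i, hi, rfl⟩)
    have hd : (Bt i : MulAut (Fr g n)) ∈ Md L := Subgroup.subset_closure (Or.inl ⟨i, hi, rfl⟩)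
    refine ⟨⟨_, hm⟩, ?_, ?_⟩
    · exact mul_inv_eq_iff_eq_mul.1 (hconj ⟨_, hm⟩ hd (2 * i + 1) (by omega) (gen (2 * i + 1))
        (Bt_ne i _ (by omega)) _ (hev _ (by omega)))
    · refine hconj ⟨_, hm⟩ hd (2 * i) (by omega) (gen (2 * i) * (gen (2 * i + 1))⁻¹) (Bt_x i hi) _ ?_
      rw [map_mul, map_inv, ← hev _ (by omega), ← hev _ (by omega)]
      rfl
  · intro k hk
    have hm : (TP (2 * g - 1) (2 * g + k) : MulAut (Fr g n)) ∈ MCG g n :=
      Subgroup.subset_closure (Or.inr ⟨2 * g - 1, 2 * g + k, by omega, by omega, rfl⟩)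
    have hd : (TP (2 * g - 1) (2 * g + k) : MulAut (Fr g n)) ∈ Md L :=
      Subgroup.subset_closure (Or.inr ⟨2 * g - 1, 2 * g + k, by omega, by omega, rfl⟩)
    have hAd : (Alp (2 * g - 1) (2 * g + k) : Fr g n) = ((gen (2 * g - 1))⁻¹ * (gen (2 * g - 2))⁻¹ *
        gen (2 * g - 1)) * ((List.range k).map fun j => (gen (2 * g + j) : Fr g n)).prod := by
      rw [Alp_cons _ _ (by omega), show 2 * g - 1 + 1 = 2 * g by omega]
      congr 1
      · unfold alp
        rw [if_pos (by omega), show 2 * g - 1 - 1 = 2 * g - 2 by omega]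
      · unfold Alp
        rw [Nat.add_sub_cancel_left, List.range'_eq_map_range, List.map_map]
        congr 1
        apply List.map_congr_left
        intro j _
        show alp (2 * g + j) = gen (2 * g + j)
        exact alp_even _ (by omega)
    have hdk : ((dk g (ell g n) L k : MCG g n) : MulAut (Fr g n)) = E L (Alp (2 * g - 1) (2 * g + k) : Fr g n) := by
      rw [hAd]
      simp only [map_mul, map_inv]
      rw [map_list_prod, List.map_map, ← hev _ (by omega), ← hev _ (by omega)]
      have h5 : (List.range k).map (⇑(E L) ∘ fun j => (gen (2 * g + j) : Fr g n)) =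
          (List.range k).map fun j => ((ell g n L (2 * g + j) : MCG g n) : MulAut (Fr g n)) := by
        apply List.map_congr_left
        intro j hj
        rw [List.mem_range] at hj
        exact (hev _ (by omega)).symm
      rw [h5]
      unfold dk
      rw [Subgroup.coe_mul, Subgroup.val_list_prod, List.map_map]
      rfl
    have hLo : (Alp (2 * g - 1) (2 * g + k) : Fr g n) ∈ Lo L := Alp_mem L _ _ hk
    refine ⟨⟨_, hm⟩, ?_, ?_⟩
    · apply Subtype.ext
      show (TP (2 * g - 1) (2 * g + k) : MulAut (Fr g n)) * ((dk g (ell g n) L k : MCG g n) : MulAut (Fr g n)) =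
        ((dk g (ell g n) L k : MCG g n) : MulAut (Fr g n)) * TP (2 * g - 1) (2 * g + k)
      rw [hdk]
      refine mul_inv_eq_iff_eq_mul.1 ?_
      rw [Md_E L h hL _ hd _ hLo]
      congr 1
      have h6 := cj_ind_Alp (g := g) (n := n) (2 * g - 1) (2 * g + k) 1
      rw [zpow_one] at h6
      exact h6
    · refine hconj ⟨_, hm⟩ hd (2 * g - 1) (by omega) (gen (2 * g - 1) * (Alp (2 * g - 1) (2 * g + k))⁻¹) ?_ _ ?_
      · show TP (2 * g - 1) (2 * g + k) (gen (2 * g - 1) : Fr g n) = _
        have h7 : ind (2 * g - 1) (2 * g + k) (Alp (2 * g - 1) (2 * g + k) : Fr g n) (2 * g - 1 - 1) = 1 := by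
          unfold ind
          rw [if_neg (by omega)]
        have h8 : ind (2 * g - 1) (2 * g + k) (Alp (2 * g - 1) (2 * g + k) : Fr g n) (2 * g - 1) =
            Alp (2 * g - 1) (2 * g + k) := by
          unfold ind
          rw [if_pos (by omega)]
        rw [TP_apply, cj_gen_odd _ (by omega) (by omega), h7, h8, one_mul]
      · rw [map_mul, map_inv, ← hev _ (by omega), ← hdk]
        rfl
-- END RB6

end Pool.Agent.EG14
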