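import Pool.Agent.EG14.Defs

/-!
# The notions in the statement
-/

set_option autoImplicit false

namespace Pool.Agent.EG14

open Pool.Agent.HG13

variable {g m n : ℕ}

/-- The pure mapping class group of the surface of genus `g` with `n` punctures and one boundary
component: the group of automorphisms of the fundamental group `Fr g n` generated by the Dehn twists
of `twists g n`. -/
def Mod (g n : ℕ) : Type := Subgroup.closure (twists g n)

instance instGroupMod : Group (Mod g n) := Subgroup.toGroup (Subgroup.closure (twists g n))

/-- The action of the mapping class group on the fundamental group. -/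
def act (γ : Mod g n) : MulAut (Fr g n) := Subtype.val γ

/-- `F` forgets the punctures outside of the image of `e`: the automorphism `F γ` is induced by
`γ`. -/
def Forgets (e : Fin m ↪o Fin n) (F : Mod g n →* Mod g m) : Prop :=
  ∀ γ w, act (F γ) (fgt g e w) = fgt g e (act γ w)

/-- On a subgroup `H` of finite index, `ρ` is the pullback of a representation `σ` of the mapping
class group of the surface with only `m` of the `n` punctures under the forgetful homomorphism. -/
def ComesFrom {V : Type*} [AddCommGroup V] [Module ℂ V] (ρ : Representation ℂ (Mod g n) V)
    (m : ℕ) : Prop :=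
  ∃ (e : Fin m ↪o Fin n) (F : Mod g n →* Mod g m) (σ : Representation ℂ (Mod g m) V)
    (H : Subgroup (Mod g n)), Forgets e F ∧ H.FiniteIndex ∧ ∀ γ ∈ H, ρ γ = σ (F γ)

end Pool.Agent.EG14
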